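import Mathlib

set_option autoImplicit false

namespace Pool.Agent.Work.MP_8efaaa_nt

/-- `a` is a congruent number: the simultaneous equations `x ^ 2 + a * y ^ 2 = z ^ 2` and
`x ^ 2 - a * y ^ 2 = t ^ 2` have a solution in positive integers. -/
def IsCongruent (a : ℕ) : Prop :=
  ∃ x y z t : ℤ, 0 < x ∧ 0 < y ∧ 0 < z ∧ 0 < t ∧
    x ^ 2 + (a : ℤ) * y ^ 2 = z ^ 2 ∧ x ^ 2 - (a : ℤ) * y ^ 2 = t ^ 2

end Pool.Agent.Work.MP_8efaaa_nt
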