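import Mathlib
import Pool.Agent.Work.MP_8efaaa_nt.Defs

set_option autoImplicit false

namespace Pool.Agent.Work.MP_8efaaa_nt

theorem two_sq_ne (a h : ℤ) (ha : a ≠ 0) : 2 * a ^ 2 ≠ h ^ 2 := by
  intro H
  have h2 : Irrational (Real.sqrt 2) := irrational_sqrt_two
  apply h2
  refine ⟨|(h : ℚ) / a|, ?_⟩
  have ha' : (a : ℝ) ≠ 0 := by exact_mod_cast ha
  have e : ((h : ℝ) / a) ^ 2 = 2 := by
    have : (h : ℝ) ^ 2 = 2 * (a : ℝ) ^ 2 := by exact_mod_cast H.symm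
    rw [div_pow, this]
    field_simp
  have : Real.sqrt 2 = |(h : ℝ) / a| := by
    rw [← e, Real.sqrt_sq_eq_abs]
  rw [this]
  push_cast
  rfl

/-- A right triangle with legs `m^2-n^2`, `2mn` whose area is `N` times a square. -/
theorem isCongruent_of_area {N : ℕ} (hN : 0 < N) {m n w : ℤ} (hw : w ≠ 0)
    (h : m * n * (m ^ 2 - n ^ 2) = N * w ^ 2) : IsCongruent N := by
  have hNz : (0 : ℤ) < N := by exact_mod_cast hN
  have hpos : 0 < m * n * (m ^ 2 - n ^ 2) := by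
    rw [h]; positivity
  set a := m ^ 2 - n ^ 2 with ha
  set b := 2 * m * n with hb
  have hab : 0 < a * b := by nlinarith
  have ha0 : a ≠ 0 := by
    rintro h0; rw [h0] at hab; simp at hab
  have hne : a ≠ b := by
    intro e
    have : 2 * a ^ 2 = (m ^ 2 + n ^ 2) ^ 2 := by
      have h1 : (m ^ 2 + n ^ 2) ^ 2 = a ^ 2 + b ^ 2 := by rw [ha, hb]; ring
      rw [h1, ← e]; ring
    exact two_sq_ne a _ ha0 this
  have hsum : a + b ≠ 0 := by
    intro e
    have : b = -a := by linarith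
    rw [this] at hab
    nlinarith [sq_nonneg a]
  have hmn : 0 < m ^ 2 + n ^ 2 := by
    have hm : m ≠ 0 := by rintro rfl; simp at hpos
    positivity
  refine ⟨m ^ 2 + n ^ 2, 2 * |w|, |a + b|, |a - b|, hmn, by positivity, abs_pos.mpr hsum,
    abs_pos.mpr (sub_ne_zero.mpr hne), ?_, ?_⟩
  · rw [mul_pow, sq_abs, sq_abs]
    have : (N : ℤ) * (2 ^ 2 * w ^ 2) = 4 * (m * n * (m ^ 2 - n ^ 2)) := by rw [h]; ring
    rw [this, ha, hb]; ring
  · rw [mul_pow, sq_abs, sq_abs]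
    have : (N : ℤ) * (2 ^ 2 * w ^ 2) = 4 * (m * n * (m ^ 2 - n ^ 2)) := by rw [h]; ring
    rw [this, ha, hb]; ring

/-- Primitive facts about a solution. -/
structure Prim (c : ℕ) (x y z t : ℤ) : Prop where
  hx : 0 < x
  hy : 0 < y
  hz : 0 < z
  ht : 0 < t
  cop : IsCoprime x y
  e1 : x ^ 2 + (c : ℤ) * y ^ 2 = z ^ 2
  e2 : x ^ 2 - (c : ℤ) * y ^ 2 = t ^ 2

theorem exists_prim {c : ℕ} (h : IsCongruent c) : ∃ x y z t : ℤ, Prim c x y z t := by
  obtain ⟨x, y, z, t, hx, hy, hz, ht, e1, e2⟩ := h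
  have hg : 0 < Int.gcd x y := Int.gcd_pos_of_ne_zero_left _ hx.ne'
  obtain ⟨x', y', hco, hx', hy'⟩ := Int.exists_gcd_one hg
  obtain ⟨g, hgdef⟩ : ∃ g : ℤ, g = (Int.gcd x y : ℤ) := ⟨_, rfl⟩
  have hg' : 0 < g := by rw [hgdef]; exact_mod_cast hg
  rw [← hgdef] at hx' hy'
  clear hgdef hg
  subst hx' hy'
  have hz' : g ∣ z := by
    have : g ^ 2 ∣ z ^ 2 := by
      rw [← e1]
      exact ⟨x' ^ 2 + c * y' ^ 2, by ring⟩
    exact (Int.pow_dvd_pow_iff (by norm_num)).mp this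
  have ht' : g ∣ t := by
    have : g ^ 2 ∣ t ^ 2 := by
      rw [← e2]
      exact ⟨x' ^ 2 - c * y' ^ 2, by ring⟩
    exact (Int.pow_dvd_pow_iff (by norm_num)).mp this
  obtain ⟨z', rfl⟩ := hz'
  obtain ⟨t', rfl⟩ := ht'
  refine ⟨x', y', z', t', ?_⟩
  constructor
  · exact pos_of_mul_pos_left hx hg'.le
  · exact pos_of_mul_pos_left hy hg'.le
  · exact pos_of_mul_pos_right hz hg'.le
  · exact pos_of_mul_pos_right ht hg'.le
  · exact Int.isCoprime_iff_gcd_eq_one.mpr hco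
  · have : g ^ 2 * (x' ^ 2 + c * y' ^ 2) = g ^ 2 * z' ^ 2 := by
      linear_combination e1
    exact mul_left_cancel₀ (by positivity) this
  · have : g ^ 2 * (x' ^ 2 - c * y' ^ 2) = g ^ 2 * t' ^ 2 := by
      linear_combination e2
    exact mul_left_cancel₀ (by positivity) this

set_option maxRecDepth 100000 in
theorem key8 : ∀ c x z t : ZMod 8, c ≠ 0 → c ≠ 4 → x ^ 2 + c = z ^ 2 → x ^ 2 - c ≠ t ^ 2 := by
  decide

theorem sq_odd_zmod8 {y : ℤ} (hy : Odd y) : ((y : ℤ) : ZMod 8) ^ 2 = 1 := by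
  have h := Int.sq_mod_four_eq_one_of_odd hy
  have h8 : y ^ 2 % 8 = 1 := by
    obtain ⟨k, rfl⟩ := hy
    rcases Int.even_or_odd k with ⟨j, rfl⟩ | ⟨j, rfl⟩ <;> ring_nf <;> omega
  have : ((y ^ 2 : ℤ) : ZMod 8) = ((1 : ℤ) : ZMod 8) := by
    rw [ZMod.intCast_eq_intCast_iff]; exact h8
  push_cast at this
  exact this

namespace Prim

variable {c : ℕ} {x y z t : ℤ}

theorem even_y (h : Prim c x y z t) (hc : Squarefree c) : Even y := by
  by_contra hodd
  rw [Int.not_even_iff_odd] at hodd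
  have hy := sq_odd_zmod8 hodd
  have h1 : ((x ^ 2 + (c : ℤ) * y ^ 2 : ℤ) : ZMod 8) = ((z ^ 2 : ℤ) : ZMod 8) := by rw [h.e1]
  have h2 : ((x ^ 2 - (c : ℤ) * y ^ 2 : ℤ) : ZMod 8) = ((t ^ 2 : ℤ) : ZMod 8) := by rw [h.e2]
  push_cast at h1 h2
  rw [hy, mul_one] at h1 h2
  have c4 : ¬ 4 ∣ c := by
    intro hd
    have := hc 2 (by simpa using hd)
    simp at this
  refine key8 (c : ZMod 8) x z t ?_ ?_ h1 h2
  · intro e
    have e' : ((c : ℕ) : ZMod 8) = ((0 : ℕ) : ZMod 8) := by simpa using e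
    rw [ZMod.natCast_eq_natCast_iff'] at e'
    omega
  · intro e
    have e' : ((c : ℕ) : ZMod 8) = ((4 : ℕ) : ZMod 8) := by simpa using e
    rw [ZMod.natCast_eq_natCast_iff'] at e'
    omega

theorem odd_x (h : Prim c x y z t) (hc : Squarefree c) : Odd x := by
  by_contra hx
  rw [Int.not_odd_iff_even] at hx
  have h2 : (2 : ℤ) ∣ 1 := by
    have := h.cop
    obtain ⟨a, b, hab⟩ := this
    rw [← hab]
    exact dvd_add (Dvd.dvd.mul_left hx.two_dvd _) (Dvd.dvd.mul_left (h.even_y hc).two_dvd _)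
  norm_num at h2

theorem odd_z (h : Prim c x y z t) (hc : Squarefree c) : Odd z := by
  have : Odd (z ^ 2) := by
    rw [← h.e1]
    exact (h.odd_x hc).pow.add_even (((h.even_y hc).pow_of_ne_zero (by norm_num)).mul_left _)
  exact (Int.odd_pow.mp this).resolve_right (by norm_num)

theorem odd_t (h : Prim c x y z t) (hc : Squarefree c) : Odd t := by
  have : Odd (t ^ 2) := by
    rw [← h.e2]
    exact (h.odd_x hc).pow.sub_even (((h.even_y hc).pow_of_ne_zero (by norm_num)).mul_left _)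
  exact (Int.odd_pow.mp this).resolve_right (by norm_num)

/-- No prime divides both `x ^ 4 - c ^ 2 * y ^ 4` and `2 * c * x ^ 2 * y ^ 2`. -/
theorem coprime_AB (h : Prim c x y z t) (hc : Squarefree c) :
    IsCoprime (x ^ 4 - (c : ℤ) ^ 2 * y ^ 4) (2 * c * x ^ 2 * y ^ 2) := by
  rw [Int.isCoprime_iff_gcd_eq_one]
  by_contra hg
  obtain ⟨r, hr, hrd⟩ := Nat.exists_prime_and_dvd hg
  have hrI : Prime (r : ℤ) := Nat.prime_iff_prime_int.mp hr
  have h1 : (r : ℤ) ∣ x ^ 4 - (c : ℤ) ^ 2 * y ^ 4 :=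
    (Int.natCast_dvd_natCast.mpr hrd).trans (Int.gcd_dvd_left _ _)
  have h2 : (r : ℤ) ∣ 2 * c * x ^ 2 * y ^ 2 :=
    (Int.natCast_dvd_natCast.mpr hrd).trans (Int.gcd_dvd_right _ _)
  -- `r` does not divide `x`
  have hrx : ¬ (r : ℤ) ∣ x := by
    intro hx
    have h3 : (r : ℤ) ∣ (c : ℤ) ^ 2 * y ^ 4 := by
      have : (c : ℤ) ^ 2 * y ^ 4 = x ^ 4 - (x ^ 4 - (c : ℤ) ^ 2 * y ^ 4) := by ring
      rw [this]
      exact dvd_sub (dvd_pow hx (by norm_num)) h1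
    have hry : ¬ (r : ℤ) ∣ y := by
      intro hy
      exact hrI.not_isUnit (h.cop.isUnit_of_dvd' hx hy)
    have hrc : (r : ℤ) ∣ c := by
      rcases hrI.dvd_or_dvd h3 with h4 | h4
      · exact hrI.dvd_of_dvd_pow h4
      · exact absurd (hrI.dvd_of_dvd_pow h4) hry
    have hz : (r : ℤ) ∣ z := by
      apply hrI.dvd_of_dvd_pow (n := 2)
      rw [← h.e1]
      exact dvd_add (dvd_pow hx (by norm_num)) (hrc.mul_right _)
    have hcy : (r : ℤ) ^ 2 ∣ (c : ℤ) * y ^ 2 := by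
      have : (c : ℤ) * y ^ 2 = z ^ 2 - x ^ 2 := by linarith [h.e1]
      rw [this]
      exact dvd_sub (pow_dvd_pow_of_dvd hz 2) (pow_dvd_pow_of_dvd hx 2)
    have hco : IsCoprime ((r : ℤ) ^ 2) (y ^ 2) := by
      apply IsCoprime.pow
      exact (hrI.coprime_iff_not_dvd).mpr hry
    have hcc : (r : ℤ) ^ 2 ∣ (c : ℤ) := hco.dvd_of_dvd_mul_right hcy
    have hcc' : r * r ∣ c := by
      have : ((r * r : ℕ) : ℤ) ∣ (c : ℤ) := by
        push_cast; rw [← sq]; exact hcc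
      exact_mod_cast this
    exact hr.one_lt.ne' (Nat.isUnit_iff.mp (hc r hcc'))
  have hxodd := h.odd_x hc
  have hyev := h.even_y hc
  rcases hrI.dvd_or_dvd h2 with h3 | h3
  · rcases hrI.dvd_or_dvd h3 with h4 | h4
    · rcases hrI.dvd_or_dvd h4 with h5 | h5
      · -- r = 2
        have hr2 : r = 2 := by
          have : r ∣ 2 := by exact_mod_cast h5
          exact (Nat.prime_dvd_prime_iff_eq hr Nat.prime_two).mp this
        subst hr2
        have : Odd (x ^ 4 - (c : ℤ) ^ 2 * y ^ 4) :=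
          hxodd.pow.sub_even ((hyev.pow_of_ne_zero (by norm_num)).mul_left _)
        rw [← Int.not_even_iff_odd] at this
        exact this (even_iff_two_dvd.mpr (by exact_mod_cast h1))
      · apply hrx
        apply hrI.dvd_of_dvd_pow (n := 4)
        have : x ^ 4 = (x ^ 4 - (c : ℤ) ^ 2 * y ^ 4) + c * (c * y ^ 4) := by ring
        rw [this]
        exact dvd_add h1 (h5.mul_right _)
    · exact hrx (hrI.dvd_of_dvd_pow h4)
  · have hy := hrI.dvd_of_dvd_pow h3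
    apply hrx
    apply hrI.dvd_of_dvd_pow (n := 4)
    have : x ^ 4 = (x ^ 4 - (c : ℤ) ^ 2 * y ^ 4) + y * (c ^ 2 * y ^ 3) := by ring
    rw [this]
    exact dvd_add h1 (hy.mul_right _)

theorem A_eq (h : Prim c x y z t) : x ^ 4 - (c : ℤ) ^ 2 * y ^ 4 = (z * t) ^ 2 := by
  rw [mul_pow, ← h.e1, ← h.e2]; ring

end Prim

end Pool.Agent.Work.MP_8efaaa_nt
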