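import Mathlib
import Pool.Agent.Work.MP_8efaaa_nt.Basic

set_option autoImplicit false

namespace Pool.Agent.Work.MP_8efaaa_nt

theorem sq_of_coprime_pos {a b c : ℤ} (ha : 0 < a) (hco : IsCoprime a b) (h : a * b = c ^ 2) :
    ∃ r : ℤ, 0 < r ∧ a = r ^ 2 := by
  obtain ⟨r, hr⟩ := Int.sq_of_gcd_eq_one (Int.isCoprime_iff_gcd_eq_one.mp hco) h
  rcases hr with hr | hr
  · refine ⟨|r|, abs_pos.mpr ?_, by rw [sq_abs]; exact hr⟩
    rintro rfl
    simp at hr
    omega
  · exfalso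
    nlinarith [sq_nonneg r]

/-- Core of the descent for `1`. -/
theorem descent_core {x u v y' : ℤ} (hx : 0 < x) (hu : 0 < u) (hv : 0 < v)
    (hco : IsCoprime u v) (hsum : u ^ 2 + v ^ 2 = x ^ 2) (hprod : u * v = 2 * y' ^ 2)
    (hueven : Even u) : ∃ M N Z T : ℤ, M < x ∧ Prim 1 M N Z T := by
  obtain ⟨w, hw⟩ := hueven.two_dvd
  subst hw
  have hw0 : 0 < w := by linarith
  have hcow : IsCoprime w v := hco.of_mul_left_right
  have hwv : w * v = y' ^ 2 := by
    have : 2 * (w * v) = 2 * y' ^ 2 := by linarith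
    linarith
  obtain ⟨s, hs0, hs⟩ := sq_of_coprime_pos hw0 hcow hwv
  obtain ⟨r, hr0, hr⟩ := sq_of_coprime_pos hv hcow.symm (by rw [mul_comm]; exact hwv)
  have hvodd : Odd v := by
    rw [← Int.not_even_iff_odd]
    intro hve
    have h2 : IsCoprime (2 : ℤ) v := hco.of_mul_left_left
    have := h2.isUnit_of_dvd' (dvd_refl 2) hve.two_dvd
    norm_num [Int.isUnit_iff] at this
  have hpt : PythagoreanTriple v (2 * w) x := by
    unfold PythagoreanTriple
    linear_combination hsum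
  obtain ⟨m, n, h1, h2, h3, h4, h5, h6⟩ := hpt.coprime_classification'
    (Int.isCoprime_iff_gcd_eq_one.mp hco.symm) (Int.odd_iff.mp hvodd) hx
  have hmn : m * n = s ^ 2 := by
    rw [hs] at h2
    have : 2 * (m * n) = 2 * s ^ 2 := by linarith
    linarith
  have hmnpos : 0 < m * n := by rw [hmn]; positivity
  have hm : 0 < m := by
    rcases h6.lt_or_eq with h | h
    · exact h
    · rw [← h] at hmnpos; simp at hmnpos
  have hn : 0 < n := pos_of_mul_pos_right hmnpos hm.le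
  have hcomn : IsCoprime m n := Int.isCoprime_iff_gcd_eq_one.mpr h4
  obtain ⟨M, hM0, hM⟩ := sq_of_coprime_pos hm hcomn hmn
  obtain ⟨N, hN0, hN⟩ := sq_of_coprime_pos hn hcomn.symm (by rw [mul_comm]; exact hmn)
  have hdiff : (m - n) * (m + n) = r ^ 2 := by rw [← hr, h1]; ring
  have hmnp : 0 < m + n := by linarith
  have hmnm : 0 < m - n := by
    have : 0 < (m - n) * (m + n) := by rw [hdiff]; positivity
    exact pos_of_mul_pos_left this hmnp.le
  have hcopm : IsCoprime (m - n) (m + n) := by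
    have hodd : Odd (m - n) := by rw [Int.odd_iff]; omega
    have h2' : IsCoprime (m - n) 2 := (Int.isCoprime_two_right.mpr hodd)
    have h3' : IsCoprime (m - n) n := by
      have := hcomn.add_mul_right_left (-1)
      rwa [show m + -1 * n = m - n by ring] at this
    have h4' : IsCoprime (m - n) (2 * n) := h2'.mul_right h3'
    have := h4'.add_mul_left_right 1
    rwa [show 2 * n + (m - n) * 1 = m + n by ring] at this
  obtain ⟨T, hT0, hT⟩ := sq_of_coprime_pos hmnm hcopm hdiff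
  obtain ⟨Z, hZ0, hZ⟩ := sq_of_coprime_pos hmnp hcopm.symm (by rw [mul_comm]; exact hdiff)
  refine ⟨M, N, Z, T, ?_, ?_⟩
  · rw [h3, hM, hN]
    have hM1 : 1 ≤ M := hM0
    have hN1 : 1 ≤ N := hN0
    have : M ≤ (M ^ 2) ^ 2 := by
      have : M ^ 1 ≤ M ^ 4 := pow_le_pow_right₀ hM1 (by norm_num)
      calc M = M ^ 1 := by ring
        _ ≤ M ^ 4 := this
        _ = (M ^ 2) ^ 2 := by ring
    have h' : 0 < (N ^ 2) ^ 2 := by positivity
    linarith
  · constructor
    · exact hM0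
    · exact hN0
    · exact hZ0
    · exact hT0
    · have : IsCoprime (M ^ 2) (N ^ 2) := by rw [← hM, ← hN]; exact hcomn
      exact (IsCoprime.pow_iff (by norm_num) (by norm_num)).mp this
    · push_cast; rw [← hM, ← hN, ← hZ]; ring
    · push_cast; rw [← hM, ← hN, ← hT]; ring

theorem descent_step {x y z t : ℤ} (h : Prim 1 x y z t) :
    ∃ M N Z T : ℤ, M < x ∧ Prim 1 M N Z T := by
  have hc : Squarefree (1 : ℕ) := squarefree_one
  obtain ⟨u', hu'⟩ := h.odd_z hc
  obtain ⟨v', hv'⟩ := h.odd_t hc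
  obtain ⟨y', hy'⟩ := (h.even_y hc).two_dvd
  have e1 := h.e1
  have e2 := h.e2
  have hx := h.hx
  have hy := h.hy
  have hz := h.hz
  have ht := h.ht
  have hzt : t < z := by
    have : t ^ 2 < z ^ 2 := by
      rw [← e1, ← e2]; push_cast; nlinarith
    exact lt_of_pow_lt_pow_left₀ 2 hz.le this
  set u := u' + v' + 1 with hu
  set v := u' - v' with hv
  have hzuv : z = u + v := by rw [hu, hv, hu']; ring
  have htuv : t = u - v := by rw [hu, hv, hv']; ring
  have hupos : 0 < u := by linarith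
  have hvpos : 0 < v := by linarith
  have hsum : u ^ 2 + v ^ 2 = x ^ 2 := by
    have : 2 * (u ^ 2 + v ^ 2) = 2 * x ^ 2 := by
      have h1 : z ^ 2 + t ^ 2 = 2 * x ^ 2 := by rw [← e1, ← e2]; ring
      rw [← h1, hzuv, htuv]; ring
    linarith
  have hprod : u * v = 2 * y' ^ 2 := by
    have : 4 * (u * v) = 2 * y ^ 2 := by
      have h1 : z ^ 2 - t ^ 2 = 2 * y ^ 2 := by rw [← e1, ← e2]; push_cast; ring
      rw [← h1, hzuv, htuv]; ring
    rw [hy'] at this
    linarith
  have hco : IsCoprime u v := by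
    rw [Int.isCoprime_iff_gcd_eq_one]
    by_contra hg
    obtain ⟨r, hr, hrd⟩ := Nat.exists_prime_and_dvd hg
    have hrI : Prime (r : ℤ) := Nat.prime_iff_prime_int.mp hr
    have h1 : (r : ℤ) ∣ u := (Int.natCast_dvd_natCast.mpr hrd).trans (Int.gcd_dvd_left _ _)
    have h2 : (r : ℤ) ∣ v := (Int.natCast_dvd_natCast.mpr hrd).trans (Int.gcd_dvd_right _ _)
    have hrx : (r : ℤ) ∣ x := by
      apply hrI.dvd_of_dvd_pow (n := 2)
      rw [← hsum]
      exact dvd_add (dvd_pow h1 (by norm_num)) (dvd_pow h2 (by norm_num))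
    have hry : (r : ℤ) ∣ y := by
      apply hrI.dvd_of_dvd_pow (n := 2)
      have : y ^ 2 = 2 * (u * v) := by rw [hprod, hy']; ring
      rw [this]
      exact (h1.mul_right v).mul_left 2
    exact hrI.not_isUnit (h.cop.isUnit_of_dvd' hrx hry)
  have heven : Even (u * v) := by rw [hprod]; exact even_two_mul _
  rcases Int.even_mul.mp heven with he | he
  · exact descent_core hx hupos hvpos hco hsum hprod he
  · exact descent_core hx hvpos hupos hco.symm (by linarith) (by rw [mul_comm]; exact hprod) he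

theorem no_prim_one (n : ℕ) : ∀ x y z t : ℤ, x.toNat = n → ¬ Prim 1 x y z t := by
  induction n using Nat.strong_induction_on with
  | _ n ih =>
    intro x y z t hn h
    obtain ⟨M, N, Z, T, hlt, hP⟩ := descent_step h
    have hM := hP.hx
    exact ih M.toNat (by omega) M N Z T rfl hP

theorem not_isCongruent_one : ¬ IsCongruent 1 := by
  intro h
  obtain ⟨x, y, z, t, hP⟩ := exists_prim h
  exact no_prim_one _ x y z t rfl hP

/-- Euler: `z ^ 4 + t ^ 4 = 2 w ^ 2` has no solution with `z ≠ t` odd and positive. -/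
theorem quartic_ne {z t w : ℤ} (hz : Odd z) (ht : Odd t) (hz0 : 0 < z) (ht0 : 0 < t) (hne : z ≠ t)
    (h : z ^ 4 + t ^ 4 = 2 * w ^ 2) : False := by
  apply not_isCongruent_one
  obtain ⟨a, ha⟩ := hz
  obtain ⟨b, hb⟩ := ht
  have h1 : (z ^ 2 + t ^ 2) = 2 * (2 * a ^ 2 + 2 * a + 2 * b ^ 2 + 2 * b + 1) := by
    rw [ha, hb]; ring
  have h2 : (z ^ 2 - t ^ 2) = 2 * (2 * a ^ 2 + 2 * a - 2 * b ^ 2 - 2 * b) := by
    rw [ha, hb]; ring
  set m := 2 * a ^ 2 + 2 * a + 2 * b ^ 2 + 2 * b + 1 with hm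
  set n := 2 * a ^ 2 + 2 * a - 2 * b ^ 2 - 2 * b with hn
  have hmpos : 0 < m := by
    have : 0 < z ^ 2 + t ^ 2 := by positivity
    linarith
  have hn0 : n ≠ 0 := by
    intro h0
    rw [h0, mul_zero] at h2
    have : z ^ 2 = t ^ 2 := by linarith
    rw [sq_eq_sq₀ hz0.le ht0.le] at this
    exact hne this
  have hw0 : w ≠ 0 := by
    rintro rfl
    have : 0 < z ^ 4 + t ^ 4 := by positivity
    rw [h] at this; simp at this
  have e1 : 4 * (m ^ 2 + n ^ 2) = 4 * w ^ 2 := by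
    have : (z ^ 2 + t ^ 2) ^ 2 + (z ^ 2 - t ^ 2) ^ 2 = 2 * (z ^ 4 + t ^ 4) := by ring
    rw [h1, h2, h] at this
    linarith
  have e2 : 4 * (m ^ 2 - n ^ 2) = 4 * (z * t) ^ 2 := by
    have : (z ^ 2 + t ^ 2) ^ 2 - (z ^ 2 - t ^ 2) ^ 2 = 4 * (z * t) ^ 2 := by ring
    rw [h1, h2] at this
    linarith
  refine ⟨m, |n|, |w|, z * t, hmpos, abs_pos.mpr hn0, abs_pos.mpr hw0, by positivity, ?_, ?_⟩
  · rw [sq_abs, sq_abs]; push_cast; linarith
  · rw [sq_abs]; push_cast; linarith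

end Pool.Agent.Work.MP_8efaaa_nt
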