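import Pool.Agent.Work.MP_8efaaa_nt.SieveX
import Pool.Agent.Work.MP_8efaaa_nt.Defs

set_option autoImplicit false

namespace Pool.Agent.Work.MP_8efaaa_nt

theorem unit_lift (M r M' : ℕ) (hM : 0 < M) (hM' : 0 < M') (hd : M ∣ M') :
    ∃ β : ℕ, Nat.Coprime β M' ∧ Nat.gcd r M * β ≡ r [MOD M] := by
  have hm0 : 0 < Nat.gcd r M := Nat.gcd_pos_of_pos_right _ hM
  obtain ⟨r', hr'⟩ := Nat.gcd_dvd_left r M
  obtain ⟨M1, hM1⟩ := Nat.gcd_dvd_right r M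
  have hcop : Nat.Coprime r' M1 := by
    have h1 : Nat.gcd (Nat.gcd r M * r') (Nat.gcd r M * M1) = Nat.gcd r M := by
      rw [← hr', ← hM1]
    rw [Nat.gcd_mul_left] at h1
    exact Nat.eq_of_mul_eq_mul_left hm0 (h1.trans (mul_one _).symm)
  have : NeZero M' := ⟨hM'.ne'⟩
  have hM1d : M1 ∣ M' := (Dvd.intro_left _ hM1.symm).trans hd
  obtain ⟨u, hu⟩ := ZMod.unitsMap_surjective hM1d (ZMod.unitOfCoprime r' hcop)
  refine ⟨(u : ZMod M').val, ZMod.val_coe_unit_coprime u, ?_⟩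
  have h2 : (((u : ZMod M').val : ℕ) : ZMod M1) = (r' : ZMod M1) := by
    have h3 := congrArg (fun x : (ZMod M1)ˣ => (x : ZMod M1)) hu
    simp only [ZMod.unitsMap_val, ZMod.coe_unitOfCoprime] at h3
    rw [ZMod.natCast_val]
    exact h3
  have h4 : (u : ZMod M').val ≡ r' [MOD M1] := (ZMod.natCast_eq_natCast_iff _ _ _).1 h2
  have h5 := Nat.ModEq.mul_left' (Nat.gcd r M) h4
  rw [← hM1, ← hr'] at h5
  exact h5

theorem split_coprime (c : ℕ) (hc : 0 < c) : ∀ n : ℕ, 0 < n →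
    ∃ Q R : ℕ, n = Q * R ∧ Nat.Coprime Q c ∧ ∀ p, p.Prime → p ∣ R → p ∣ c := by
  intro n
  induction n using Nat.strong_induction_on with
  | _ n ih =>
    intro hn
    by_cases h : Nat.Coprime n c
    · exact ⟨n, 1, (mul_one n).symm, h, fun p hp h1 => (hp.one_lt.ne' (Nat.dvd_one.1 h1)).elim⟩
    · obtain ⟨p, hp, h1, h2⟩ := Nat.Prime.not_coprime_iff_dvd.1 h
      obtain ⟨n', rfl⟩ := h1
      have hn' : 0 < n' := Nat.pos_of_mul_pos_left hn
      obtain ⟨Q, R, h3, h4, h5⟩ := ih n' (by nlinarith [hp.two_le]) hn'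
      refine ⟨Q, p * R, by rw [h3]; ring, h4, fun q hq hqd => ?_⟩
      rcases (Nat.Prime.dvd_mul hq).1 hqd with h6 | h6
      · rw [(Nat.prime_dvd_prime_iff_eq hq hp).1 h6]
        exact h2
      · exact h5 q hq h6

/-- The congruent numbers from `s = m R² n`: `N (R Q)² = s (s² - 1)`. -/
theorem congruent_of (N s e : ℕ) (hN : N * e ^ 2 + s = s ^ 3) (he : 0 < e) (hs : 0 < s) :
    IsCongruent N := by
  have hN' : (N : ℤ) * (e : ℤ) ^ 2 = (s : ℤ) ^ 3 - s := by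
    have : ((N * e ^ 2 + s : ℕ) : ℤ) = ((s ^ 3 : ℕ) : ℤ) := by rw [hN]
    push_cast at this
    linarith
  have hs' : (0 : ℤ) < s := by exact_mod_cast hs
  have he' : (0 : ℤ) < e := by exact_mod_cast he
  have ht : (s : ℤ) ^ 2 - 2 * s - 1 ≠ 0 := by
    intro h
    have h1 : ((s : ℤ) - 1) ^ 2 = 2 := by linarith
    have h2 : ((s : ℤ) - 1) < 2 := by nlinarith
    have h3 : (-2 : ℤ) < ((s : ℤ) - 1) := by linarith
    have h4 : (s : ℤ) < 3 := by linarith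
    interval_cases (s : ℤ) <;> omega
  refine ⟨(s : ℤ) ^ 2 + 1, 2 * e, (s : ℤ) ^ 2 + 2 * s - 1, |(s : ℤ) ^ 2 - 2 * s - 1|,
    by positivity, by positivity, by nlinarith, abs_pos.2 ht, ?_, ?_⟩
  · linear_combination 4 * hN'
  · rw [sq_abs]
    linear_combination (-4) * hN'

theorem coprime_of_no_prime (a b : ℕ) (h : ∀ p, p.Prime → p ∣ a → ¬ p ∣ b) : Nat.Coprime a b := by
  by_contra hc
  obtain ⟨p, hp, h1, h2⟩ := Nat.Prime.not_coprime_iff_dvd.1 hc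
  exact h p hp h1 h2

theorem lin_solve (a c q : ℕ) (h : Nat.Coprime a q) (hq : 0 < q) : ∃ x : ℕ, a * x ≡ c [MOD q] := by
  have : NeZero q := ⟨hq.ne'⟩
  refine ⟨((a : ZMod q)⁻¹ * (c : ZMod q)).val, ?_⟩
  rw [← ZMod.natCast_eq_natCast_iff]
  push_cast
  rw [ZMod.natCast_zmod_val, ← mul_assoc, ZMod.coe_mul_inv_eq_one a h, one_mul]

theorem class_calc (Q R m β n0 w t : ℤ) (hQR : IsCoprime Q R) (hQm : IsCoprime Q m)
    (h1 : R ∣ n0 + β * Q ^ 2) (h2 : m * R ^ 2 * n0 = 1 + Q ^ 2 * w)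
    (h3 : Q ∣ 2 * w - β * (m * R ^ 2)) (n L : ℤ) (hn : n = n0 + R * Q ^ 3 * t)
    (hL : L = w + m * R ^ 2 * R * Q * t) :
    Q * R ∣ n * L * (m * R ^ 2 * n + 1) - β := by
  have hs : m * R ^ 2 * n = 1 + Q ^ 2 * L := by rw [hn, hL]; linear_combination h2
  apply IsCoprime.mul_dvd hQR
  · have h4 : Q ∣ (m * R ^ 2) * (n * L * (m * R ^ 2 * n + 1) - β) := by
      obtain ⟨c, hc⟩ := h3
      refine ⟨c + 2 * m * R ^ 3 * t + 3 * Q * L ^ 2 + Q ^ 3 * L ^ 3, ?_⟩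
      have e : (m * R ^ 2 * n) * L * (m * R ^ 2 * n + 1) = 2 * L + 3 * Q ^ 2 * L ^ 2 + Q ^ 4 * L ^ 3 := by
        rw [hs]; ring
      linear_combination e + hc + 2 * hL
    exact (hQm.mul_right (hQR.pow_right)).dvd_of_dvd_mul_left h4
  · have h5 : R ∣ Q ^ 2 * (n * L * (m * R ^ 2 * n + 1) - β) := by
      obtain ⟨d, hd⟩ := h1
      refine ⟨m ^ 2 * R ^ 3 * n ^ 3 - d - Q ^ 3 * t, ?_⟩
      linear_combination (-n * (m * R ^ 2 * n + 1)) * hs - hd - hn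
    exact (hQR.symm.pow_right).dvd_of_dvd_mul_left h5

theorem primes_alpha (Q R m p : ℕ) (hp : p.Prime) (hm : p ∣ m → p ∣ R) :
    (p ∣ R * Q ^ 3 ↔ p ∣ Q ∨ p ∣ R) ∧ (p ∣ m * R ^ 2 * R * Q ↔ p ∣ Q ∨ p ∣ R) ∧
      (p ∣ m * R ^ 2 * (R * Q ^ 3) ↔ p ∣ Q ∨ p ∣ R) := by
  have h3 : p ∣ Q ^ 3 ↔ p ∣ Q := ⟨hp.dvd_of_dvd_pow, fun h => dvd_pow h (by norm_num)⟩
  have h2 : p ∣ R ^ 2 ↔ p ∣ R := ⟨hp.dvd_of_dvd_pow, fun h => dvd_pow h (by norm_num)⟩
  simp only [Nat.Prime.dvd_mul hp, h3, h2]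
  tauto

/-- Every residue class contains almost-prime multiples of the gcd that are congruent numbers. -/
theorem main (M r B : ℕ) (hM : 0 < M) (hg : Squarefree (Nat.gcd r M)) :
    ∃ b : ℕ, 1 < b ∧ Squarefree (Nat.gcd r M * b) ∧ Nat.gcd r M * b ≡ r [MOD M] ∧
      (∀ q, q.Prime → q ∣ b → B < q) ∧ b.primeFactors.card ≤ 669 ∧
      IsCongruent (Nat.gcd r M * b) := by
  have hm0 : 0 < Nat.gcd r M := Nat.gcd_pos_of_pos_right _ hM
  have hmM : Nat.gcd r M ∣ M := Nat.gcd_dvd_right r M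
  set m := Nat.gcd r M with hm
  set M' := M * (B + 8).factorial with hM'
  have hM'0 : 0 < M' := Nat.mul_pos hM (Nat.factorial_pos _)
  obtain ⟨β, hβ, hβr⟩ := unit_lift M r M' hM hM'0 (Dvd.intro _ rfl)
  obtain ⟨Q, R, hQR, hQc, hR⟩ := split_coprime (2 * m) (by omega) M' hM'0
  have hQ0 : 0 < Q := by
    rcases Nat.eq_zero_or_pos Q with h | h
    · rw [h, zero_mul] at hQR; omega
    · exact h
  have hR0 : 0 < R := by
    rcases Nat.eq_zero_or_pos R with h | h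
    · rw [h, mul_zero] at hQR; omega
    · exact h
  have hsmall : ∀ p, p.Prime → p ≤ B + 8 → p ∣ M' := fun p hp h =>
    Dvd.dvd.mul_left (hp.dvd_factorial.2 h) M
  have hQ2 : Nat.Coprime Q 2 := Nat.Coprime.coprime_mul_right_right hQc
  have hQm : Nat.Coprime Q m := Nat.Coprime.coprime_mul_left_right hQc
  have hQRc : Nat.Coprime Q R := coprime_of_no_prime _ _ fun p hp h1 h2 =>
    hp.one_lt.ne' (Nat.dvd_one.1 (by rw [← hQc]; exact Nat.dvd_gcd h1 (hR p hp h2)))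
  have hmR : m ∣ R := by
    have h1 : m ∣ Q * R := by rw [← hQR]; exact hmM.trans (Dvd.intro _ rfl)
    exact hQm.symm.dvd_of_dvd_mul_left h1
  have hμQ : Nat.Coprime (m * R ^ 2) Q :=
    Nat.Coprime.mul_left hQm.symm (Nat.Coprime.pow_left 2 hQRc.symm)
  obtain ⟨w0, hw0⟩ := lin_solve 2 (β * (m * R ^ 2)) Q hQ2.symm hQ0
  obtain ⟨a2, ha2⟩ := lin_solve (m * R ^ 2) (1 + Q ^ 2 * w0) (Q ^ 3) (Nat.Coprime.pow_right 3 hμQ)
    (pow_pos hQ0 3)
  obtain ⟨R1, hR1⟩ : ∃ R1, R = R1 + 1 := ⟨R - 1, by omega⟩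
  obtain ⟨n1, hn1, hn1'⟩ := Nat.chineseRemainder (Nat.Coprime.pow_right 3 hQRc.symm)
    (β * Q ^ 2 * R1) a2
  set n0 := n1 + R * Q ^ 3 with hn0
  have hn0pos : 0 < n0 := by positivity
  have e1 : (R : ℤ) ∣ (n0 : ℤ) + (β : ℤ) * (Q : ℤ) ^ 2 := by
    have h1 : n0 + β * Q ^ 2 ≡ 0 [MOD R] := by
      have h2 : n0 ≡ β * Q ^ 2 * R1 [MOD R] := by
        have h3 : n1 + R * Q ^ 3 ≡ n1 + 0 [MOD R] :=
          Nat.ModEq.add_left _ (Nat.modEq_zero_iff_dvd.2 (Dvd.intro _ rfl))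
        rw [add_zero] at h3
        exact h3.trans hn1
      have h4 := Nat.ModEq.add_right (β * Q ^ 2) h2
      refine h4.trans ?_
      have h5 : β * Q ^ 2 * R1 + β * Q ^ 2 = R * (β * Q ^ 2) := by rw [hR1]; ring
      rw [h5]
      exact Nat.modEq_zero_iff_dvd.2 (Dvd.intro _ rfl)
    have h6 := Nat.modEq_zero_iff_dvd.1 h1
    exact_mod_cast h6
  have hμn : m * R ^ 2 * n0 ≡ 1 + Q ^ 2 * w0 [MOD Q ^ 3] := by
    refine Nat.ModEq.trans ?_ ha2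
    refine Nat.ModEq.mul_left _ ?_
    have h3 : n1 + R * Q ^ 3 ≡ n1 + 0 [MOD Q ^ 3] :=
      Nat.ModEq.add_left _ (Nat.modEq_zero_iff_dvd.2 (Dvd.intro_left _ rfl))
    rw [add_zero] at h3
    exact h3.trans hn1'
  have hμn1 : 1 ≤ m * R ^ 2 * n0 := Nat.mul_pos (Nat.mul_pos hm0 (pow_pos hR0 2)) hn0pos
  obtain ⟨w, hw⟩ : ∃ w, m * R ^ 2 * n0 = 1 + Q ^ 2 * w := by
    have h1 : 1 ≡ m * R ^ 2 * n0 [MOD Q ^ 2] := by
      have h2 : m * R ^ 2 * n0 ≡ 1 + Q ^ 2 * w0 [MOD Q ^ 2] :=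
        hμn.of_dvd (pow_dvd_pow Q (by norm_num))
      have h3 : 1 + Q ^ 2 * w0 ≡ 1 + 0 [MOD Q ^ 2] :=
        Nat.ModEq.add_left _ (Nat.modEq_zero_iff_dvd.2 (Dvd.intro _ rfl))
      exact (h2.trans h3).symm
    obtain ⟨w, hw⟩ := (Nat.modEq_iff_dvd' hμn1).1 h1
    exact ⟨w, by omega⟩
  have hww : w ≡ w0 [MOD Q] := by
    rw [hw] at hμn
    have h1 : Q ^ 2 * w ≡ Q ^ 2 * w0 [MOD Q ^ 2 * Q] := by
      have := Nat.ModEq.add_left_cancel' 1 hμn
      rw [show Q ^ 3 = Q ^ 2 * Q by ring] at this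
      exact this
    exact Nat.ModEq.mul_left_cancel' (pow_pos hQ0 2).ne' h1
  have e3 : (Q : ℤ) ∣ 2 * (w : ℤ) - (β : ℤ) * ((m : ℤ) * (R : ℤ) ^ 2) := by
    have h1 : 2 * w ≡ β * (m * R ^ 2) [MOD Q] := (Nat.ModEq.mul_left 2 hww).trans hw0
    have h2 := (Nat.modEq_iff_dvd.1 h1.symm)
    push_cast at h2
    exact h2
  -- primes
  have hβp : ∀ p, p.Prime → p ∣ M' → ¬ p ∣ β := fun p hp h1 h2 =>
    hp.one_lt.ne' (Nat.dvd_one.1 (by rw [← hβ]; exact Nat.dvd_gcd h2 h1))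
  have hcases : ∀ p, p.Prime → p ∣ M' → p ∣ Q ∨ p ∣ R := fun p hp h => by
    rw [hQR] at h
    exact (Nat.Prime.dvd_mul hp).1 h
  have hnotboth : ∀ p, p.Prime → p ∣ Q → ¬ p ∣ R := fun p hp h1 h2 =>
    hp.one_lt.ne' (Nat.dvd_one.1 (by rw [← hQRc]; exact Nat.dvd_gcd h1 h2))
  have hnotm : ∀ p, p.Prime → p ∣ Q → ¬ p ∣ m := fun p hp h1 h2 => hnotboth p hp h1 (h2.trans hmR)
  set α : Fin 3 → ℕ := ![R * Q ^ 3, m * R ^ 2 * R * Q, m * R ^ 2 * (R * Q ^ 3)] with hα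
  set γ : Fin 3 → ℕ := ![n0, w, m * R ^ 2 * n0 + 1] with hγ
  have hiff : ∀ v p, p.Prime → (p ∣ α v ↔ p ∣ M') := by
    intro v p hp
    have hM'iff : p ∣ M' ↔ p ∣ Q ∨ p ∣ R := by rw [hQR]; exact Nat.Prime.dvd_mul hp
    rw [hM'iff]
    obtain ⟨i0, i1, i2⟩ := primes_alpha Q R m p hp (fun h => h.trans hmR)
    fin_cases v
    · exact i0
    · exact i1
    · exact i2
  have hαpos : ∀ v, 0 < α v := by
    intro v
    fin_cases v <;> simp only [hα, Fin.zero_eta, Fin.mk_one, Fin.reduceFinMk, Matrix.cons_val_zero,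
      Matrix.cons_val_one, Matrix.cons_val] <;> positivity
  have hbad : ∀ v p, p.Prime → p ∣ M' → ¬ p ∣ γ v := by
    intro v p hp hpM hpv
    have hp1 : ¬ p ∣ 1 := fun h => hp.one_lt.ne' (Nat.dvd_one.1 h)
    have hRμ : p ∣ R → p ∣ m * R ^ 2 := fun h => Dvd.dvd.mul_left (Dvd.dvd.trans h (Dvd.intro_left R (by ring))) m
    fin_cases v
    · simp only [hγ, Fin.zero_eta, Matrix.cons_val_zero] at hpv
      rcases hcases p hp hpM with h | h
      · have h1 : p ∣ m * R ^ 2 * n0 := Dvd.dvd.mul_left hpv _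
        rw [hw] at h1
        have h2 : p ∣ Q ^ 2 * w := Dvd.dvd.mul_right (Dvd.dvd.trans h (Dvd.intro_left Q (by ring))) w
        exact hp1 ((Nat.dvd_add_left h2).1 h1)
      · have h1 : (p : ℤ) ∣ (n0 : ℤ) + (β : ℤ) * (Q : ℤ) ^ 2 :=
          (Int.natCast_dvd_natCast.2 h).trans e1
        have h2 : p ∣ n0 + β * Q ^ 2 := by exact_mod_cast h1
        have h3 : p ∣ β * Q ^ 2 := (Nat.dvd_add_right hpv).1 h2
        rcases (Nat.Prime.dvd_mul hp).1 h3 with h4 | h4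
        · exact hβp p hp hpM h4
        · exact hnotboth p hp (hp.dvd_of_dvd_pow h4) h
    · simp only [hγ, Fin.mk_one, Matrix.cons_val_one, Matrix.cons_val_zero] at hpv
      rcases hcases p hp hpM with h | h
      · have h1 : (p : ℤ) ∣ 2 * (w : ℤ) - (β : ℤ) * ((m : ℤ) * (R : ℤ) ^ 2) :=
          (Int.natCast_dvd_natCast.2 h).trans e3
        have h2 : (p : ℤ) ∣ 2 * (w : ℤ) := Dvd.dvd.mul_left (Int.natCast_dvd_natCast.2 hpv) 2
        have h3 : (p : ℤ) ∣ (β : ℤ) * ((m : ℤ) * (R : ℤ) ^ 2) := (dvd_sub_right h2).1 h1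
        have h4 : p ∣ β * (m * R ^ 2) := by exact_mod_cast h3
        rcases (Nat.Prime.dvd_mul hp).1 h4 with h5 | h5
        · exact hβp p hp hpM h5
        · rcases (Nat.Prime.dvd_mul hp).1 h5 with h6 | h6
          · exact hnotm p hp h h6
          · exact hnotboth p hp h (hp.dvd_of_dvd_pow h6)
      · have h1 : p ∣ m * R ^ 2 * n0 := Dvd.dvd.mul_right (hRμ h) _
        rw [hw] at h1
        exact hp1 ((Nat.dvd_add_left (Dvd.dvd.mul_left hpv _)).1 h1)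
    · simp only [hγ, Fin.reduceFinMk, Matrix.cons_val] at hpv
      rcases hcases p hp hpM with h | h
      · have h2 : p ∣ Q ^ 2 * w := Dvd.dvd.mul_right (Dvd.dvd.trans h (Dvd.intro_left Q (by ring))) w
        rw [hw, show 1 + Q ^ 2 * w + 1 = 2 + Q ^ 2 * w by ring] at hpv
        have h3 : p ∣ 2 := (Nat.dvd_add_left h2).1 hpv
        exact hp1 (by rw [← hQ2]; exact Nat.dvd_gcd h h3)
      · exact hp1 ((Nat.dvd_add_right (Dvd.dvd.mul_right (hRμ h) _)).1 hpv)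
  obtain ⟨t, hsq, hcard⟩ := sieve_main (Fin 3) 3 α γ (by norm_num) (by simp) hαpos
    (fun v => coprime_of_no_prime _ _ fun p hp h1 => hbad v p hp ((hiff v p hp).1 h1))
    (fun v v' p hp h => (hiff v' p hp).2 ((hiff v p hp).1 h))
    (fun v p hp h => (hiff v p hp).2 (hsmall p hp (by norm_num at h; omega)))
  have hcopM : ∀ v p, p.Prime → p ∣ α v * t + γ v → ¬ p ∣ M' := by
    intro v p hp h1 h2
    have h3 := (hiff v p hp).2 h2
    exact hbad v p hp h2 ((Nat.dvd_add_right (Dvd.dvd.mul_right h3 t)).1 h1)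
  have hL0 := hsq 0
  have hL1 := hsq 1
  have hL2 := hsq 2
  have hc0 := hcopM 0
  have hc1 := hcopM 1
  have hc2 := hcopM 2
  rw [Fin.sum_univ_three] at hcard
  simp only [hα, hγ, Fin.isValue, Matrix.cons_val_zero, Matrix.cons_val_one, Matrix.cons_val] at hL0 hL1 hL2 hc0 hc1 hc2 hcard
  have hs : m * R ^ 2 * (R * Q ^ 3 * t + n0) = 1 + Q ^ 2 * (m * R ^ 2 * R * Q * t + w) := by
    linear_combination hw
  have hs2 : m * R ^ 2 * (R * Q ^ 3) * t + (m * R ^ 2 * n0 + 1) = m * R ^ 2 * (R * Q ^ 3 * t + n0) + 1 := by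
    ring
  rw [hs2] at hL2 hc2 hcard
  set n := R * Q ^ 3 * t + n0 with hn
  set L := m * R ^ 2 * R * Q * t + w with hL
  set T := m * R ^ 2 * n + 1 with hT
  have hT2 : T = 2 + Q ^ 2 * L := by rw [hT, hs]; ring
  have hn_pos : 0 < n := Nat.pos_of_ne_zero hL0.ne_zero
  have hL_pos : 0 < L := Nat.pos_of_ne_zero hL1.ne_zero
  have hp1 : ∀ p, p.Prime → ¬ p ∣ 1 := fun p hp h => hp.one_lt.ne' (Nat.dvd_one.1 h)
  have c01 : Nat.Coprime n L := coprime_of_no_prime _ _ fun p hp h1 h2 => by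
    have h3 : p ∣ 1 + Q ^ 2 * L := by rw [← hs]; exact Dvd.dvd.mul_left h1 _
    exact hp1 p hp ((Nat.dvd_add_left (Dvd.dvd.mul_left h2 _)).1 h3)
  have c02 : Nat.Coprime n T := coprime_of_no_prime _ _ fun p hp h1 h2 =>
    hp1 p hp ((Nat.dvd_add_right (Dvd.dvd.mul_left h1 _)).1 h2)
  have c12 : Nat.Coprime L T := coprime_of_no_prime _ _ fun p hp h1 h2 => by
    rw [hT2] at h2
    have h3 : p ∣ 2 := (Nat.dvd_add_left (Dvd.dvd.mul_left h1 _)).1 h2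
    have h4 : p = 2 := (Nat.prime_dvd_prime_iff_eq hp Nat.prime_two).1 h3
    exact hc1 p hp h1 (hsmall p hp (by omega))
  have hbsq : Squarefree (n * L * T) := by
    rw [Nat.squarefree_mul (Nat.Coprime.mul_left c02 c12), Nat.squarefree_mul c01]
    exact ⟨⟨hL0, hL1⟩, hL2⟩
  have hbM : ∀ q, q.Prime → q ∣ n * L * T → ¬ q ∣ M' := by
    intro q hq h
    rcases (Nat.Prime.dvd_mul hq).1 h with h | h
    · rcases (Nat.Prime.dvd_mul hq).1 h with h | h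
      · exact hc0 q hq h
      · exact hc1 q hq h
    · exact hc2 q hq h
  have hmb : Nat.Coprime m (n * L * T) := coprime_of_no_prime _ _ fun p hp h1 h2 =>
    hbM p hp h2 (h1.trans (hmM.trans (Dvd.intro _ rfl)))
  refine ⟨n * L * T, ?_, ?_, ?_, ?_, ?_, ?_⟩
  · have h1 : 1 ≤ n * L := Nat.mul_pos hn_pos hL_pos
    have h2 : 2 ≤ T := by rw [hT2]; omega
    calc 1 < 1 * 2 := by norm_num
      _ ≤ n * L * T := Nat.mul_le_mul h1 h2
  · rw [Nat.squarefree_mul hmb]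
    exact ⟨hg, hbsq⟩
  · have h1 : ((Q : ℤ) * R) ∣ (n : ℤ) * L * (m * R ^ 2 * n + 1) - β := by
      refine class_calc Q R m β n0 w t (Nat.isCoprime_iff_coprime.2 hQRc)
        (Nat.isCoprime_iff_coprime.2 hQm) e1 (by exact_mod_cast hw) e3 n L ?_ ?_
      · rw [hn]; push_cast; ring
      · rw [hL]; push_cast; ring
    have h2 : β ≡ n * L * T [MOD M'] := by
      rw [Nat.modEq_iff_dvd, hQR, hT]
      push_cast
      exact h1
    have h3 : n * L * T ≡ β [MOD M] := h2.symm.of_dvd (Dvd.intro _ rfl)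
    exact (Nat.ModEq.mul_left m h3).trans hβr
  · intro q hq h
    by_contra hle
    exact hbM q hq h (hsmall q hq (by omega))
  · have h1 : (n * L * T).primeFactors = (n.primeFactors ∪ L.primeFactors) ∪ T.primeFactors := by
      rw [Nat.primeFactors_mul (Nat.mul_pos hn_pos hL_pos).ne' (by rw [hT2]; omega),
        Nat.primeFactors_mul hn_pos.ne' hL_pos.ne']
    rw [h1]
    refine (Finset.card_union_le _ _).trans ((Nat.add_le_add_right (Finset.card_union_le _ _) _).trans ?_)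
    refine hcard.trans ?_
    simp
  · refine congruent_of (m * (n * L * T)) (m * R ^ 2 * n) (R * Q) ?_ (Nat.mul_pos hR0 hQ0)
      (Nat.mul_pos (Nat.mul_pos hm0 (pow_pos hR0 2)) hn_pos)
    calc m * (n * L * T) * (R * Q) ^ 2 + m * R ^ 2 * n
        = (m * R ^ 2 * n) * ((Q ^ 2 * L) * T + 1) := by ring
      _ = (m * R ^ 2 * n) * (1 + Q ^ 2 * L) ^ 2 := by rw [hT2]; ring
      _ = (m * R ^ 2 * n) ^ 3 := by rw [← hs]; ring

end Pool.Agent.Work.MP_8efaaa_nt
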