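import Mathlib
import Pool.Agent.Work.MP_8efaaa_nt.Defs
import Pool.Agent.Work.MP_8efaaa_nt.APMain

set_option autoImplicit false

open Pool.Agent.Work.MP_8efaaa_nt

/-- Every residue class `r` modulo `M` containing squarefree numbers contains, for every `B`, a
squarefree congruent number `gcd(r, M) * b` where `b > 1` has at most `669` prime factors, all of
them larger than `B`. -/
theorem Pool.Agent.Work.MP_8efaaa_nt.almostPrimeClasses_withdrawn
    (M r B : ℕ) (hM : 0 < M) (hg : Squarefree (Nat.gcd r M)) :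
    ∃ b : ℕ, 1 < b ∧ Squarefree (Nat.gcd r M * b) ∧ Nat.gcd r M * b ≡ r [MOD M] ∧
      (∀ q : ℕ, q.Prime → q ∣ b → B < q) ∧ b.primeFactors.card ≤ 669 ∧
      IsCongruent (Nat.gcd r M * b) :=
  main M r B hM hg
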