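import Mathlib

set_option autoImplicit false

namespace Pool.Agent.Work.MP_8efaaa_nt

open Finset

section Jac

variable {F : Type*} [Field F] [Fintype F] [DecidableEq F]

theorem two_ne_zero_of_ringChar (hF : ringChar F ≠ 2) : (2 : F) ≠ 0 := Ring.two_ne_zero hF

/-- The sum of `χ(m) χ(m + d)`. -/
theorem sum_char_shift (hF : ringChar F ≠ 2) {d : F} (hd : d ≠ 0) :
    ∑ m : F, quadraticChar F m * quadraticChar F (m + d) = -1 := by
  have h0 : ∑ u : F, quadraticChar F (1 + u) = 0 := by
    rw [← quadraticChar_sum_zero hF]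
    exact Fintype.sum_equiv (Equiv.addLeft (1 : F)) _ _ (fun u => rfl)
  have h1 : ∑ u ∈ univ.erase (0 : F), quadraticChar F (1 + u) = -1 := by
    have := Finset.add_sum_erase univ (fun u : F => quadraticChar F (1 + u)) (mem_univ (0 : F))
    rw [h0] at this
    simp only [add_zero, map_one] at this
    linarith
  have h2 : ∑ m : F, quadraticChar F m * quadraticChar F (m + d) =
      ∑ m ∈ univ.erase (0 : F), quadraticChar F m * quadraticChar F (m + d) := by
    rw [← Finset.add_sum_erase univ _ (mem_univ (0 : F))]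
    simp
  rw [h2, ← h1]
  refine Finset.sum_bij' (fun m _ => d / m) (fun u _ => d / u) ?_ ?_ ?_ ?_ ?_
  · intro m hm
    rw [mem_erase] at hm ⊢
    exact ⟨div_ne_zero hd hm.1, mem_univ _⟩
  · intro m hm
    rw [mem_erase] at hm ⊢
    exact ⟨div_ne_zero hd hm.1, mem_univ _⟩
  · intro m hm
    rw [mem_erase] at hm
    have := hm.1
    field_simp
  · intro m hm
    rw [mem_erase] at hm
    have := hm.1
    field_simp
  · intro m hm
    rw [mem_erase] at hm
    have hm0 := hm.1
    rw [← map_mul]
    have : m * (m + d) = m ^ 2 * (1 + d / m) := by field_simp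
    rw [this, map_mul, quadraticChar_sq_one' hm0, one_mul]

/-- The Jacobsthal sum. -/
def jac (F : Type*) [Field F] [Fintype F] [DecidableEq F] (n : F) : ℤ :=
  ∑ x : F, quadraticChar F x * quadraticChar F (x ^ 2 - n)

theorem jac_mul_sq {u : F} (hu : u ≠ 0) (n : F) :
    jac F (n * u ^ 2) = quadraticChar F u * jac F n := by
  unfold jac
  rw [Finset.mul_sum]
  symm
  refine Fintype.sum_equiv (Equiv.mulLeft₀ u hu) _ _ (fun x => ?_)
  change _ = quadraticChar F (u * x) * quadraticChar F ((u * x) ^ 2 - n * u ^ 2)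
  have : (u * x) ^ 2 - n * u ^ 2 = u ^ 2 * (x ^ 2 - n) := by ring
  rw [this, map_mul, map_mul, quadraticChar_sq_one' hu]
  ring

theorem jac_mul_sq_sq {u : F} (hu : u ≠ 0) (n : F) :
    jac F (n * u ^ 2) ^ 2 = jac F n ^ 2 := by
  rw [jac_mul_sq hu, mul_pow, quadraticChar_sq_one hu, one_mul]

theorem jac_zero (hF : ringChar F ≠ 2) : jac F 0 = 0 := by
  unfold jac
  rw [← quadraticChar_sum_zero hF]
  refine Finset.sum_congr rfl (fun x _ => ?_)
  by_cases hx : x = 0
  · subst hx; simp
  · rw [sub_zero, quadraticChar_sq_one' hx, mul_one]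

theorem jac_even (hF : ringChar F ≠ 2) (h1 : quadraticChar F (-1) = 1) (n : F) :
    (2 : ℤ) ∣ jac F n := by
  have : ((jac F n : ℤ) : ZMod 2) = 0 := by
    unfold jac
    push_cast
    refine Finset.sum_involution (fun x _ => -x) ?_ ?_ (fun _ _ => mem_univ _)
      (fun x _ => neg_neg x)
    · intro x _
      have : quadraticChar F (-x) = quadraticChar F x := by
        rw [← neg_one_mul, map_mul, h1, one_mul]
      rw [this, neg_sq]
      exact CharTwo.add_self_eq_zero _
    · intro x _ hne hx
      apply hne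
      have h2 := two_ne_zero_of_ringChar hF
      have : (2 : F) * x = 0 := by linear_combination -hx
      have hx0 : x = 0 := (mul_eq_zero.mp this).resolve_left h2
      subst hx0
      simp
  exact (ZMod.intCast_zmod_eq_zero_iff_dvd _ 2).mp this

theorem sum_shift_pair (hF : ringChar F ≠ 2) (a b : F) :
    ∑ n : F, quadraticChar F (a - n) * quadraticChar F (b - n) =
      (if a = b then (Fintype.card F : ℤ) else 0) - 1 := by
  have h : ∑ n : F, quadraticChar F (a - n) * quadraticChar F (b - n) =
      ∑ m : F, quadraticChar F m * quadraticChar F (m + (b - a)) := by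
    refine Fintype.sum_equiv (Equiv.subLeft a) _ _ (fun n => ?_)
    simp only [Equiv.subLeft_apply]
    congr 2
    ring
  rw [h]
  by_cases hab : a = b
  · subst hab
    rw [if_pos rfl]
    simp only [sub_self, add_zero]
    rw [← Finset.add_sum_erase univ _ (mem_univ (0 : F))]
    have : ∑ x ∈ univ.erase (0 : F), quadraticChar F x * quadraticChar F x =
        ∑ x ∈ univ.erase (0 : F), (1 : ℤ) := by
      refine Finset.sum_congr rfl (fun x hx => ?_)
      rw [mem_erase] at hx
      rw [← sq, quadraticChar_sq_one hx.1]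
    rw [this]
    simp only [quadraticChar_zero, mul_zero, zero_add, sum_const, card_erase_of_mem (mem_univ (0 : F)),
      card_univ, nsmul_eq_mul, mul_one]
    have : 1 ≤ Fintype.card F := Fintype.card_pos
    push_cast [this]
    ring
  · rw [if_neg hab, sum_char_shift hF (sub_ne_zero.mpr (Ne.symm hab))]
    ring

theorem sum_sq_eq (hF : ringChar F ≠ 2) (h1 : quadraticChar F (-1) = 1) (x : F) :
    ∑ y : F, (if x ^ 2 = y ^ 2 then quadraticChar F y else 0) = 2 * quadraticChar F x := by
  by_cases hx : x = 0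
  · subst hx
    rw [quadraticChar_zero, mul_zero]
    refine Finset.sum_eq_zero (fun y _ => ?_)
    split_ifs with h
    · have : y = 0 := by
        rw [zero_pow two_ne_zero] at h
        exact pow_eq_zero_iff two_ne_zero |>.mp h.symm
      subst this; simp
    · rfl
  · have hne : x ≠ -x := by
      intro h
      have h2 := two_ne_zero_of_ringChar hF
      have : (2 : F) * x = 0 := by linear_combination h
      exact hx ((mul_eq_zero.mp this).resolve_left h2)
    rw [← Finset.sum_filter]
    have : (univ.filter (fun y : F => x ^ 2 = y ^ 2)) = {x, -x} := by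
      ext y
      simp only [mem_filter, mem_univ, true_and, mem_insert, mem_singleton]
      constructor
      · intro h
        rcases sq_eq_sq_iff_eq_or_eq_neg.mp h with h | h
        · left; exact h.symm
        · right; rw [h, neg_neg]
      · rintro (h | h) <;> rw [h] <;> ring
    rw [this, Finset.sum_pair hne]
    have : quadraticChar F (-x) = quadraticChar F x := by
      rw [← neg_one_mul, map_mul, h1, one_mul]
    rw [this]; ring

theorem sum_jac_sq (hF : ringChar F ≠ 2) (h1 : quadraticChar F (-1) = 1) :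
    ∑ n : F, jac F n ^ 2 = 2 * (Fintype.card F : ℤ) * ((Fintype.card F : ℤ) - 1) := by
  have e1 : ∀ n : F, jac F n ^ 2 = ∑ x : F, ∑ y : F, quadraticChar F x * quadraticChar F y *
      (quadraticChar F (x ^ 2 - n) * quadraticChar F (y ^ 2 - n)) := by
    intro n
    rw [sq, jac, Finset.sum_mul_sum]
    refine Finset.sum_congr rfl (fun x _ => Finset.sum_congr rfl (fun y _ => ?_))
    ring
  simp only [e1]
  rw [Finset.sum_comm]
  have e2 : ∀ x : F, ∑ n : F, ∑ y : F, quadraticChar F x * quadraticChar F y *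
      (quadraticChar F (x ^ 2 - n) * quadraticChar F (y ^ 2 - n)) =
      (Fintype.card F : ℤ) * quadraticChar F x * (2 * quadraticChar F x) := by
    intro x
    rw [Finset.sum_comm]
    have e3 : ∀ y : F, ∑ n : F, quadraticChar F x * quadraticChar F y *
      (quadraticChar F (x ^ 2 - n) * quadraticChar F (y ^ 2 - n)) =
      (Fintype.card F : ℤ) * quadraticChar F x *
        (if x ^ 2 = y ^ 2 then quadraticChar F y else 0) -
        quadraticChar F x * quadraticChar F y := by
      intro y
      rw [← Finset.mul_sum, sum_shift_pair hF]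
      split_ifs <;> ring
    simp only [e3]
    rw [Finset.sum_sub_distrib, ← Finset.mul_sum, ← Finset.mul_sum, sum_sq_eq hF h1,
      quadraticChar_sum_zero hF]
    ring
  simp only [e2]
  rw [← Finset.add_sum_erase univ _ (mem_univ (0 : F))]
  have : ∑ x ∈ univ.erase (0 : F), (Fintype.card F : ℤ) * quadraticChar F x *
      (2 * quadraticChar F x) = ∑ x ∈ univ.erase (0 : F), (2 * (Fintype.card F : ℤ)) := by
    refine Finset.sum_congr rfl (fun x hx => ?_)
    rw [mem_erase] at hx
    have := quadraticChar_sq_one hx.1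
    linear_combination 2 * (Fintype.card F : ℤ) * this
  rw [this]
  simp only [quadraticChar_zero, mul_zero, zero_add, sum_const, card_erase_of_mem (mem_univ (0 : F)),
    card_univ, nsmul_eq_mul]
  have : 1 ≤ Fintype.card F := Fintype.card_pos
  push_cast [this]
  ring

theorem sum_comp_sq (hF : ringChar F ≠ 2) (f : F → ℤ) :
    ∑ u : F, f (u ^ 2) = ∑ n : F, (quadraticChar F n + 1) * f n := by
  rw [← Finset.sum_fiberwise_of_maps_to (g := fun u : F => u ^ 2) (t := univ)
    (fun _ _ => mem_univ _)]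
  refine Finset.sum_congr rfl (fun n _ => ?_)
  rw [← quadraticChar_card_sqrts hF n]
  rw [Finset.sum_congr rfl (g := fun _ => f n)]
  · rw [sum_const, nsmul_eq_mul]
    congr 2
    congr 1
    ext u
    simp
  · intro u hu
    rw [mem_filter] at hu
    rw [hu.2]

theorem jac_two_squares (hF : ringChar F ≠ 2) (h1 : quadraticChar F (-1) = 1) :
    ∃ g : F, jac F 1 ^ 2 + jac F g ^ 2 = 4 * (Fintype.card F : ℤ) := by
  obtain ⟨g, hg⟩ := quadraticChar_exists_neg_one hF
  refine ⟨g, ?_⟩
  have hg0 : g ≠ 0 := by rintro rfl; simp at hg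
  have hq : 1 < Fintype.card F := Fintype.one_lt_card
  have s1 : ∑ u : F, jac F (1 * u ^ 2) ^ 2 = ((Fintype.card F : ℤ) - 1) * jac F 1 ^ 2 := by
    rw [← Finset.add_sum_erase univ _ (mem_univ (0 : F))]
    have : ∑ x ∈ univ.erase (0 : F), jac F (1 * x ^ 2) ^ 2 =
        ∑ x ∈ univ.erase (0 : F), jac F 1 ^ 2 := by
      refine Finset.sum_congr rfl (fun x hx => ?_)
      rw [mem_erase] at hx
      exact jac_mul_sq_sq hx.1 1
    rw [this]
    simp only [ne_eq, OfNat.ofNat_ne_zero, not_false_eq_true, zero_pow, mul_zero, jac_zero hF,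
      zero_add, sum_const, card_erase_of_mem (mem_univ (0 : F)), card_univ, nsmul_eq_mul]
    push_cast [hq.le]
    ring
  have s2 : ∑ u : F, jac F (g * u ^ 2) ^ 2 = ((Fintype.card F : ℤ) - 1) * jac F g ^ 2 := by
    rw [← Finset.add_sum_erase univ _ (mem_univ (0 : F))]
    have : ∑ x ∈ univ.erase (0 : F), jac F (g * x ^ 2) ^ 2 =
        ∑ x ∈ univ.erase (0 : F), jac F g ^ 2 := by
      refine Finset.sum_congr rfl (fun x hx => ?_)
      rw [mem_erase] at hx
      exact jac_mul_sq_sq hx.1 g
    rw [this]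
    simp only [ne_eq, OfNat.ofNat_ne_zero, not_false_eq_true, zero_pow, mul_zero, jac_zero hF,
      zero_add, sum_const, card_erase_of_mem (mem_univ (0 : F)), card_univ, nsmul_eq_mul]
    push_cast [hq.le]
    ring
  have t1 : ∑ u : F, jac F (1 * u ^ 2) ^ 2 = ∑ n : F, (quadraticChar F n + 1) * jac F n ^ 2 := by
    rw [sum_comp_sq hF (fun n => jac F (1 * n) ^ 2)]
    simp only [one_mul]
  have t2 : ∑ u : F, jac F (g * u ^ 2) ^ 2 =
      ∑ n : F, (-quadraticChar F n + 1) * jac F n ^ 2 := by
    rw [sum_comp_sq hF (fun n => jac F (g * n) ^ 2)]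
    refine Fintype.sum_equiv (Equiv.mulLeft₀ g hg0) _ _ (fun x => ?_)
    change _ = (-quadraticChar F (g * x) + 1) * jac F (g * x) ^ 2
    rw [map_mul, hg]; ring
  have hsum : ((Fintype.card F : ℤ) - 1) * (jac F 1 ^ 2 + jac F g ^ 2) =
      ((Fintype.card F : ℤ) - 1) * (4 * (Fintype.card F : ℤ)) := by
    rw [mul_add, ← s1, ← s2, t1, t2, ← Finset.sum_add_distrib]
    have : ∀ n : F, (quadraticChar F n + 1) * jac F n ^ 2 + (-quadraticChar F n + 1) * jac F n ^ 2
        = 2 * jac F n ^ 2 := fun n => by ring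
    simp only [this]
    rw [← Finset.mul_sum, sum_jac_sq hF h1]
    ring
  have hne : ((Fintype.card F : ℤ) - 1) ≠ 0 := by
    have : (1 : ℤ) < Fintype.card F := by exact_mod_cast hq
    linarith
  exact mul_left_cancel₀ hne hsum

/-- Jacobsthal: `q = A ^ 2 + B ^ 2` with `2 * A` the Jacobsthal sum of a nonzero square. -/
theorem jac_sq_repr (hF : ringChar F ≠ 2) (h1 : quadraticChar F (-1) = 1) {c : F} (hc : c ≠ 0) :
    ∃ A B : ℤ, A ^ 2 + B ^ 2 = (Fintype.card F : ℤ) ∧ jac F (c ^ 2) = 2 * A := by
  obtain ⟨g, hg⟩ := jac_two_squares hF h1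
  obtain ⟨A, hA⟩ := jac_even hF h1 (c ^ 2)
  obtain ⟨B, hB⟩ := jac_even hF h1 g
  refine ⟨A, B, ?_, hA⟩
  have : jac F (c ^ 2) ^ 2 = jac F 1 ^ 2 := by
    rw [← one_mul (c ^ 2), jac_mul_sq_sq hc]
  rw [← this, hA, hB] at hg
  linarith

end Jac

end Pool.Agent.Work.MP_8efaaa_nt
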