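import Mathlib
import Pool.Agent.Work.MP_8efaaa_nt.Jacobsthal

set_option autoImplicit false

namespace Pool.Agent.Work.MP_8efaaa_nt

open Finset

section
variable {F : Type*} [Field F]

/-- The curve `y ^ 2 = x ^ 3 - c ^ 2 * x`. -/
def Ec (c : F) : WeierstrassCurve.Affine F := ⟨0, 0, 0, -c ^ 2, 0⟩

theorem Ec_equation (c x y : F) : (Ec c).Equation x y ↔ y ^ 2 = x ^ 3 - c ^ 2 * x := by
  rw [WeierstrassCurve.Affine.equation_iff]
  simp only [Ec]
  constructor <;> intro h <;> linear_combination h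

theorem Ec_nonsingular (h2 : (2 : F) ≠ 0) {c : F} (hc : c ≠ 0) (x y : F) :
    (Ec c).Nonsingular x y ↔ y ^ 2 = x ^ 3 - c ^ 2 * x := by
  rw [WeierstrassCurve.Affine.nonsingular_iff, Ec_equation]
  simp only [Ec]
  constructor
  · exact fun h => h.1
  · intro h
    refine ⟨h, ?_⟩
    by_contra hcon
    push Not at hcon
    obtain ⟨h3, h4⟩ := hcon
    have hy : y = 0 := by
      have : 2 * y = 0 := by linear_combination h4
      exact (mul_eq_zero.mp this).resolve_left h2
    subst hy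
    have h5 : 3 * x ^ 2 = c ^ 2 := by linear_combination -h3
    have h6 : x * (x ^ 2 - c ^ 2) = 0 := by linear_combination -h
    rcases mul_eq_zero.mp h6 with h7 | h7
    · subst h7
      apply hc
      have : c ^ 2 = 0 := by rw [← h5]; ring
      exact pow_eq_zero_iff two_ne_zero |>.mp this
    · have h8 : 2 * c ^ 2 = 0 := by linear_combination h5 - 3 * h7
      apply hc
      exact pow_eq_zero_iff two_ne_zero |>.mp ((mul_eq_zero.mp h8).resolve_left h2)

end

section
variable {F : Type*} [Field F] [Fintype F] [DecidableEq F]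

theorem card_Ec (hF : ringChar F ≠ 2) {c : F} (hc : c ≠ 0) :
    (Nat.card (Ec c).Point : ℤ) = Fintype.card F + 1 + jac F (c ^ 2) := by
  have h2 := two_ne_zero_of_ringChar hF
  rw [Nat.card_congr (WeierstrassCurve.Affine.nonsingularPointEquiv (Ec c))]
  have e1 : Nat.card (WithZero {xy : F × F // (Ec c).Nonsingular xy.1 xy.2}) =
      Nat.card {xy : F × F // (Ec c).Nonsingular xy.1 xy.2} + 1 := Finite.card_option
  rw [e1]
  have e2 : Nat.card {xy : F × F // (Ec c).Nonsingular xy.1 xy.2} =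
      Nat.card {xy : F × F // xy.2 ^ 2 = xy.1 ^ 3 - c ^ 2 * xy.1} :=
    Nat.card_congr (Equiv.subtypeEquivRight (fun xy => Ec_nonsingular h2 hc xy.1 xy.2))
  rw [e2, Nat.card_eq_fintype_card, Fintype.card_subtype, Finset.card_filter,
    Fintype.sum_prod_type]
  have e3 : ∀ x : F, ((∑ y : F, if y ^ 2 = x ^ 3 - c ^ 2 * x then 1 else 0 : ℕ) : ℤ) =
      quadraticChar F x * quadraticChar F (x ^ 2 - c ^ 2) + 1 := by
    intro x
    rw [← map_mul, show x * (x ^ 2 - c ^ 2) = x ^ 3 - c ^ 2 * x by ring,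
      ← quadraticChar_card_sqrts hF, ← Finset.card_filter]
    congr 2
    ext u
    simp
  push_cast
  have e4 : ∀ x : F, (∑ y : F, if y ^ 2 = x ^ 3 - c ^ 2 * x then (1 : ℤ) else 0) =
      quadraticChar F x * quadraticChar F (x ^ 2 - c ^ 2) + 1 := by
    intro x
    rw [← e3 x]
    push_cast
    rfl
  simp only [e4]
  rw [Finset.sum_add_distrib, sum_const, card_univ, jac]
  simp
  ring

theorem Ec_double (h2 : (2 : F) ≠ 0) {c : F} (hc : c ≠ 0) {X Y : F}
    (h : (Ec c).Nonsingular X Y) (hY : Y ≠ 0) :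
    ∃ (Y' : F) (h' : (Ec c).Nonsingular (((X ^ 2 + c ^ 2) / (2 * Y)) ^ 2) Y'),
      WeierstrassCurve.Affine.Point.some X Y h + WeierstrassCurve.Affine.Point.some X Y h =
        WeierstrassCurve.Affine.Point.some _ Y' h' := by
  have hEq : Y ^ 2 = X ^ 3 - c ^ 2 * X := (Ec_nonsingular h2 hc X Y).mp h
  have hne : Y ≠ (Ec c).negY X Y := by
    simp only [WeierstrassCurve.Affine.negY, Ec]
    intro h0
    apply hY
    have : 2 * Y = 0 := by linear_combination h0
    exact (mul_eq_zero.mp this).resolve_left h2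
  have hadd := WeierstrassCurve.Affine.Point.add_self_of_Y_ne (h₁ := h) hne
  have hX : (Ec c).addX X X ((Ec c).slope X X Y Y) = ((X ^ 2 + c ^ 2) / (2 * Y)) ^ 2 := by
    rw [WeierstrassCurve.Affine.slope_of_Y_ne rfl hne]
    simp only [WeierstrassCurve.Affine.addX, WeierstrassCurve.Affine.negY, Ec]
    have h2Y : Y - (-Y - 0 * X - 0) = 2 * Y := by ring
    rw [h2Y]
    have h2Y0 : 2 * Y ≠ 0 := mul_ne_zero h2 hY
    field_simp
    have : Y ^ 2 = X ^ 3 - c ^ 2 * X := hEq
    linear_combination (-8 * X) * this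
  have hns := WeierstrassCurve.Affine.nonsingular_add h h (fun hxy => hne hxy.2)
  refine ⟨_, hX ▸ hns, ?_⟩
  rw [hadd]
  congr 1

/-- Points of order a power of two force a congruence on `q`. -/
theorem four_pow_dvd_sum (k : ℕ) : ∀ a b : ℤ, (4 : ℤ) ^ k ∣ a ^ 2 + b ^ 2 → (2 : ℤ) ^ k ∣ a ∧ (2 : ℤ) ^ k ∣ b := by
  induction k with
  | zero => intro a b _; simp
  | succ k ih =>
    intro a b h
    have h4 : (4 : ℤ) ∣ a ^ 2 + b ^ 2 := by
      refine Dvd.dvd.trans ?_ h
      rw [pow_succ]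
      exact Dvd.intro_left _ rfl
    have ha : Even a ∧ Even b := by
      rcases Int.even_or_odd a with ha | ha <;> rcases Int.even_or_odd b with hb | hb
      · exact ⟨ha, hb⟩
      · exfalso
        have h1 : a ^ 2 % 4 = 0 := by
          obtain ⟨r, rfl⟩ := ha.two_dvd
          ring_nf; omega
        have h2 := Int.sq_mod_four_eq_one_of_odd hb
        omega
      · exfalso
        have h1 : b ^ 2 % 4 = 0 := by
          obtain ⟨r, rfl⟩ := hb.two_dvd
          ring_nf; omega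
        have h2 := Int.sq_mod_four_eq_one_of_odd ha
        omega
      · exfalso
        have h1 := Int.sq_mod_four_eq_one_of_odd ha
        have h2 := Int.sq_mod_four_eq_one_of_odd hb
        omega
    obtain ⟨a', rfl⟩ := ha.1.two_dvd
    obtain ⟨b', rfl⟩ := ha.2.two_dvd
    have h5 : (4 : ℤ) ^ k ∣ a' ^ 2 + b' ^ 2 := by
      have : (4 : ℤ) * 4 ^ k ∣ 4 * (a' ^ 2 + b' ^ 2) := by
        rw [← pow_succ']
        convert h using 1
        ring
      exact (mul_dvd_mul_iff_left (by norm_num)).mp this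
    obtain ⟨h6, h7⟩ := ih a' b' h5
    constructor
    · rw [pow_succ']; exact mul_dvd_mul_left 2 h6
    · rw [pow_succ']; exact mul_dvd_mul_left 2 h7

theorem card_congr_of_order (hF : ringChar F ≠ 2) (h1 : quadraticChar F (-1) = 1) {c : F}
    (hc : c ≠ 0) {k : ℕ} (P : (Ec c).Point) (hP : addOrderOf P = 2 ^ (2 * k)) (hk : 1 ≤ k) :
    (2 : ℤ) ^ (k + 1) ∣ (Fintype.card F : ℤ) - 1 := by
  obtain ⟨A, B, hAB, hA⟩ := jac_sq_repr hF h1 hc
  have hdvd : ((2 ^ (2 * k) : ℕ) : ℤ) ∣ (Nat.card (Ec c).Point : ℤ) := by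
    rw [← hP]
    exact_mod_cast addOrderOf_dvd_natCard P
  rw [card_Ec hF hc, hA] at hdvd
  have h4 : (4 : ℤ) ^ k ∣ (A + 1) ^ 2 + B ^ 2 := by
    have e1 : ((2 ^ (2 * k) : ℕ) : ℤ) = 4 ^ k := by
      push_cast
      rw [pow_mul]; norm_num
    rw [e1] at hdvd
    have e2 : (A + 1) ^ 2 + B ^ 2 = (Fintype.card F : ℤ) + 1 + 2 * A := by
      rw [← hAB]; ring
    rw [e2]; exact hdvd
  obtain ⟨h5, h6⟩ := four_pow_dvd_sum k _ _ h4
  have h7 : (Fintype.card F : ℤ) - 1 = ((A + 1) ^ 2 + B ^ 2) - 2 * (A + 1) := by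
    rw [← hAB]; ring
  rw [h7]
  apply dvd_sub
  · refine Dvd.dvd.trans ?_ h4
    have e1 : (4 : ℤ) ^ k = 2 ^ (2 * k) := by rw [pow_mul]; norm_num
    rw [e1]
    exact pow_dvd_pow 2 (by omega)
  · rw [pow_succ']
    exact mul_dvd_mul_left 2 h5

end

end Pool.Agent.Work.MP_8efaaa_nt
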