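import Mathlib
import Pool.Agent.Work.MP_8efaaa_nt.Basic

/-! Multipliers `b` supported on special primes such that `a * b` is congruent, for every `a`. -/

set_option autoImplicit false

namespace Pool.Agent.Work.MP_8efaaa_nt

/-! ### Local squares -/

theorem sq_of_odd {q : ℕ} [hq : Fact q.Prime] (P Q : ℚ_[q]) (η : ℤ_[q]) (hη : ‖η‖ = 1)
    (hodd : Odd (P ^ 2 - (η : ℚ_[q]) * Q ^ 2).valuation) : IsSquare (PadicInt.toZMod η) := by
  have hη' : ‖(η : ℚ_[q])‖ = 1 := by rw [← PadicInt.norm_def]; exact hη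
  have hη0 : (η : ℚ_[q]) ≠ 0 := by
    intro h; rw [h, norm_zero] at hη'; exact zero_ne_one hη'
  have hne : P ^ 2 - (η : ℚ_[q]) * Q ^ 2 ≠ 0 := by
    intro h; rw [h, Padic.valuation_zero] at hodd; exact absurd hodd (by decide)
  have hq1 : (1 : ℝ) < q := by exact_mod_cast hq.out.one_lt
  by_cases hQ : Q = 0
  · subst hQ
    have e : P ^ 2 - (η : ℚ_[q]) * 0 ^ 2 = P ^ 2 := by ring
    rw [e, Padic.valuation_pow] at hodd
    exact absurd hodd (by rw [Int.not_odd_iff_even]; exact ⟨P.valuation, by push_cast; ring⟩)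
  obtain ⟨z, hz⟩ : ∃ z : ℚ_[q], P = z * Q := ⟨P / Q, by field_simp⟩
  have e1 : P ^ 2 - (η : ℚ_[q]) * Q ^ 2 = (z ^ 2 - η) * Q ^ 2 := by rw [hz]; ring
  have hne2 : z ^ 2 - (η : ℚ_[q]) ≠ 0 := by
    intro h; rw [e1, h, zero_mul] at hne; exact hne rfl
  rw [e1, Padic.valuation_mul hne2 (pow_ne_zero 2 hQ), Padic.valuation_pow] at hodd
  have hodd2 : Odd (z ^ 2 - (η : ℚ_[q])).valuation := by
    rw [Int.odd_iff] at hodd ⊢; push_cast at hodd; omega
  have hnorm := Padic.norm_eq_zpow_neg_valuation hne2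
  rcases lt_trichotomy ‖z‖ 1 with h | h | h
  · exfalso
    have h1 : ‖z ^ 2‖ < 1 := by
      rw [norm_pow]; exact pow_lt_one₀ (norm_nonneg _) h (by norm_num)
    have h2 : ‖z ^ 2 - (η : ℚ_[q])‖ = 1 := by
      rw [sub_eq_add_neg, Padic.add_eq_max_of_ne (by rw [norm_neg, hη']; exact h1.ne),
        norm_neg, hη', max_eq_right h1.le]
    rw [h2] at hnorm
    have h3 : (z ^ 2 - (η : ℚ_[q])).valuation = 0 := by
      have : (q : ℝ) ^ (0 : ℤ) = (q : ℝ) ^ (-(z ^ 2 - (η : ℚ_[q])).valuation) := by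
        rw [zpow_zero]; exact hnorm
      have := zpow_right_injective₀ (by linarith) hq1.ne' this
      omega
    rw [h3] at hodd2
    exact absurd hodd2 (by decide)
  · have hzint : ‖z‖ ≤ 1 := h.le
    obtain ⟨z', hz'⟩ : ∃ z' : ℤ_[q], (z' : ℚ_[q]) = z := ⟨⟨z, hzint⟩, rfl⟩
    have h1 : ‖(z' ^ 2 - η : ℤ_[q])‖ < 1 := by
      rw [PadicInt.norm_def]
      push_cast
      rw [hz', hnorm]
      have hle : ‖z ^ 2 - (η : ℚ_[q])‖ ≤ 1 := by
        rw [← hz']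
        have := PadicInt.norm_le_one (z' ^ 2 - η : ℤ_[q])
        rw [PadicInt.norm_def] at this
        push_cast at this
        exact this
      rw [hnorm] at hle
      rcases lt_or_eq_of_le hle with h2 | h2
      · exact h2
      · exfalso
        have h3 : (z ^ 2 - (η : ℚ_[q])).valuation = 0 := by
          have : (q : ℝ) ^ (-(z ^ 2 - (η : ℚ_[q])).valuation) = (q : ℝ) ^ (0 : ℤ) := by
            rw [zpow_zero]; exact h2
          have := zpow_right_injective₀ (by linarith) hq1.ne' this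
          omega
        rw [h3] at hodd2
        exact absurd hodd2 (by decide)
    have h2 : PadicInt.toZMod (z' ^ 2 - η : ℤ_[q]) = 0 := by
      rw [← RingHom.mem_ker, PadicInt.ker_toZMod, IsLocalRing.mem_maximalIdeal,
        PadicInt.mem_nonunits]
      exact h1
    rw [map_sub, map_pow, sub_eq_zero] at h2
    exact ⟨PadicInt.toZMod z', by rw [← h2]; ring⟩
  · exfalso
    have h1 : 1 < ‖z ^ 2‖ := by
      rw [norm_pow]; exact one_lt_pow₀ h (by norm_num)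
    have h2 : ‖z ^ 2 - (η : ℚ_[q])‖ = ‖z ^ 2‖ := by
      rw [sub_eq_add_neg, Padic.add_eq_max_of_ne (by rw [norm_neg, hη']; exact h1.ne'),
        norm_neg, hη', max_eq_left h1.le]
    have hz0 : z ≠ 0 := by rintro rfl; rw [norm_zero] at h; linarith
    rw [h2, Padic.norm_eq_zpow_neg_valuation (pow_ne_zero 2 hz0)] at hnorm
    have := zpow_right_injective₀ (by linarith) hq1.ne' hnorm
    rw [Padic.valuation_pow] at this
    rw [Int.odd_iff] at hodd2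
    push_cast at this
    omega

theorem exists_sqrt {q : ℕ} [hq : Fact q.Prime] (hq2 : q ≠ 2) (η : ℤ)
    (h : IsSquare ((η : ℤ) : ZMod q)) (hη : ¬ (q : ℤ) ∣ η) : ∃ r : ℤ_[q], r ^ 2 = (η : ℤ_[q]) := by
  obtain ⟨s, hs⟩ := h
  obtain ⟨a, ha⟩ : ∃ a : ℤ, ((a : ℤ) : ZMod q) = s := ZMod.intCast_surjective s
  have h1 : (q : ℤ) ∣ a ^ 2 - η := by
    rw [← ZMod.intCast_zmod_eq_zero_iff_dvd]
    push_cast
    rw [ha, hs]; ring
  have h2 : ¬ (q : ℤ) ∣ 2 * a := by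
    intro h3
    rcases (Nat.prime_iff_prime_int.mp hq.out).dvd_or_dvd h3 with h4 | h4
    · have : q ∣ 2 := by exact_mod_cast h4
      exact hq2 ((Nat.prime_dvd_prime_iff_eq hq.out Nat.prime_two).mp this)
    · apply hη
      have : (q : ℤ) ∣ a ^ 2 := dvd_pow h4 (by norm_num)
      have := dvd_sub this h1
      simpa using this
  obtain ⟨F, hF⟩ : ∃ F : Polynomial ℤ, F = Polynomial.X ^ 2 - Polynomial.C η := ⟨_, rfl⟩
  have e1 : ∀ z : ℤ_[q], Polynomial.aeval z F = z ^ 2 - (η : ℤ_[q]) := by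
    intro z; rw [hF]; simp
  have e2 : ∀ z : ℤ_[q], Polynomial.aeval z (Polynomial.derivative F) = 2 * z := by
    intro z; rw [hF]; simp
    left; exact map_ofNat (Polynomial.aeval z) 2
  obtain ⟨z, hz, _⟩ := hensels_lemma (p := q) (F := F) (a := (a : ℤ_[q])) (by
    rw [e1, e2]
    have h3 : ‖((a ^ 2 - η : ℤ) : ℤ_[q])‖ < 1 := (PadicInt.norm_int_lt_one_iff_dvd _).mpr h1
    have h4 : ‖((2 * a : ℤ) : ℤ_[q])‖ = 1 := by
      refine le_antisymm (PadicInt.norm_le_one _) (not_lt.mp ?_)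
      rw [PadicInt.norm_int_lt_one_iff_dvd]; exact h2
    push_cast at h3 h4
    rw [h4, one_pow]
    exact h3)
  rw [e1] at hz
  exact ⟨z, by linear_combination hz⟩

theorem odd_factor {q : ℕ} [hq : Fact q.Prime] (x y : ℚ_[q]) (h : Odd (x * y).valuation) :
    Odd x.valuation ∨ Odd y.valuation := by
  have hx : x ≠ 0 := by
    rintro rfl; rw [zero_mul, Padic.valuation_zero] at h; exact absurd h (by decide)
  have hy : y ≠ 0 := by
    rintro rfl; rw [mul_zero, Padic.valuation_zero] at h; exact absurd h (by decide)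
  rw [Padic.valuation_mul hx hy, Int.odd_iff] at h
  rw [Int.odd_iff, Int.odd_iff]
  omega

theorem odd_val {q : ℕ} [hq : Fact q.Prime] {b e : ℕ} (hb : Squarefree b) (hqb : q ∣ b)
    (he : 0 < e) : Odd (((b * e ^ 2 : ℕ) : ℚ_[q])).valuation := by
  have hb0 : b ≠ 0 := hb.ne_zero
  rw [Padic.valuation_natCast, padicValNat.mul hb0 (pow_ne_zero 2 he.ne'), padicValNat.pow]
  have h1 : padicValNat q b = 1 := by
    have h2 := hb.natFactorization_le_one q
    rw [Nat.factorization_def b hq.out] at h2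
    have h3 : 1 ≤ padicValNat q b := one_le_padicValNat_of_dvd hb0 hqb
    omega
  rw [h1]
  rw [Int.odd_iff]
  push_cast
  omega

theorem norm_intCast_eq_one {q : ℕ} [hq : Fact q.Prime] {η : ℤ} (hη : ¬ (q : ℤ) ∣ η) :
    ‖(η : ℤ_[q])‖ = 1 := by
  refine le_antisymm (PadicInt.norm_le_one _) (not_lt.mp ?_)
  rw [PadicInt.norm_int_lt_one_iff_dvd]
  exact hη

theorem sq_int {q : ℕ} [hq : Fact q.Prime] {b e : ℕ} (hb : Squarefree b) (hqb : q ∣ b)
    (he : 0 < e) (P Q η : ℤ) (hη : ¬ (q : ℤ) ∣ η) (h : (b : ℤ) * (e : ℤ) ^ 2 = P ^ 2 - η * Q ^ 2) :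
    IsSquare ((η : ℤ) : ZMod q) := by
  have h1 := odd_val hb hqb he
  have h2 : (((b * e ^ 2 : ℕ) : ℚ_[q])) = (P : ℚ_[q]) ^ 2 - ((η : ℤ_[q]) : ℚ_[q]) * (Q : ℚ_[q]) ^ 2 := by
    have h3 : (((b : ℤ) * (e : ℤ) ^ 2 : ℤ) : ℚ_[q]) = ((P ^ 2 - η * Q ^ 2 : ℤ) : ℚ_[q]) := by
      rw [h]
    push_cast at h3 ⊢
    exact h3
  rw [h2] at h1
  have h4 := sq_of_odd (P : ℚ_[q]) (Q : ℚ_[q]) (η : ℤ_[q]) (norm_intCast_eq_one hη) h1
  rwa [map_intCast] at h4

theorem sq_fact {q : ℕ} [hq : Fact q.Prime] {b e : ℕ} (hb : Squarefree b) (hqb : q ∣ b)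
    (he : 0 < e) (P₁ Q₁ η₁ P₂ Q₂ η₂ : ℤ_[q]) (h₁ : ‖η₁‖ = 1) (h₂ : ‖η₂‖ = 1)
    (h : ((b * e ^ 2 : ℕ) : ℤ_[q]) = (P₁ ^ 2 - η₁ * Q₁ ^ 2) * (P₂ ^ 2 - η₂ * Q₂ ^ 2)) :
    IsSquare (PadicInt.toZMod η₁) ∨ IsSquare (PadicInt.toZMod η₂) := by
  have h1 := odd_val hb hqb he
  have h2 : (((b * e ^ 2 : ℕ) : ℚ_[q])) = ((P₁ : ℚ_[q]) ^ 2 - (η₁ : ℚ_[q]) * (Q₁ : ℚ_[q]) ^ 2) *
      ((P₂ : ℚ_[q]) ^ 2 - (η₂ : ℚ_[q]) * (Q₂ : ℚ_[q]) ^ 2) := by
    have h3 : (((b * e ^ 2 : ℕ) : ℤ_[q]) : ℚ_[q]) =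
        (((P₁ ^ 2 - η₁ * Q₁ ^ 2) * (P₂ ^ 2 - η₂ * Q₂ ^ 2) : ℤ_[q]) : ℚ_[q]) := by rw [h]
    push_cast at h3 ⊢
    exact h3
  rw [h2] at h1
  rcases odd_factor _ _ h1 with h3 | h3
  · exact Or.inl (sq_of_odd _ _ _ h₁ h3)
  · exact Or.inr (sq_of_odd _ _ _ h₂ h3)

/-! ### Roots of unity -/

theorem mod_four {q : ℕ} [hq : Fact q.Prime] (hq2 : q ≠ 2) (h : IsSquare (-1 : ZMod q)) :
    q % 4 = 1 := by
  have h1 := ZMod.exists_sq_eq_neg_one_iff.mp h
  have h2 : q % 2 = 1 := hq.out.mod_two_eq_one_iff_ne_two.mpr hq2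
  omega

theorem dvd_of_pow {q : ℕ} [hq : Fact q.Prime] (z : ZMod q) (hz : z ≠ 0) {p k : ℕ}
    (hp : p.Prime) (h1 : z ^ p ^ k ≠ 1) (h2 : z ^ p ^ (k + 1) = 1) : p ^ (k + 1) ∣ q - 1 := by
  have : Fact p.Prime := ⟨hp⟩
  have h3 : orderOf z = p ^ (k + 1) := orderOf_eq_prime_pow h1 h2
  rw [← h3]
  exact ZMod.orderOf_dvd_card_sub_one hz

theorem two_ne {q : ℕ} [hq : Fact q.Prime] (hq2 : q ≠ 2) : (2 : ZMod q) ≠ 0 := by
  intro h
  have : ((2 : ℕ) : ZMod q) = 0 := by exact_mod_cast h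
  rw [ZMod.natCast_eq_zero_iff] at this
  exact hq2 ((Nat.prime_dvd_prime_iff_eq hq.out Nat.prime_two).mp this)

theorem mod_sixteen {q : ℕ} [hq : Fact q.Prime] (hq2 : q ≠ 2) (h1 : IsSquare (-1 : ZMod q))
    (R : ZMod q) (hR : R ^ 2 = 2) (h2 : IsSquare (-(2 + R))) : q % 16 = 1 := by
  obtain ⟨i, hi⟩ := h1
  obtain ⟨s', hs'⟩ := h2
  have h20 := two_ne hq2
  obtain ⟨s, hs⟩ : ∃ s : ZMod q, s ^ 2 = 2 + R := by
    refine ⟨i * s', ?_⟩
    calc (i * s') ^ 2 = (i * i) * (s' * s') := by ring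
      _ = 2 + R := by rw [← hi, ← hs']; ring
  have hs0 : s ≠ 0 := by
    rintro rfl
    have h3 : (2 : ZMod q) + R = 0 := by rw [← hs]; ring
    have h4 : (2 : ZMod q) = 4 - R ^ 2 := by rw [hR]; norm_num
    have h5 : (4 : ZMod q) - R ^ 2 = (2 + R) * (2 - R) := by ring
    rw [h5, h3, zero_mul] at h4
    exact h20 h4
  obtain ⟨z, hz⟩ : ∃ z : ZMod q, z ^ 2 = s * z - 1 := by
    refine ⟨(s + i * (R / s)) / 2, ?_⟩
    have hi2 : i ^ 2 = -1 := by rw [sq]; exact hi.symm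
    have h3 : (R / s) ^ 2 = 2 - R := by
      rw [div_pow, hR, hs, div_eq_iff (by rw [← hs]; exact pow_ne_zero 2 hs0)]
      linear_combination hR
    have h4 : (i * (R / s)) ^ 2 = s ^ 2 - 4 := by
      rw [mul_pow, hi2, h3, hs]; ring
    have h40 : (4 : ZMod q) ≠ 0 := by
      rw [show (4 : ZMod q) = 2 ^ 2 by norm_num]; exact pow_ne_zero 2 h20
    generalize i * (R / s) = w at h4 ⊢
    have h5 : (s + w) / 2 * 2 = s + w := div_mul_cancel₀ _ h20
    generalize (s + w) / 2 = z at h5 ⊢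
    apply mul_left_cancel₀ h40
    linear_combination (z * 2 + (s + w) - 2 * s) * h5 + h4
  have hz4 : z ^ 4 = s * R * z - (1 + R) := by
    calc z ^ 4 = (z ^ 2) ^ 2 := by ring
      _ = (s * z - 1) ^ 2 := by rw [hz]
      _ = s ^ 2 * z ^ 2 - 2 * s * z + 1 := by ring
      _ = (2 + R) * (s * z - 1) - 2 * s * z + 1 := by rw [hs, hz]
      _ = s * R * z - (1 + R) := by ring
  have hz8 : z ^ 8 = -1 := by
    calc z ^ 8 = (z ^ 4) ^ 2 := by ring
      _ = (s * R * z - (1 + R)) ^ 2 := by rw [hz4]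
      _ = s ^ 2 * R ^ 2 * z ^ 2 - 2 * s * R * (1 + R) * z + (1 + 2 * R + R ^ 2) := by ring
      _ = (2 + R) * 2 * (s * z - 1) - 2 * s * R * (1 + R) * z + (1 + 2 * R + 2) := by
          rw [hs, hR, hz]
      _ = -1 + 2 * s * z * (2 - R ^ 2) := by ring
      _ = -1 := by rw [hR]; ring
  have hz0 : z ≠ 0 := by
    rintro rfl
    rw [zero_pow (by norm_num)] at hz8
    have : (1 : ZMod q) = 0 := by linear_combination hz8
    exact one_ne_zero this
  have h6 : 2 ^ (3 + 1) ∣ q - 1 := by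
    apply dvd_of_pow z hz0 Nat.prime_two
    · rw [show (2 : ℕ) ^ 3 = 8 by norm_num, hz8]
      intro h
      apply h20
      linear_combination (-1 : ZMod q) * h
    · rw [show (2 : ℕ) ^ (3 + 1) = 8 * 2 by norm_num, pow_mul, hz8]; ring
  have := hq.out.one_lt
  norm_num at h6
  omega

theorem mod_eight {q : ℕ} [hq : Fact q.Prime] (hq2 : q ≠ 2) (h1 : IsSquare (-1 : ZMod q))
    (R : ZMod q) (hR : R ^ 2 = 2) : q % 8 = 1 := by
  obtain ⟨i, hi⟩ := h1
  have h20 := two_ne hq2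
  have hi2 : i ^ 2 = -1 := by rw [sq]; exact hi.symm
  have hz4 : ((1 + i) / R) ^ 4 = -1 := by
    have h3 : ((1 + i) / R) ^ 2 = i := by
      rw [div_pow, hR, div_eq_iff h20]
      linear_combination hi2
    calc ((1 + i) / R) ^ 4 = (((1 + i) / R) ^ 2) ^ 2 := by ring
      _ = -1 := by rw [h3, hi2]
  have hz0 : (1 + i) / R ≠ 0 := by
    intro h
    rw [h, zero_pow (by norm_num)] at hz4
    have : (1 : ZMod q) = 0 := by linear_combination hz4
    exact one_ne_zero this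
  have h6 : 2 ^ (2 + 1) ∣ q - 1 := by
    apply dvd_of_pow _ hz0 Nat.prime_two
    · rw [show (2 : ℕ) ^ 2 = 4 by norm_num, hz4]
      intro h
      apply h20
      linear_combination (-1 : ZMod q) * h
    · rw [show (2 : ℕ) ^ (2 + 1) = 4 * 2 by norm_num, pow_mul, hz4]; ring
  have := hq.out.one_lt
  norm_num at h6
  omega

theorem mod_three {q : ℕ} [hq : Fact q.Prime] (hq2 : q ≠ 2) (hq3 : q ≠ 3)
    (h1 : IsSquare (-3 : ZMod q)) : q % 3 = 1 := by
  obtain ⟨s, hs⟩ := h1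
  have h20 := two_ne hq2
  have hs2 : s ^ 2 = -3 := by rw [sq]; exact hs.symm
  have hz : ((-1 + s) / 2) ^ 3 = 1 := by
    have h3 : ((-1 + s) / 2) ^ 3 = (-1 + 3 * s - 3 * s ^ 2 + s ^ 2 * s) / 8 := by
      have : (8 : ZMod q) = 2 ^ 3 := by norm_num
      rw [this, div_pow]
      congr 1
      ring
    have h80 : (8 : ZMod q) ≠ 0 := by
      rw [show (8 : ZMod q) = 2 ^ 3 by norm_num]; exact pow_ne_zero 3 h20
    rw [h3, hs2, div_eq_one_iff_eq h80]
    ring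
  have hz0 : (-1 + s) / 2 ≠ 0 := by
    intro h
    rw [h, zero_pow (by norm_num)] at hz
    exact zero_ne_one hz
  have h6 : 3 ^ (0 + 1) ∣ q - 1 := by
    apply dvd_of_pow _ hz0 Nat.prime_three
    · rw [pow_zero, pow_one]
      intro h
      rw [div_eq_one_iff_eq h20] at h
      have h4 : s = 3 := by linear_combination h
      rw [h4] at hs2
      have h5 : ((12 : ℕ) : ZMod q) = 0 := by push_cast; linear_combination hs2
      rw [ZMod.natCast_eq_zero_iff] at h5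
      have h7 : q ∣ 2 ^ 2 * 3 := by norm_num; exact h5
      rcases (Nat.Prime.dvd_mul hq.out).mp h7 with h8 | h8
      · exact hq2 ((Nat.prime_dvd_prime_iff_eq hq.out Nat.prime_two).mp
          (hq.out.dvd_of_dvd_pow h8))
      · exact hq3 ((Nat.prime_dvd_prime_iff_eq hq.out Nat.prime_three).mp h8)
    · rw [show (3 : ℕ) ^ (0 + 1) = 3 by norm_num, hz]
  have := hq.out.one_lt
  norm_num at h6
  omega

theorem mod_five {q : ℕ} [hq : Fact q.Prime] (hq2 : q ≠ 2) (hq5 : q ≠ 5)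
    (h1 : IsSquare (-1 : ZMod q)) (R : ZMod q) (hR : R ^ 2 = 5) (h2 : IsSquare (-(5 + 2 * R))) :
    q % 5 = 1 := by
  obtain ⟨t, ht⟩ := h2
  have h20 := two_ne hq2
  have h50 : (5 : ZMod q) ≠ 0 := by
    intro h
    have : ((5 : ℕ) : ZMod q) = 0 := by exact_mod_cast h
    rw [ZMod.natCast_eq_zero_iff] at this
    exact hq5 ((Nat.prime_dvd_prime_iff_eq hq.out Nat.prime_five).mp this)
  have ht2 : t ^ 2 = -(5 + 2 * R) := by rw [sq]; exact ht.symm
  -- `u = t / φ` with `φ = (1 + R) / 2`, `u ^ 2 = - (5 + R) / 2`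
  have hφ : (1 + R) ≠ 0 := by
    intro h
    have h3 : R = -1 := by linear_combination h
    rw [h3] at hR
    have h4 : (2 : ZMod q) ^ 2 = 0 := by linear_combination (-1 : ZMod q) * hR
    exact h20 (pow_eq_zero_iff (by norm_num) |>.mp h4)
  obtain ⟨u, hu⟩ : ∃ u : ZMod q, 2 * u ^ 2 = -(5 + R) := by
    refine ⟨2 * t / (1 + R), ?_⟩
    rw [div_pow, mul_pow, ht2]
    have h3 : (1 + R) ^ 2 ≠ 0 := pow_ne_zero 2 hφ
    rw [mul_div_assoc', div_eq_iff h3]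
    linear_combination (R + 7 : ZMod q) * hR
  obtain ⟨z, hz⟩ : ∃ z : ZMod q, 2 * z ^ 2 = (R - 1) * z - 2 := by
    refine ⟨((R - 1) / 2 + u) / 2, ?_⟩
    have h3 : 2 * (((R - 1) / 2 + u) / 2) ^ 2 - ((R - 1) * (((R - 1) / 2 + u) / 2) - 2) =
        (8 * u ^ 2 - 2 * (R - 1) ^ 2 + 32) / 16 := by
      have h160 : (16 : ZMod q) ≠ 0 := by
        rw [show (16 : ZMod q) = 2 ^ 4 by norm_num]; exact pow_ne_zero 4 h20
      field_simp
      ring
    have h4 : 8 * u ^ 2 - 2 * (R - 1) ^ 2 + 32 = 0 := by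
      linear_combination (4 : ZMod q) * hu - 2 * hR
    rw [h4, zero_div] at h3
    linear_combination h3
  have hz0 : z ≠ 0 := by
    rintro rfl
    have : (2 : ZMod q) = 0 := by linear_combination hz
    exact h20 this
  have hz5' : 16 * (z ^ 5 - 1) = 0 := by
    have h3 : z ^ 4 + z ^ 3 + z ^ 2 + z + 1 = 0 := by
      have h4 : 4 * (z ^ 4 + z ^ 3 + z ^ 2 + z + 1) = 0 := by
        have h5 : 4 * (z ^ 4 + z ^ 3 + z ^ 2 + z + 1) =
            (2 * z ^ 2 - ((R - 1) * z - 2)) * (2 * z ^ 2 + (R + 1) * z + 2) +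
            (R ^ 2 - 5) * z ^ 2 := by ring
        rw [h5, hz, hR]; ring
      have h40 : (4 : ZMod q) ≠ 0 := by
        rw [show (4 : ZMod q) = 2 ^ 2 by norm_num]; exact pow_ne_zero 2 h20
      exact (mul_eq_zero.mp h4).resolve_left h40
    linear_combination (16 : ZMod q) * (z - 1) * h3
  have hz5 : z ^ 5 = 1 := by
    have h160 : (16 : ZMod q) ≠ 0 := by
      rw [show (16 : ZMod q) = 2 ^ 4 by norm_num]; exact pow_ne_zero 4 h20
    exact sub_eq_zero.mp ((mul_eq_zero.mp hz5').resolve_left h160)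
  have h6 : 5 ^ (0 + 1) ∣ q - 1 := by
    apply dvd_of_pow z hz0 Nat.prime_five
    · rw [pow_zero, pow_one]
      intro h
      rw [h] at hz
      have h3 : R = 5 := by linear_combination (-1 : ZMod q) * hz
      rw [h3] at hR
      have h4 : (5 : ZMod q) * 2 ^ 2 = 0 := by linear_combination hR
      rcases mul_eq_zero.mp h4 with h5 | h5
      · exact h50 h5
      · exact h20 (pow_eq_zero_iff (by norm_num) |>.mp h5)
    · rw [show (5 : ℕ) ^ (0 + 1) = 5 by norm_num, hz5]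
  have := hq.out.one_lt
  norm_num at h6
  omega

end Pool.Agent.Work.MP_8efaaa_nt
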