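import Mathlib
import Pool.Agent.Work.MP_8efaaa_nt.Basic

set_option autoImplicit false

namespace Pool.Agent.Work.MP_8efaaa_nt

/-- The quotient `(a ^ (2 l) + b ^ (2 l)) / (a ^ 2 + b ^ 2)` (for odd `l`). -/
def V {R : Type*} [CommRing R] (a b : R) (l : ℕ) : R :=
  ∑ i ∈ Finset.range l, (a ^ 2) ^ i * (-(b ^ 2)) ^ (l - 1 - i)

theorem V_mul {R : Type*} [CommRing R] (a b : R) {l : ℕ} (hl : Odd l) :
    V a b l * (a ^ 2 + b ^ 2) = a ^ (2 * l) + b ^ (2 * l) := by
  have h := (Commute.all (a ^ 2) (-(b ^ 2))).geom_sum₂_mul l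
  rw [sub_neg_eq_add, hl.neg_pow] at h
  rw [V, h, pow_mul, pow_mul]; ring

theorem V_of_sq_zero {R : Type*} [CommRing R] {a b : R} {l : ℕ} (hl : 0 < l) (hb : b ^ 2 = 0) :
    V a b l = (a ^ 2) ^ (l - 1) := by
  rw [V, hb, neg_zero, Finset.sum_eq_single (l - 1)]
  · simp
  · intro i hi hne
    rw [Finset.mem_range] at hi
    rw [zero_pow (by omega), mul_zero]
  · intro hn
    exact absurd (Finset.mem_range.mpr (by omega)) hn

theorem V_of_sq_neg {R : Type*} [CommRing R] {a b : R} {l : ℕ} (hb : a ^ 2 = -(b ^ 2)) :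
    V a b l = l * (a ^ 2) ^ (l - 1) := by
  rw [V, ← hb, Finset.sum_congr rfl (g := fun _ => (a ^ 2) ^ (l - 1))]
  · simp
  · intro i hi
    rw [Finset.mem_range] at hi
    rw [← pow_add]; congr 1; omega

theorem V_cast {R : Type*} [CommRing R] (a b : ℤ) (l : ℕ) :
    ((V a b l : ℤ) : R) = V (a : R) (b : R) l := by
  simp [V]

theorem V_pos {a b : ℤ} {l : ℕ} (hl : Odd l) (ha : a ≠ 0) : 0 < V a b l := by
  have h := V_mul a b hl
  have h1 : 0 < a ^ 2 + b ^ 2 := by positivity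
  have h2 : 0 < a ^ (2 * l) + b ^ (2 * l) := by
    rw [pow_mul, pow_mul]; positivity
  rw [← h] at h2
  exact pos_of_mul_pos_left h2 h1.le

theorem sq_odd_zmod8' {y : ℤ} (hy : Odd y) (n : ℕ) : (((y : ℤ) : ZMod 8) ^ 2) ^ n = 1 := by
  rw [sq_odd_zmod8 hy, one_pow]

/-- Squarefree part with its congruence facts. -/
theorem exists_sqfree_part {v : ℤ} (hv : 0 < v) :
    ∃ b g : ℕ, 0 < g ∧ Squarefree b ∧ (v : ℤ) = (g : ℤ) ^ 2 * b := by
  obtain ⟨n, rfl⟩ := Int.eq_ofNat_of_zero_le hv.le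
  obtain ⟨b, g, hb, hsq⟩ := Nat.sq_mul_squarefree n
  refine ⟨b, g, ?_, hsq, by exact_mod_cast hb.symm⟩
  rcases Nat.eq_zero_or_pos g with h0 | h0
  · subst h0
    simp at hb
    subst hb
    simp at hv
  · exact h0

namespace Prim

variable {c : ℕ} {x y z t : ℤ}

theorem D_sq (c : ℕ) (x y : ℤ) :
    (x ^ 4 - (c : ℤ) ^ 2 * y ^ 4) ^ 2 + (2 * c * x ^ 2 * y ^ 2) ^ 2 =
      (x ^ 4 + (c : ℤ) ^ 2 * y ^ 4) ^ 2 := by ring

/-- Main step: everything for a suitable prime `l`. -/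
theorem step (h : Prim c x y z t) (hc : Squarefree c) {l : ℕ} (hl : l.Prime) (hodd : Odd l)
    (hlD : ¬ (l : ℤ) ∣ x ^ 4 + (c : ℤ) ^ 2 * y ^ 4) :
    ∃ b g : ℕ, 0 < g ∧ Squarefree b ∧
      V (x ^ 4 - (c : ℤ) ^ 2 * y ^ 4) (2 * c * x ^ 2 * y ^ 2) l = (g : ℤ) ^ 2 * b ∧
      b % 8 = 1 ∧ Nat.Coprime b c ∧
      (∀ q : ℕ, q.Prime → q ∣ b → q % (4 * l) = 1 ∧ IsSquare ((c : ℕ) : ZMod q)) ∧
      IsCongruent (c * b) := by
  set A := x ^ 4 - (c : ℤ) ^ 2 * y ^ 4 with hA
  set B := 2 * (c : ℤ) * x ^ 2 * y ^ 2 with hB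
  have hAzt : A = (z * t) ^ 2 := h.A_eq
  have hAodd : Odd A := by
    rw [hAzt]; exact ((h.odd_z hc).mul (h.odd_t hc)).pow
  have hA0 : A ≠ 0 := by
    rintro h0; rw [h0] at hAodd; exact absurd hAodd (by decide)
  have hcop : IsCoprime A B := h.coprime_AB hc
  have hVpos : 0 < V A B l := V_pos hodd hA0
  obtain ⟨b, g, hg, hb, hV⟩ := exists_sqfree_part hVpos
  have hc0 : 0 < c := Nat.pos_of_ne_zero hc.ne_zero
  have hb0 : 0 < b := Nat.pos_of_ne_zero hb.ne_zero
  have hlpos : 0 < l := hl.pos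
  -- B is divisible by 8
  have hB8 : ((B : ℤ) : ZMod 8) ^ 2 = 0 := by
    obtain ⟨y', hy'⟩ := (h.even_y hc).two_dvd
    have : B = 8 * (c * x ^ 2 * y' ^ 2) := by rw [hB, hy']; ring
    rw [this]
    push_cast
    have h8 : (8 : ZMod 8) = 0 := by decide
    rw [h8]; ring
  have hV8 : ((V A B l : ℤ) : ZMod 8) = 1 := by
    rw [V_cast, V_of_sq_zero hlpos hB8, sq_odd_zmod8' hAodd]
  refine ⟨b, g, hg, hb, hV, ?_, ?_, ?_, ?_⟩
  · -- b % 8 = 1
    have hVodd : Odd (V A B l) := by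
      have h1 : ((V A B l : ℤ) : ZMod 8) = ((1 : ℤ) : ZMod 8) := by rw [hV8]; simp
      rw [ZMod.intCast_eq_intCast_iff] at h1
      have h2 : V A B l % 8 = 1 := h1
      rw [Int.odd_iff]; omega
    have hgodd : Odd ((g : ℕ) : ℤ) := by
      have : Odd (((g : ℕ) : ℤ) ^ 2 * b) := by rw [← hV]; exact hVodd
      have := (Int.odd_mul.mp this).1
      exact (Int.odd_pow.mp this).resolve_right (by norm_num)
    have h2 : ((b : ℕ) : ZMod 8) = 1 := by
      have h3 : (((g : ℤ) ^ 2 * b : ℤ) : ZMod 8) = 1 := by rw [← hV]; exact hV8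
      push_cast at h3
      have h4 := sq_odd_zmod8 hgodd
      push_cast at h4
      rw [h4, one_mul] at h3
      exact h3
    have h5 : ((b : ℕ) : ZMod 8) = ((1 : ℕ) : ZMod 8) := by rw [h2]; simp
    rw [ZMod.natCast_eq_natCast_iff'] at h5
    omega
  · -- coprime to c
    rw [Nat.coprime_iff_gcd_eq_one]
    by_contra hne
    obtain ⟨r, hr, hrd⟩ := Nat.exists_prime_and_dvd hne
    have hrb : r ∣ b := hrd.trans (Nat.gcd_dvd_left _ _)
    have hrc : r ∣ c := hrd.trans (Nat.gcd_dvd_right _ _)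
    have : Fact r.Prime := ⟨hr⟩
    have hrB : ((B : ℤ) : ZMod r) ^ 2 = 0 := by
      have : ((c : ℕ) : ZMod r) = 0 := (ZMod.natCast_eq_zero_iff _ _).mpr hrc
      rw [hB]; push_cast; rw [this]; ring
    have h1 : ((V A B l : ℤ) : ZMod r) = 0 := by
      rw [hV]; push_cast
      have : ((b : ℕ) : ZMod r) = 0 := (ZMod.natCast_eq_zero_iff _ _).mpr hrb
      rw [this, mul_zero]
    rw [V_cast, V_of_sq_zero hlpos hrB] at h1
    have h2 : ((A : ℤ) : ZMod r) = 0 := by
      have h3 : l - 1 ≠ 0 := by have := hl.two_le; omega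
      exact pow_eq_zero_iff (n := 2) (by norm_num) |>.mp ((pow_eq_zero_iff h3).mp h1)
    have hrA : (r : ℤ) ∣ A := (ZMod.intCast_zmod_eq_zero_iff_dvd _ _).mp h2
    have hrB' : (r : ℤ) ∣ B := by
      apply (ZMod.intCast_zmod_eq_zero_iff_dvd _ _).mp
      exact pow_eq_zero_iff (n := 2) (by norm_num) |>.mp hrB
    exact (Nat.prime_iff_prime_int.mp hr).not_isUnit (hcop.isUnit_of_dvd' hrA hrB')
  · -- prime factors
    intro q hq hqb
    have : Fact q.Prime := ⟨hq⟩
    have hqI : Prime (q : ℤ) := Nat.prime_iff_prime_int.mp hq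
    have hVq : ((V A B l : ℤ) : ZMod q) = 0 := by
      rw [hV]; push_cast
      have : ((b : ℕ) : ZMod q) = 0 := (ZMod.natCast_eq_zero_iff _ _).mpr hqb
      rw [this, mul_zero]
    have hsum : ((A : ℤ) : ZMod q) ^ (2 * l) + ((B : ℤ) : ZMod q) ^ (2 * l) = 0 := by
      rw [← V_mul _ _ hodd, ← V_cast, hVq, zero_mul]
    set a : ZMod q := ((A : ℤ) : ZMod q) with ha
    set e : ZMod q := ((B : ℤ) : ZMod q) with he
    have hne : ¬ (a = 0 ∧ e = 0) := by
      rintro ⟨h1, h2⟩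
      exact hqI.not_isUnit (hcop.isUnit_of_dvd'
        ((ZMod.intCast_zmod_eq_zero_iff_dvd _ _).mp h1)
        ((ZMod.intCast_zmod_eq_zero_iff_dvd _ _).mp h2))
    have h2l : 2 * l ≠ 0 := by omega
    have he0 : e ≠ 0 := by
      intro h0
      rw [h0, zero_pow h2l, add_zero] at hsum
      exact hne ⟨pow_eq_zero_iff h2l |>.mp hsum, h0⟩
    have ha0 : a ≠ 0 := by
      intro h0
      rw [h0, zero_pow h2l, zero_add] at hsum
      exact he0 (pow_eq_zero_iff h2l |>.mp hsum)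
    -- q is odd
    have hq2 : q ≠ 2 := by
      rintro rfl
      apply he0
      rw [he]
      apply (ZMod.intCast_zmod_eq_zero_iff_dvd _ _).mpr
      exact ⟨c * x ^ 2 * y ^ 2, by rw [hB]; push_cast; ring⟩
    have hq2' : (2 : ZMod q) ≠ 0 := by
      intro h0
      have : ((2 : ℕ) : ZMod q) = 0 := by exact_mod_cast h0
      rw [ZMod.natCast_eq_zero_iff] at this
      exact hq2 ((Nat.prime_dvd_prime_iff_eq hq Nat.prime_two).mp this)
    have hneg : (-1 : ZMod q) ≠ 1 := by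
      intro h0
      apply hq2'
      have : (2 : ZMod q) = 1 - (-1) := by ring
      rw [this, h0, sub_self]
    have hg2l : (a / e) ^ (2 * l) = -1 := by
      rw [div_pow, div_eq_iff (pow_ne_zero _ he0)]
      linear_combination hsum
    have hD : ¬ (a / e) ^ 2 = -1 := by
      intro h0
      have h1 : a ^ 2 = -(e ^ 2) := by
        rw [div_pow, div_eq_iff (pow_ne_zero _ he0)] at h0
        linear_combination h0
      have h3 : (l : ZMod q) * (a ^ 2) ^ (l - 1) = 0 := by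
        rw [← V_of_sq_neg h1, ← hVq, V_cast]
      have h4 : (l : ZMod q) = 0 := by
        rcases mul_eq_zero.mp h3 with h5 | h5
        · exact h5
        · exact absurd h5 (pow_ne_zero _ (pow_ne_zero _ ha0))
      rw [ZMod.natCast_eq_zero_iff] at h4
      have hql : q = l := (Nat.prime_dvd_prime_iff_eq hq hl).mp h4
      apply hlD
      rw [← hql]
      apply hqI.dvd_of_dvd_pow (n := 2)
      rw [← D_sq]
      apply (ZMod.intCast_zmod_eq_zero_iff_dvd _ _).mp
      have : (((x ^ 4 - (c : ℤ) ^ 2 * y ^ 4) ^ 2 + (2 * c * x ^ 2 * y ^ 2) ^ 2 : ℤ) : ZMod q)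
          = a ^ 2 + e ^ 2 := by
        rw [ha, he, hA, hB]; push_cast; ring
      rw [this, h1]; ring
    constructor
    · have hord : orderOf (a / e) = 4 * l := by
        apply orderOf_eq_of_pow_and_pow_div_prime (by omega)
        · rw [show 4 * l = 2 * l * 2 by ring, pow_mul, hg2l]; ring
        · intro p hp hpd
          rcases (Nat.Prime.dvd_mul hp).mp hpd with h1 | h1
          · have hp2 : p = 2 := by
              have : p ∣ 2 ^ 2 := by simpa using h1
              exact (Nat.prime_dvd_prime_iff_eq hp Nat.prime_two).mp (hp.dvd_of_dvd_pow this)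
            subst hp2
            rw [show 4 * l / 2 = 2 * l by omega, hg2l]
            exact hneg
          · have hpl : p = l := (Nat.prime_dvd_prime_iff_eq hp hl).mp h1
            subst hpl
            rw [Nat.mul_div_cancel _ hp.pos]
            intro h4
            have h5 : ((a / e) ^ 2 - 1) * ((a / e) ^ 2 + 1) = 0 := by linear_combination h4
            rcases mul_eq_zero.mp h5 with h6 | h6
            · have h7 : (a / e) ^ 2 = 1 := by linear_combination h6
              rw [pow_mul, h7, one_pow] at hg2l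
              exact hneg hg2l.symm
            · exact hD (by linear_combination h6)
      have hu : a / e ≠ 0 := div_ne_zero ha0 he0
      have hdvd : 4 * l ∣ q - 1 := by
        rw [← hord]
        have := ZMod.pow_card_sub_one_eq_one hu
        exact orderOf_dvd_of_pow_eq_one this
      obtain ⟨k, hk⟩ := hdvd
      have hq1 : q = 4 * l * k + 1 := by have := hq.one_lt; omega
      rw [hq1, Nat.mul_add_mod, Nat.mod_eq_of_lt (by have := hl.two_le; omega)]
    · -- c is a square modulo q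
      obtain ⟨j, hj⟩ := hodd
      set u := (a / e) ^ l with hu
      have hu2 : u ^ 2 = -1 := by rw [hu, ← pow_mul, mul_comm l 2]; exact hg2l
      have hal : a ^ l = u * e ^ l := by rw [hu, div_pow]; field_simp
      have haz : a = (((z * t : ℤ)) : ZMod q) ^ 2 := by rw [ha, hAzt]; push_cast; ring
      have hez : e = 2 * (c : ZMod q) * (((x * y : ℤ)) : ZMod q) ^ 2 := by
        rw [he, hB]; push_cast; ring
      have hxy0 : (((x * y : ℤ)) : ZMod q) ≠ 0 := by
        intro h0; apply he0; rw [hez, h0]; ring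
      have hc0' : (c : ZMod q) ≠ 0 := by
        intro h0; apply he0; rw [hez, h0]; ring
      have h1u : (1 + u) ≠ 0 := by
        intro h0
        have : u = -1 := by linear_combination h0
        rw [this] at hu2
        exact hneg (by rw [← hu2]; ring)
      set s := (((z * t : ℤ)) : ZMod q) ^ l with hs
      set v := (2 * (c : ZMod q)) ^ j * (((x * y : ℤ)) : ZMod q) ^ l with hv
      have hv0 : v ≠ 0 := by
        rw [hv]
        exact mul_ne_zero (pow_ne_zero _ (mul_ne_zero hq2' hc0')) (pow_ne_zero _ hxy0)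
      have hkey : s ^ 2 = u * (2 * (c : ZMod q)) * v ^ 2 := by
        have h1 : a ^ l = s ^ 2 := by rw [haz, hs]; ring
        have h2 : e ^ l = 2 * (c : ZMod q) * v ^ 2 := by
          rw [hez, hv, hj]; ring
        rw [← h1, hal, h2]; ring
      refine ⟨s / (v * (1 + u)), ?_⟩
      rw [div_mul_div_comm, eq_div_iff (mul_ne_zero (mul_ne_zero hv0 h1u) (mul_ne_zero hv0 h1u))]
      have : (1 + u) ^ 2 = 2 * u := by linear_combination hu2
      linear_combination (c : ZMod q) * v ^ 2 * this - hkey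
  · -- congruent
    obtain ⟨j, hj⟩ := hodd
    have hodd : Odd l := ⟨j, hj⟩
    have hAB : A ^ (2 * l) - B ^ (2 * l) ≠ 0 := by
      intro h0
      have h1 : Odd (A ^ (2 * l)) := hAodd.pow
      have h2 : Even (B ^ (2 * l)) := by
        apply Even.pow_of_ne_zero _ (by omega)
        exact ⟨c * x ^ 2 * y ^ 2, by rw [hB]; ring⟩
      have h3 : A ^ (2 * l) = B ^ (2 * l) := by linarith
      rw [h3] at h1
      exact (Int.not_even_iff_odd.mpr h1) h2
    have hD0 : x ^ 4 + (c : ℤ) ^ 2 * y ^ 4 ≠ 0 := by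
      have := h.hx; have := h.hy; positivity
    have hW0 : (x ^ 4 + (c : ℤ) ^ 2 * y ^ 4) * g * (2 ^ (j + 1) * (c : ℤ) ^ j * (z * t * x * y) ^ l)
        * (A ^ (2 * l) - B ^ (2 * l)) ≠ 0 := by
      have := h.hx; have := h.hy; have := h.hz; have := h.ht
      have hc' : (0 : ℤ) < c := by exact_mod_cast hc0
      have hg' : (0 : ℤ) < g := by exact_mod_cast hg
      apply mul_ne_zero _ hAB
      positivity
    refine isCongruent_of_area (by positivity) (m := A ^ (2 * l) + B ^ (2 * l))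
      (n := 2 * A ^ l * B ^ l) hW0 ?_
    have e1 : A ^ (2 * l) + B ^ (2 * l) = (g : ℤ) ^ 2 * b * (x ^ 4 + (c : ℤ) ^ 2 * y ^ 4) ^ 2 := by
      rw [← V_mul _ _ hodd, hV, hA, hB, D_sq]
    have e2 : 2 * A ^ l * B ^ l = c * (2 ^ (j + 1) * (c : ℤ) ^ j * (z * t * x * y) ^ l) ^ 2 := by
      rw [hAzt, hB, hj]; ring
    have e3 : (A ^ (2 * l) + B ^ (2 * l)) ^ 2 - (2 * A ^ l * B ^ l) ^ 2 =
        (A ^ (2 * l) - B ^ (2 * l)) ^ 2 := by ring
    rw [e3, e2]
    nth_rewrite 1 [e1]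
    push_cast
    ring

end Prim

/-- Propagation of congruent numbers. -/
theorem propagate (c : ℕ) (hc : Squarefree c) (hcong : IsCongruent c) (N : ℕ) :
    ∃ l : ℕ, N < l ∧ l.Prime ∧ ∃ b : ℕ, 1 < b ∧ Squarefree b ∧ b % 8 = 1 ∧ Nat.Coprime b c ∧
      (∀ q : ℕ, q.Prime → q ∣ b → q % (4 * l) = 1 ∧ IsSquare ((c : ℕ) : ZMod q)) ∧
      IsCongruent (c * b) := by
  obtain ⟨x, y, z, t, h⟩ := exists_prim hcong
  have hc0 : 0 < c := Nat.pos_of_ne_zero hc.ne_zero
  set D := x ^ 4 + (c : ℤ) ^ 2 * y ^ 4 with hD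
  have hDpos : 1 < D := by
    have hx := h.hx
    have hy := h.hy
    have h1 : 1 ≤ x ^ 4 := one_le_pow₀ (by linarith)
    have hc' : (1 : ℤ) ≤ c := by exact_mod_cast hc0
    have h2 : 1 ≤ (c : ℤ) ^ 2 * y ^ 4 := by
      have : (0 : ℤ) < (c : ℤ) ^ 2 * y ^ 4 := by positivity
      linarith
    linarith
  have hDodd : Odd D := (h.odd_x hc).pow.add_even
    (((h.even_y hc).pow_of_ne_zero (by norm_num)).mul_left _)
  -- a prime divisor r of D
  have hDnat : D.toNat ≠ 1 := by omega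
  obtain ⟨r, hr, hrD⟩ := Nat.exists_prime_and_dvd hDnat
  have hrD' : (r : ℤ) ∣ D := by
    have := Int.natCast_dvd_natCast.mpr hrD
    rwa [Int.toNat_of_nonneg (by linarith)] at this
  have hr2 : r ≠ 2 := by
    rintro rfl
    exact (Int.not_even_iff_odd.mpr hDodd) (even_iff_two_dvd.mpr (by exact_mod_cast hrD'))
  have : Fact r.Prime := ⟨hr⟩
  obtain ⟨u, hu⟩ := FiniteField.exists_nonsquare (F := ZMod r) (by rw [ZMod.ringChar_zmod_n]; exact hr2)
  have hu0 : u ≠ 0 := by rintro rfl; exact hu (IsSquare.zero)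
  obtain ⟨l, hlN, hl, hlu⟩ := Nat.forall_exists_prime_gt_and_eq_mod (q := r) (a := u)
    (isUnit_iff_ne_zero.mpr hu0) (max N (max D.toNat 2))
  have hlN' : N < l := lt_of_le_of_lt (le_max_left _ _) hlN
  have hlD : D.toNat < l := lt_of_le_of_lt ((le_max_left _ _).trans (le_max_right _ _)) hlN
  have hl2 : 2 < l := lt_of_le_of_lt ((le_max_right _ _).trans (le_max_right _ _)) hlN
  have hodd : Odd l := hl.odd_of_ne_two (by omega)
  have hndvd : ¬ (l : ℤ) ∣ D := by
    intro hd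
    have := Int.le_of_dvd (by linarith) hd
    omega
  obtain ⟨b, g, hg, hb, hV, hb8, hbc, hq, hcb⟩ := h.step hc hl hodd hndvd
  refine ⟨l, hlN', hl, b, ?_, hb, hb8, hbc, hq, hcb⟩
  have hb0 : 0 < b := Nat.pos_of_ne_zero hb.ne_zero
  by_contra hb1
  have hb1' : b = 1 := by omega
  subst hb1'
  set A := x ^ 4 - (c : ℤ) ^ 2 * y ^ 4 with hA
  set B := 2 * (c : ℤ) * x ^ 2 * y ^ 2 with hB
  have hAB : ((A : ℤ) : ZMod r) ^ 2 = -(((B : ℤ) : ZMod r) ^ 2) := by
    have h1 : ((D ^ 2 : ℤ) : ZMod r) = 0 := by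
      rw [ZMod.intCast_zmod_eq_zero_iff_dvd]
      exact dvd_pow hrD' (by norm_num)
    rw [hD, ← Prim.D_sq] at h1
    push_cast at h1
    rw [hA, hB]
    push_cast
    linear_combination h1
  have hA0 : ((A : ℤ) : ZMod r) ≠ 0 := by
    intro h0
    have h1 : ((B : ℤ) : ZMod r) = 0 := by
      rw [h0] at hAB
      have : ((B : ℤ) : ZMod r) ^ 2 = 0 := by linear_combination hAB
      exact pow_eq_zero_iff (n := 2) (by norm_num) |>.mp this
    exact (Nat.prime_iff_prime_int.mp hr).not_isUnit ((h.coprime_AB hc).isUnit_of_dvd'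
      ((ZMod.intCast_zmod_eq_zero_iff_dvd _ _).mp h0)
      ((ZMod.intCast_zmod_eq_zero_iff_dvd _ _).mp h1))
  have hVr : ((V A B l : ℤ) : ZMod r) = (g : ZMod r) ^ 2 := by
    rw [hV]; push_cast; ring
  rw [V_cast, V_of_sq_neg hAB] at hVr
  apply hu
  rw [← hlu]
  refine ⟨(g : ZMod r) / ((A : ℤ) : ZMod r) ^ (l - 1), ?_⟩
  rw [div_mul_div_comm, eq_div_iff (mul_ne_zero (pow_ne_zero _ hA0) (pow_ne_zero _ hA0))]
  rw [← sq (g : ZMod r), ← hVr]
  ring

end Pool.Agent.Work.MP_8efaaa_nt
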