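import Mathlib
import Pool.Agent.Work.MP_8efaaa_nt.Basic
import Pool.Agent.Work.MP_8efaaa_nt.Local

/-! For every `a` there are multipliers `b` supported on special primes with `a * b` congruent. -/

set_option autoImplicit false

namespace Pool.Agent.Work.MP_8efaaa_nt

theorem core {a : ℕ} (ha : 0 < a) {n m : ℤ} (hn : Odd n) (hm : m ≠ 0)
    (hB : ¬ IsSquare (n ^ 4 + 4 * (a : ℤ) ^ 2 * m ^ 4)) :
    ∃ b e : ℕ, 1 < b ∧ Squarefree b ∧ 0 < e ∧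
      (b : ℤ) * (e : ℤ) ^ 2 = n ^ 4 + 4 * (a : ℤ) ^ 2 * m ^ 4 ∧ IsCongruent (a * b) := by
  have hn0 : n ≠ 0 := by rintro rfl; exact absurd hn (by decide)
  have hpos : 0 < n ^ 4 + 4 * (a : ℤ) ^ 2 * m ^ 4 := by positivity
  obtain ⟨B, hBeq⟩ : ∃ B : ℕ, (B : ℤ) = n ^ 4 + 4 * (a : ℤ) ^ 2 * m ^ 4 :=
    ⟨_, Int.toNat_of_nonneg hpos.le⟩
  obtain ⟨b, e, hbe, hsq⟩ := Nat.sq_mul_squarefree B
  have hBpos : 0 < B := by
    have : (0 : ℤ) < B := by rw [hBeq]; exact hpos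
    exact_mod_cast this
  have he : 0 < e := by
    rcases Nat.eq_zero_or_pos e with h | h
    · rw [h] at hbe; omega
    · exact h
  have hBe : (b : ℤ) * (e : ℤ) ^ 2 = n ^ 4 + 4 * (a : ℤ) ^ 2 * m ^ 4 := by
    rw [← hBeq, ← hbe]; push_cast; ring
  have hb0 : b ≠ 0 := hsq.ne_zero
  have hb1 : b ≠ 1 := by
    rintro rfl
    apply hB
    rw [← hBe]
    exact ⟨(e : ℤ), by push_cast; ring⟩
  refine ⟨b, e, by omega, hsq, he, hBe, ?_⟩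
  have hw : 2 * (e : ℤ) * n * m * (n ^ 4 - 4 * (a : ℤ) ^ 2 * m ^ 4) ≠ 0 := by
    have h1 : n ^ 4 - 4 * (a : ℤ) ^ 2 * m ^ 4 ≠ 0 := by
      intro h
      have h2 : Odd (n ^ 4 - 4 * (a : ℤ) ^ 2 * m ^ 4) := by
        apply Odd.sub_even hn.pow
        exact ⟨2 * (a : ℤ) ^ 2 * m ^ 4, by ring⟩
      rw [h] at h2
      exact absurd h2 (by decide)
    have h2 : (e : ℤ) ≠ 0 := by exact_mod_cast he.ne'
    positivity
  refine isCongruent_of_area (N := a * b) (by positivity)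
    (m := n ^ 4 + 4 * (a : ℤ) ^ 2 * m ^ 4) (n := 4 * (a : ℤ) * n ^ 2 * m ^ 2) hw ?_
  push_cast
  have e1 : (n ^ 4 + 4 * (a : ℤ) ^ 2 * m ^ 4) * (4 * (a : ℤ) * n ^ 2 * m ^ 2) *
      ((n ^ 4 + 4 * (a : ℤ) ^ 2 * m ^ 4) ^ 2 - (4 * (a : ℤ) * n ^ 2 * m ^ 2) ^ 2) =
      (n ^ 4 + 4 * (a : ℤ) ^ 2 * m ^ 4) * (4 * (a : ℤ) * n ^ 2 * m ^ 2 *
        (n ^ 4 - 4 * (a : ℤ) ^ 2 * m ^ 4) ^ 2) := by ring
  rw [e1, ← hBe]
  ring

theorem not_square_of_between {B k : ℤ} (hk : 0 ≤ k) (h1 : k ^ 2 < B) (h2 : B < (k + 1) ^ 2) :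
    ¬ IsSquare B := by
  rintro ⟨s, hs⟩
  have hs2 : |s| ^ 2 = B := by rw [sq_abs, hs]; ring
  have h3 : k < |s| := by
    by_contra h
    push Not at h
    nlinarith [abs_nonneg s]
  have h4 : |s| < k + 1 := by
    by_contra h
    push Not at h
    nlinarith [abs_nonneg s]
  omega

/-- Primes dividing `b` do not divide the modulus. -/
theorem not_dvd_M {a b e M : ℕ} {n m : ℤ}
    (hB : (b : ℤ) * (e : ℤ) ^ 2 = n ^ 4 + 4 * (a : ℤ) ^ 2 * m ^ 4)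
    (hn : (M : ℤ) ∣ n - 1) (hm : (M : ℤ) ∣ m) {q : ℕ} (hq : q.Prime) (hqb : q ∣ b) :
    ¬ q ∣ M := by
  intro h
  have hz : (q : ℤ) ∣ M := by exact_mod_cast h
  have h1 : (q : ℤ) ∣ n - 1 := hz.trans hn
  have h2 : (q : ℤ) ∣ m := hz.trans hm
  have h3 : (q : ℤ) ∣ n ^ 4 + 4 * (a : ℤ) ^ 2 * m ^ 4 := by
    rw [← hB]
    exact Dvd.dvd.mul_right (by exact_mod_cast hqb) _
  have h4 : (q : ℤ) ∣ 1 := by
    have : (1 : ℤ) = (n ^ 4 + 4 * (a : ℤ) ^ 2 * m ^ 4) - m * (4 * (a : ℤ) ^ 2 * m ^ 3) -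
        (n - 1) * (n ^ 3 + n ^ 2 + n + 1) := by ring
    rw [this]
    exact dvd_sub (dvd_sub h3 (h2.mul_right _)) (h1.mul_right _)
  have h5 : q ∣ 1 := by exact_mod_cast h4
  exact hq.one_lt.ne' (Nat.dvd_one.mp h5)

theorem dvd_int {q M : ℕ} (h : ¬ q ∣ M) {x : ℤ} (hx : x ∣ (M : ℤ)) : ¬ (q : ℤ) ∣ x := by
  intro h1
  exact h (by exact_mod_cast h1.trans hx)

theorem neg_one_sq {a b e : ℕ} {n m : ℤ} (hb : Squarefree b) (he : 0 < e)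
    (hB : (b : ℤ) * (e : ℤ) ^ 2 = n ^ 4 + 4 * (a : ℤ) ^ 2 * m ^ 4)
    {q : ℕ} [hq : Fact q.Prime] (hqb : q ∣ b) : IsSquare (-1 : ZMod q) := by
  have h := sq_int hb hqb he (n ^ 2) (2 * a * m ^ 2) (-1) (by
    intro h
    rw [dvd_neg] at h
    have h5 : q ∣ 1 := by exact_mod_cast h
    exact hq.out.one_lt.ne' (Nat.dvd_one.mp h5)) (by rw [hB]; ring)
  simpa using h

theorem a_sq {a b e : ℕ} {n m : ℤ} (hb : Squarefree b) (he : 0 < e)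
    (hB : (b : ℤ) * (e : ℤ) ^ 2 = n ^ 4 + 4 * (a : ℤ) ^ 2 * m ^ 4)
    {q : ℕ} [hq : Fact q.Prime] (hqb : q ∣ b) (hqa : ¬ (q : ℤ) ∣ (a : ℤ)) :
    IsSquare ((a : ℕ) : ZMod q) := by
  have h := sq_int hb hqb he (n ^ 2 - 2 * a * m ^ 2) (2 * n * m) (-(a : ℤ)) (by
    rwa [dvd_neg]) (by rw [hB]; ring)
  have h1 := neg_one_sq hb he hB hqb
  have h2 := h1.mul h
  push_cast at h2
  have e1 : (-1 : ZMod q) * -(a : ZMod q) = (a : ZMod q) := by ring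
  rwa [e1] at h2

theorem lt_of_not_dvd_factorial {q N : ℕ} (hq : q.Prime) (h : ¬ q ∣ N.factorial) : N < q := by
  by_contra h1
  push Not at h1
  exact h ((hq.dvd_factorial).mpr h1)

/-! ### The family for a prescribed square -/

theorem special_square (a : ℕ) (ha : 0 < a) (D : ℕ) (hD : 0 < D) (N : ℕ) :
    ∃ b : ℕ, 1 < b ∧ Squarefree b ∧ (∀ q : ℕ, q.Prime → q ∣ b → N < q ∧ q % 4 = 1 ∧
      IsSquare ((a : ℕ) : ZMod q) ∧ IsSquare ((D : ℕ) : ZMod q)) ∧ IsCongruent (a * b) := by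
  obtain ⟨M, hM⟩ : ∃ M : ℕ, M = 2 * a * D * N.factorial := ⟨_, rfl⟩
  have hM0 : 0 < M := by rw [hM]; positivity
  have hMz : (0 : ℤ) < (M : ℤ) := by exact_mod_cast hM0
  have haz : (1 : ℤ) ≤ (a : ℤ) := by exact_mod_cast ha
  have hDz : (1 : ℤ) ≤ (D : ℤ) := by exact_mod_cast hD
  have hM2 : (2 : ℤ) ∣ (M : ℤ) := by rw [hM]; push_cast; exact ⟨a * D * N.factorial, by ring⟩
  have hM2' : (2 : ℤ) ≤ (M : ℤ) := Int.le_of_dvd hMz hM2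
  obtain ⟨S, hS⟩ : ∃ S : ℤ, S = (D : ℤ) ^ 2 * (a : ℤ) ^ 2 * (M : ℤ) ^ 4 := ⟨_, rfl⟩
  obtain ⟨μ, hμ⟩ : ∃ μ : ℤ, μ = 32 * S * M := ⟨_, rfl⟩
  obtain ⟨n, hn⟩ : ∃ n : ℤ, n = 1 + D * μ ^ 2 - (D : ℤ) ^ 2 * (a : ℤ) ^ 2 * (M : ℤ) ^ 4 := ⟨_, rfl⟩
  obtain ⟨m, hm⟩ : ∃ m : ℤ, m = 2 * (D : ℤ) * M * μ := ⟨_, rfl⟩
  have hS16 : 16 ≤ S := by
    rw [hS]
    have h1 : (1 : ℤ) ≤ (D : ℤ) ^ 2 := one_le_pow₀ hDz
    have h2 : (1 : ℤ) ≤ (a : ℤ) ^ 2 := one_le_pow₀ haz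
    have h3 : (16 : ℤ) ≤ (M : ℤ) ^ 4 := by
      calc (16 : ℤ) = 2 ^ 4 := by norm_num
        _ ≤ (M : ℤ) ^ 4 := pow_le_pow_left₀ (by norm_num) hM2' 4
    have h4 : (1 : ℤ) ≤ (D : ℤ) ^ 2 * (a : ℤ) ^ 2 := one_le_mul_of_one_le_of_one_le h1 h2
    nlinarith
  have hμ0 : 0 < μ := by rw [hμ]; positivity
  have hnM : (M : ℤ) ∣ n - 1 := by
    refine ⟨D * μ * (32 * S) - (D : ℤ) ^ 2 * (a : ℤ) ^ 2 * (M : ℤ) ^ 3, ?_⟩
    rw [hn, hμ]; ring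
  have hmM : (M : ℤ) ∣ m := ⟨2 * D * μ, by rw [hm]; ring⟩
  have hnodd : Odd n := by
    obtain ⟨t, ht⟩ := hM2.trans hnM
    exact ⟨t, by linarith⟩
  have hm0 : m ≠ 0 := by
    rw [hm]
    positivity
  have hns : ¬ IsSquare (n ^ 4 + 4 * (a : ℤ) ^ 2 * m ^ 4) := by
    obtain ⟨T, hT⟩ : ∃ T : ℤ, T = (D : ℤ) * μ ^ 2 := ⟨_, rfl⟩
    have e1 : n = 1 + T - S := by rw [hn, hT, hS]
    have e2 : 4 * (a : ℤ) ^ 2 * m ^ 4 = 64 * S * T ^ 2 := by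
      rw [hm, hS, hT]; ring
    have hTb : 1024 * S ^ 2 ≤ T := by
      rw [hT, hμ]
      have h1 : (1 : ℤ) ≤ (M : ℤ) ^ 2 := one_le_pow₀ (by linarith)
      have h2 : (1 : ℤ) ≤ (D : ℤ) * (M : ℤ) ^ 2 := one_le_mul_of_one_le_of_one_le hDz h1
      have h3 : (0 : ℤ) ≤ 1024 * S ^ 2 := by positivity
      calc 1024 * S ^ 2 = 1024 * S ^ 2 * 1 := by ring
        _ ≤ 1024 * S ^ 2 * ((D : ℤ) * (M : ℤ) ^ 2) := mul_le_mul_of_nonneg_left h2 h3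
        _ = (D : ℤ) * (32 * S * M) ^ 2 := by ring
    clear hT
    rw [e2, e1]
    have hT0 : 0 < T := by nlinarith
    refine not_square_of_between (k := (1 + T - S) ^ 2 + 32 * S) (by positivity) ?_ ?_
    · have h1 : (1 + T - S) ^ 4 + 64 * S * T ^ 2 - ((1 + T - S) ^ 2 + 32 * S) ^ 2 =
          64 * S * (2 * T * (S - 1) - (S - 1) ^ 2 - 16 * S) := by ring
      have h2 : 0 < 2 * T * (S - 1) - (S - 1) ^ 2 - 16 * S := by nlinarith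
      have h3 : 0 < 64 * S * (2 * T * (S - 1) - (S - 1) ^ 2 - 16 * S) := by positivity
      linarith
    · have h1 : ((1 + T - S) ^ 2 + 32 * S + 1) ^ 2 - ((1 + T - S) ^ 4 + 64 * S * T ^ 2) =
          2 * T * (T - 64 * S ^ 2 - 2 * S + 64 * S + 2) + (2 * (S - 1) ^ 2 + 64 * S + 1 +
          64 * S * (S - 1) ^ 2 + 1024 * S ^ 2) := by ring
      have h2 : 0 < T - 64 * S ^ 2 - 2 * S + 64 * S + 2 := by nlinarith
      have h3 : 0 < 2 * T * (T - 64 * S ^ 2 - 2 * S + 64 * S + 2) := by positivity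
      have h4 : 0 ≤ (2 * (S - 1) ^ 2 + 64 * S + 1 +
          64 * S * (S - 1) ^ 2 + 1024 * S ^ 2) := by positivity
      linarith
  obtain ⟨b, e, hb1, hbs, he, hB, hc⟩ := core ha hnodd hm0 hns
  refine ⟨b, hb1, hbs, ?_, hc⟩
  intro q hq hqb
  have : Fact q.Prime := ⟨hq⟩
  have hqM := not_dvd_M hB hnM hmM hq hqb
  have hqN : N < q := lt_of_not_dvd_factorial hq fun h => hqM (by
    rw [hM]; exact h.mul_left _)
  have hq2 : q ≠ 2 := by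
    rintro rfl
    exact hqM (by exact_mod_cast hM2)
  have hqa : ¬ (q : ℤ) ∣ (a : ℤ) := dvd_int hqM (by
    rw [hM]; push_cast; exact ⟨2 * D * N.factorial, by ring⟩)
  have hqD : ¬ (q : ℤ) ∣ (D : ℤ) := dvd_int hqM (by
    rw [hM]; push_cast; exact ⟨2 * a * N.factorial, by ring⟩)
  have h1 := neg_one_sq hbs he hB hqb
  refine ⟨hqN, mod_four hq2 h1, a_sq hbs he hB hqb hqa, ?_⟩
  have h2 := sq_int hbs hqb he (n ^ 2 + 2 * D * a ^ 2 * M ^ 2 * m ^ 2)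
    (2 * a * m * (μ * m - M * n)) (D : ℤ) hqD (by
      rw [hB, hm, hn]; ring)
  exact_mod_cast h2

/-! ### The family modulo `16` -/

theorem unit_of_mul {q : ℕ} [hq : Fact q.Prime] {x y : ℤ_[q]} (h : ‖x * y‖ = 1) :
    ‖x‖ = 1 ∧ ‖y‖ = 1 := by
  have h1 : IsUnit (x * y) := PadicInt.isUnit_iff.mpr h
  exact ⟨PadicInt.isUnit_iff.mp (isUnit_of_mul_isUnit_left h1),
    PadicInt.isUnit_iff.mp (isUnit_of_mul_isUnit_right h1)⟩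

theorem special_sixteen (a : ℕ) (ha : 0 < a) (N : ℕ) :
    ∃ b : ℕ, 1 < b ∧ Squarefree b ∧ (∀ q : ℕ, q.Prime → q ∣ b → N < q ∧ q % 16 = 1 ∧
      IsSquare ((a : ℕ) : ZMod q)) ∧ IsCongruent (a * b) := by
  obtain ⟨M, hM⟩ : ∃ M : ℕ, M = 14 * a * N.factorial := ⟨_, rfl⟩
  have hM0 : 0 < M := by rw [hM]; positivity
  have hMz : (0 : ℤ) < (M : ℤ) := by exact_mod_cast hM0
  have hM7 : (7 : ℤ) ∣ (M : ℤ) := by rw [hM]; push_cast; exact ⟨2 * a * N.factorial, by ring⟩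
  have hM2 : (2 : ℤ) ∣ (M : ℤ) := by rw [hM]; push_cast; exact ⟨7 * a * N.factorial, by ring⟩
  obtain ⟨z, hz⟩ : ∃ z : ℤ, (a : ℤ) ^ 2 * (M : ℤ) ^ 4 = 49 * z := by
    obtain ⟨t, ht⟩ := hM7
    exact ⟨(a : ℤ) ^ 2 * (t ^ 2 * (M : ℤ) ^ 2), by rw [ht]; ring⟩
  have hz0 : 1 ≤ z := by
    have h1 : 0 < (a : ℤ) ^ 2 * (M : ℤ) ^ 4 := by positivity
    omega
  obtain ⟨n, hn⟩ : ∃ n : ℤ, n = 1 - 56 * ((a : ℤ) ^ 2 * (M : ℤ) ^ 4) := ⟨_, rfl⟩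
  obtain ⟨m, hm⟩ : ∃ m : ℤ, m = 16 * (a : ℤ) * (M : ℤ) ^ 3 := ⟨_, rfl⟩
  obtain ⟨h, hh⟩ : ∃ h : ℤ, h = 2 * (a : ℤ) * (M : ℤ) := ⟨_, rfl⟩
  have hnM : (M : ℤ) ∣ n - 1 := ⟨-56 * ((a : ℤ) ^ 2 * (M : ℤ) ^ 3), by rw [hn]; ring⟩
  have hmM : (M : ℤ) ∣ m := ⟨16 * (a : ℤ) * (M : ℤ) ^ 2, by rw [hm]; ring⟩
  have hnodd : Odd n := by
    obtain ⟨t, ht⟩ := hM2.trans hnM
    exact ⟨t, by linarith⟩
  have hm0 : m ≠ 0 := by
    rw [hm]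
    positivity
  have hns : ¬ IsSquare (n ^ 4 + 4 * (a : ℤ) ^ 2 * m ^ 4) := by
    have e2 : 4 * (a : ℤ) ^ 2 * m ^ 4 = 262144 * ((a : ℤ) ^ 2 * (M : ℤ) ^ 4) ^ 3 := by
      rw [hm]; ring
    rw [e2, hn, hz]
    refine not_square_of_between (k := (1 - 56 * (49 * z)) ^ 2 + 2048 * z + 1) (by positivity) ?_ ?_
    · have h1 : (1 - 56 * (49 * z)) ^ 4 + 262144 * (49 * z) ^ 3 -
          ((1 - 56 * (49 * z)) ^ 2 + 2048 * z + 1) ^ 2 =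
          3225472 * z ^ 2 + 2784 * z - 3 := by ring
      nlinarith
    · have h1 : ((1 - 56 * (49 * z)) ^ 2 + 2048 * z + 1 + 1) ^ 2 -
          ((1 - 56 * (49 * z)) ^ 4 + 262144 * (49 * z) ^ 3) =
          11833600 * z ^ 2 - 9664 * z + 8 := by ring
      nlinarith
  have hid : n ^ 4 + 4 * (a : ℤ) ^ 2 * m ^ 4 =
      (n ^ 2 + 4 * h ^ 2 * m ^ 2) ^ 2 - 2 * (h ^ 2 * m ^ 2 - 2 * n * h * m) ^ 2 := by
    rw [hh, hn, hm]; ring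
  obtain ⟨b, e, hb1, hbs, he, hB, hc⟩ := core ha hnodd hm0 hns
  refine ⟨b, hb1, hbs, ?_, hc⟩
  intro q hq hqb
  have : Fact q.Prime := ⟨hq⟩
  have hqM := not_dvd_M hB hnM hmM hq hqb
  have hqN : N < q := lt_of_not_dvd_factorial hq fun h => hqM (by
    rw [hM]; exact h.mul_left _)
  have hq2' : ¬ (q : ℤ) ∣ (2 : ℤ) := dvd_int hqM hM2
  have hq2 : q ≠ 2 := by
    rintro rfl
    exact hq2' (by norm_num)
  have hqa : ¬ (q : ℤ) ∣ (a : ℤ) := dvd_int hqM (by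
    rw [hM]; push_cast; exact ⟨14 * N.factorial, by ring⟩)
  have h1 := neg_one_sq hbs he hB hqb
  refine ⟨hqN, ?_, a_sq hbs he hB hqb hqa⟩
  have h2 := sq_int hbs hqb he _ _ 2 hq2' (hB.trans hid)
  obtain ⟨r, hr⟩ := exists_sqrt hq2 2 h2 hq2'
  have hr' : r ^ 2 = 2 := by rw [hr]; norm_num
  have hnorm2 : ‖((2 : ℤ) : ℤ_[q])‖ = 1 := norm_intCast_eq_one hq2'
  obtain ⟨n1, n2⟩ := unit_of_mul (q := q) (x := 2 + r) (y := 2 - r) (by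
    have : (2 + r) * (2 - r) = ((2 : ℤ) : ℤ_[q]) := by
      push_cast; linear_combination (-1 : ℤ_[q]) * hr'
    rw [this]; exact hnorm2)
  have h3 := sq_fact hbs hqb he ((n : ℤ_[q]) - r * h * m) (h * m) (-(2 + r))
    ((n : ℤ_[q]) + r * h * m) (h * m) (-(2 - r)) (by rw [norm_neg]; exact n1)
    (by rw [norm_neg]; exact n2) (by
      have h4 : (((b : ℤ) * (e : ℤ) ^ 2 : ℤ) : ℤ_[q]) =
          (((n ^ 2 + 4 * h ^ 2 * m ^ 2) ^ 2 - 2 * (h ^ 2 * m ^ 2 - 2 * n * h * m) ^ 2 : ℤ) :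
            ℤ_[q]) := by rw [hB, hid]
      push_cast at h4 ⊢
      have f1 : ((n : ℤ_[q]) - r * h * m) ^ 2 - -(2 + r) * (h * m) ^ 2 =
          ((n : ℤ_[q]) ^ 2 + 4 * h ^ 2 * m ^ 2) + r * (h ^ 2 * m ^ 2 - 2 * n * h * m) := by
        linear_combination ((h : ℤ_[q]) * m) ^ 2 * hr'
      have f2 : ((n : ℤ_[q]) + r * h * m) ^ 2 - -(2 - r) * (h * m) ^ 2 =
          ((n : ℤ_[q]) ^ 2 + 4 * h ^ 2 * m ^ 2) - r * (h ^ 2 * m ^ 2 - 2 * n * h * m) := by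
        linear_combination ((h : ℤ_[q]) * m) ^ 2 * hr'
      rw [f1, f2, h4]
      linear_combination ((h : ℤ_[q]) ^ 2 * m ^ 2 - 2 * n * h * m) ^ 2 * hr')
  rcases h3 with h3 | h3
  · refine mod_sixteen hq2 h1 (PadicInt.toZMod r) ?_ ?_
    · rw [← map_pow, hr']; exact map_ofNat _ 2
    · have e1 : PadicInt.toZMod (-(2 + r)) = -(2 + PadicInt.toZMod r) := by
        rw [map_neg, map_add]; congr 2; exact map_ofNat _ 2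
      rwa [e1] at h3
  · refine mod_sixteen hq2 h1 (-PadicInt.toZMod r) ?_ ?_
    · rw [neg_pow, ← map_pow, hr']; norm_num; exact map_ofNat _ 2
    · have e1 : PadicInt.toZMod (-(2 - r)) = -(2 + -PadicInt.toZMod r) := by
        rw [map_neg, map_sub, sub_eq_add_neg]; congr 2; exact map_ofNat _ 2
      rwa [e1] at h3

/-! ### The family modulo `20` -/

theorem special_twenty (a : ℕ) (ha : 0 < a) (N : ℕ) :
    ∃ b : ℕ, 1 < b ∧ Squarefree b ∧ (∀ q : ℕ, q.Prime → q ∣ b → N < q ∧ q % 20 = 1 ∧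
      IsSquare ((a : ℕ) : ZMod q)) ∧ IsCongruent (a * b) := by
  obtain ⟨M, hM⟩ : ∃ M : ℕ, M = 10 * a * N.factorial := ⟨_, rfl⟩
  have hM0 : 0 < M := by rw [hM]; positivity
  have hMz : (0 : ℤ) < (M : ℤ) := by exact_mod_cast hM0
  have hM5 : (5 : ℤ) ∣ (M : ℤ) := by rw [hM]; push_cast; exact ⟨2 * a * N.factorial, by ring⟩
  have hM2 : (2 : ℤ) ∣ (M : ℤ) := by rw [hM]; push_cast; exact ⟨5 * a * N.factorial, by ring⟩
  obtain ⟨y, hy⟩ : ∃ y : ℤ, (a : ℤ) ^ 2 * (M : ℤ) ^ 4 = y := ⟨_, rfl⟩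
  have hy0 : 1 ≤ y := by
    have h1 : 0 < (a : ℤ) ^ 2 * (M : ℤ) ^ 4 := by positivity
    omega
  obtain ⟨n, hn⟩ : ∃ n : ℤ, n = 1 - 20 * ((a : ℤ) ^ 2 * (M : ℤ) ^ 4) := ⟨_, rfl⟩
  obtain ⟨m, hm⟩ : ∃ m : ℤ, m = 10 * (a : ℤ) * (M : ℤ) ^ 3 := ⟨_, rfl⟩
  obtain ⟨h, hh⟩ : ∃ h : ℤ, h = (a : ℤ) * (M : ℤ) := ⟨_, rfl⟩
  have hnM : (M : ℤ) ∣ n - 1 := ⟨-20 * ((a : ℤ) ^ 2 * (M : ℤ) ^ 3), by rw [hn]; ring⟩
  have hmM : (M : ℤ) ∣ m := ⟨10 * (a : ℤ) * (M : ℤ) ^ 2, by rw [hm]; ring⟩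
  have hnodd : Odd n := by
    obtain ⟨t, ht⟩ := hM2.trans hnM
    exact ⟨t, by linarith⟩
  have hm0 : m ≠ 0 := by
    rw [hm]
    positivity
  have hns : ¬ IsSquare (n ^ 4 + 4 * (a : ℤ) ^ 2 * m ^ 4) := by
    have e2 : 4 * (a : ℤ) ^ 2 * m ^ 4 = 40000 * ((a : ℤ) ^ 2 * (M : ℤ) ^ 4) ^ 3 := by
      rw [hm]; ring
    rw [e2, hn, hy]
    refine not_square_of_between (k := 400 * y ^ 2 + 10 * y + 2) (by positivity) ?_ ?_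
    · have h1 : (1 - 20 * y) ^ 4 + 40000 * y ^ 3 - (400 * y ^ 2 + 10 * y + 2) ^ 2 =
          700 * y ^ 2 - 120 * y - 3 := by ring
      nlinarith
    · have h1 : (400 * y ^ 2 + 10 * y + 2 + 1) ^ 2 - ((1 - 20 * y) ^ 4 + 40000 * y ^ 3) =
          100 * y ^ 2 + 140 * y + 8 := by ring
      nlinarith
  have hid : n ^ 4 + 4 * (a : ℤ) ^ 2 * m ^ 4 =
      (n ^ 2 + 10 * h ^ 2 * m ^ 2) ^ 2 - 5 * (2 * h ^ 2 * m ^ 2 - 2 * n * h * m) ^ 2 := by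
    rw [hh, hn, hm]; ring
  obtain ⟨b, e, hb1, hbs, he, hB, hc⟩ := core ha hnodd hm0 hns
  refine ⟨b, hb1, hbs, ?_, hc⟩
  intro q hq hqb
  have : Fact q.Prime := ⟨hq⟩
  have hqM := not_dvd_M hB hnM hmM hq hqb
  have hqN : N < q := lt_of_not_dvd_factorial hq fun h => hqM (by
    rw [hM]; exact h.mul_left _)
  have hq2' : ¬ (q : ℤ) ∣ (2 : ℤ) := dvd_int hqM hM2
  have hq5' : ¬ (q : ℤ) ∣ (5 : ℤ) := dvd_int hqM hM5
  have hq2 : q ≠ 2 := by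
    rintro rfl
    exact hq2' (by norm_num)
  have hq5 : q ≠ 5 := by
    rintro rfl
    exact hq5' (by norm_num)
  have hqa : ¬ (q : ℤ) ∣ (a : ℤ) := dvd_int hqM (by
    rw [hM]; push_cast; exact ⟨10 * N.factorial, by ring⟩)
  have h1 := neg_one_sq hbs he hB hqb
  refine ⟨hqN, ?_, a_sq hbs he hB hqb hqa⟩
  have h4' := mod_four hq2 h1
  suffices h5' : q % 5 = 1 by omega
  have h2 := sq_int hbs hqb he _ _ 5 hq5' (hB.trans hid)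
  obtain ⟨r, hr⟩ := exists_sqrt hq2 5 h2 hq5'
  have hr' : r ^ 2 = 5 := by rw [hr]; norm_num
  have hnorm5 : ‖((5 : ℤ) : ℤ_[q])‖ = 1 := norm_intCast_eq_one hq5'
  obtain ⟨n1, n2⟩ := unit_of_mul (q := q) (x := 5 + 2 * r) (y := 5 - 2 * r) (by
    have : (5 + 2 * r) * (5 - 2 * r) = ((5 : ℤ) : ℤ_[q]) := by
      push_cast; linear_combination (-4 : ℤ_[q]) * hr'
    rw [this]; exact hnorm5)
  have h3 := sq_fact hbs hqb he ((n : ℤ_[q]) - r * h * m) (h * m) (-(5 + 2 * r))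
    ((n : ℤ_[q]) + r * h * m) (h * m) (-(5 - 2 * r)) (by rw [norm_neg]; exact n1)
    (by rw [norm_neg]; exact n2) (by
      have h4 : (((b : ℤ) * (e : ℤ) ^ 2 : ℤ) : ℤ_[q]) =
          (((n ^ 2 + 10 * h ^ 2 * m ^ 2) ^ 2 - 5 * (2 * h ^ 2 * m ^ 2 - 2 * n * h * m) ^ 2 : ℤ) :
            ℤ_[q]) := by rw [hB, hid]
      push_cast at h4 ⊢
      have f1 : ((n : ℤ_[q]) - r * h * m) ^ 2 - -(5 + 2 * r) * (h * m) ^ 2 =
          ((n : ℤ_[q]) ^ 2 + 10 * h ^ 2 * m ^ 2) + r * (2 * h ^ 2 * m ^ 2 - 2 * n * h * m) := by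
        linear_combination ((h : ℤ_[q]) * m) ^ 2 * hr'
      have f2 : ((n : ℤ_[q]) + r * h * m) ^ 2 - -(5 - 2 * r) * (h * m) ^ 2 =
          ((n : ℤ_[q]) ^ 2 + 10 * h ^ 2 * m ^ 2) - r * (2 * h ^ 2 * m ^ 2 - 2 * n * h * m) := by
        linear_combination ((h : ℤ_[q]) * m) ^ 2 * hr'
      rw [f1, f2, h4]
      linear_combination (2 * (h : ℤ_[q]) ^ 2 * m ^ 2 - 2 * n * h * m) ^ 2 * hr')
  have m5 : PadicInt.toZMod (5 : ℤ_[q]) = 5 := map_ofNat _ 5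
  have m2 : PadicInt.toZMod (2 : ℤ_[q]) = 2 := map_ofNat _ 2
  rcases h3 with h3 | h3
  · refine mod_five hq2 hq5 h1 (PadicInt.toZMod r) ?_ ?_
    · rw [← map_pow, hr']; exact m5
    · have e1 : PadicInt.toZMod (-(5 + 2 * r)) = -(5 + 2 * PadicInt.toZMod r) := by
        rw [map_neg, map_add, map_mul, m5, m2]
      rwa [e1] at h3
  · refine mod_five hq2 hq5 h1 (-PadicInt.toZMod r) ?_ ?_
    · rw [neg_pow, ← map_pow, hr']; norm_num; exact m5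
    · have e1 : PadicInt.toZMod (-(5 - 2 * r)) = -(5 + 2 * -PadicInt.toZMod r) := by
        rw [map_neg, map_sub, map_mul, m5, m2]; ring
      rwa [e1] at h3

/-! ### The family modulo `24` -/

theorem special_twentyfour (a : ℕ) (ha : 0 < a) (N : ℕ) :
    ∃ b : ℕ, 1 < b ∧ Squarefree b ∧ (∀ q : ℕ, q.Prime → q ∣ b → N < q ∧ q % 24 = 1 ∧
      IsSquare ((a : ℕ) : ZMod q)) ∧ IsCongruent (a * b) := by
  obtain ⟨M, hM⟩ : ∃ M : ℕ, M = 42 * a * N.factorial := ⟨_, rfl⟩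
  have hM0 : 0 < M := by rw [hM]; positivity
  have hMz : (0 : ℤ) < (M : ℤ) := by exact_mod_cast hM0
  have hM7 : (7 : ℤ) ∣ (M : ℤ) := by rw [hM]; push_cast; exact ⟨6 * a * N.factorial, by ring⟩
  have hM3 : (3 : ℤ) ∣ (M : ℤ) := by rw [hM]; push_cast; exact ⟨14 * a * N.factorial, by ring⟩
  have hM2 : (2 : ℤ) ∣ (M : ℤ) := by rw [hM]; push_cast; exact ⟨21 * a * N.factorial, by ring⟩
  obtain ⟨z, hz⟩ : ∃ z : ℤ, (a : ℤ) ^ 2 * (M : ℤ) ^ 4 = 49 * z := by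
    obtain ⟨t, ht⟩ := hM7
    exact ⟨(a : ℤ) ^ 2 * (t ^ 2 * (M : ℤ) ^ 2), by rw [ht]; ring⟩
  have hz0 : 1 ≤ z := by
    have h1 : 0 < (a : ℤ) ^ 2 * (M : ℤ) ^ 4 := by positivity
    omega
  obtain ⟨n, hn⟩ : ∃ n : ℤ, n = 1 - 252 * ((a : ℤ) ^ 2 * (M : ℤ) ^ 4) := ⟨_, rfl⟩
  obtain ⟨m, hm⟩ : ∃ m : ℤ, m = 72 * (a : ℤ) * (M : ℤ) ^ 3 := ⟨_, rfl⟩
  obtain ⟨h, hh⟩ : ∃ h : ℤ, h = (a : ℤ) * (M : ℤ) := ⟨_, rfl⟩
  have hnM : (M : ℤ) ∣ n - 1 := ⟨-252 * ((a : ℤ) ^ 2 * (M : ℤ) ^ 3), by rw [hn]; ring⟩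
  have hmM : (M : ℤ) ∣ m := ⟨72 * (a : ℤ) * (M : ℤ) ^ 2, by rw [hm]; ring⟩
  have hnodd : Odd n := by
    obtain ⟨t, ht⟩ := hM2.trans hnM
    exact ⟨t, by linarith⟩
  have hm0 : m ≠ 0 := by
    rw [hm]
    positivity
  have hns : ¬ IsSquare (n ^ 4 + 4 * (a : ℤ) ^ 2 * m ^ 4) := by
    have e2 : 4 * (a : ℤ) ^ 2 * m ^ 4 = 107495424 * ((a : ℤ) ^ 2 * (M : ℤ) ^ 4) ^ 3 := by
      rw [hm]; ring
    rw [e2, hn, hz]
    refine not_square_of_between (k := 63504 * (49 * z) ^ 2 + 16776 * z + 2) (by positivity) ?_ ?_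
    · have h1 : (1 - 252 * (49 * z)) ^ 4 + 107495424 * (49 * z) ^ 3 -
          (63504 * (49 * z) ^ 2 + 16776 * z + 2) ^ 2 =
          23512032 * z ^ 2 - 116496 * z - 3 := by ring
      nlinarith
    · have h1 : (63504 * (49 * z) ^ 2 + 16776 * z + 2 + 1) ^ 2 -
          ((1 - 252 * (49 * z)) ^ 4 + 107495424 * (49 * z) ^ 3) =
          281434176 * z ^ 2 + 150048 * z + 8 := by ring
      nlinarith
  have hid : n ^ 4 + 4 * (a : ℤ) ^ 2 * m ^ 4 =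
      (n ^ 2 + 36 * h ^ 2 * m ^ 2) ^ 2 - 2 * (12 * h ^ 2 * m ^ 2 - 6 * n * h * m) ^ 2 := by
    rw [hh, hn, hm]; ring
  obtain ⟨b, e, hb1, hbs, he, hB, hc⟩ := core ha hnodd hm0 hns
  refine ⟨b, hb1, hbs, ?_, hc⟩
  intro q hq hqb
  have : Fact q.Prime := ⟨hq⟩
  have hqM := not_dvd_M hB hnM hmM hq hqb
  have hqN : N < q := lt_of_not_dvd_factorial hq fun h => hqM (by
    rw [hM]; exact h.mul_left _)
  have hq2' : ¬ (q : ℤ) ∣ (2 : ℤ) := dvd_int hqM hM2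
  have hq3' : ¬ (q : ℤ) ∣ (3 : ℤ) := dvd_int hqM hM3
  have hq2 : q ≠ 2 := by
    rintro rfl
    exact hq2' (by norm_num)
  have hq3 : q ≠ 3 := by
    rintro rfl
    exact hq3' (by norm_num)
  have hqa : ¬ (q : ℤ) ∣ (a : ℤ) := dvd_int hqM (by
    rw [hM]; push_cast; exact ⟨42 * N.factorial, by ring⟩)
  have h1 := neg_one_sq hbs he hB hqb
  refine ⟨hqN, ?_, a_sq hbs he hB hqb hqa⟩
  have h2 := sq_int hbs hqb he _ _ 2 hq2' (hB.trans hid)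
  obtain ⟨r, hr⟩ := exists_sqrt hq2 2 h2 hq2'
  have hr' : r ^ 2 = 2 := by rw [hr]; norm_num
  have hnorm3 : ‖((-3 : ℤ) : ℤ_[q])‖ = 1 := norm_intCast_eq_one (by rwa [dvd_neg])
  have h3 := sq_fact hbs hqb he ((n : ℤ_[q]) - 3 * r * h * m) ((2 + r) * (h * m)) ((-3 : ℤ) : ℤ_[q])
    ((n : ℤ_[q]) + 3 * r * h * m) ((2 - r) * (h * m)) ((-3 : ℤ) : ℤ_[q]) hnorm3 hnorm3 (by
      have h4 : (((b : ℤ) * (e : ℤ) ^ 2 : ℤ) : ℤ_[q]) =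
          (((n ^ 2 + 36 * h ^ 2 * m ^ 2) ^ 2 - 2 * (12 * h ^ 2 * m ^ 2 - 6 * n * h * m) ^ 2 : ℤ) :
            ℤ_[q]) := by rw [hB, hid]
      push_cast at h4 ⊢
      have f1 : ((n : ℤ_[q]) - 3 * r * h * m) ^ 2 - -3 * ((2 + r) * (h * m)) ^ 2 =
          ((n : ℤ_[q]) ^ 2 + 36 * h ^ 2 * m ^ 2) + r * (12 * h ^ 2 * m ^ 2 - 6 * n * h * m) := by
        linear_combination 12 * ((h : ℤ_[q]) * m) ^ 2 * hr'
      have f2 : ((n : ℤ_[q]) + 3 * r * h * m) ^ 2 - -3 * ((2 - r) * (h * m)) ^ 2 =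
          ((n : ℤ_[q]) ^ 2 + 36 * h ^ 2 * m ^ 2) - r * (12 * h ^ 2 * m ^ 2 - 6 * n * h * m) := by
        linear_combination 12 * ((h : ℤ_[q]) * m) ^ 2 * hr'
      rw [f1, f2, h4]
      linear_combination (12 * (h : ℤ_[q]) ^ 2 * m ^ 2 - 6 * n * h * m) ^ 2 * hr')
  have h3' : IsSquare (-3 : ZMod q) := by
    have e1 : PadicInt.toZMod (((-3 : ℤ) : ℤ_[q])) = (-3 : ZMod q) := by
      rw [map_intCast]; push_cast; rfl
    rw [← e1]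
    exact h3.elim id id
  have c3 := mod_three hq2 hq3 h3'
  have c8 := mod_eight hq2 h1 (PadicInt.toZMod r) (by
    rw [← map_pow, hr']; exact map_ofNat _ 2)
  omega

/-- Every natural number `a > 0` has multipliers `b > 1` on special primes with `a * b`
congruent. -/
theorem special (a : ℕ) (ha : 0 < a) (N : ℕ) :
    (∀ D : ℕ, 0 < D → ∃ b : ℕ, 1 < b ∧ Squarefree b ∧
      (∀ q : ℕ, q.Prime → q ∣ b → N < q ∧ q % 4 = 1 ∧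
        IsSquare ((a : ℕ) : ZMod q) ∧ IsSquare ((D : ℕ) : ZMod q)) ∧ IsCongruent (a * b)) ∧
    (∀ μ ∈ ({16, 20, 24} : Finset ℕ), ∃ b : ℕ, 1 < b ∧ Squarefree b ∧
      (∀ q : ℕ, q.Prime → q ∣ b → N < q ∧ q % μ = 1 ∧ IsSquare ((a : ℕ) : ZMod q)) ∧
      IsCongruent (a * b)) := by
  refine ⟨fun D hD => special_square a ha D hD N, ?_⟩
  intro μ hμ
  simp only [Finset.mem_insert, Finset.mem_singleton] at hμ
  rcases hμ with rfl | rfl | rfl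
  · exact special_sixteen a ha N
  · exact special_twenty a ha N
  · exact special_twentyfour a ha N

end Pool.Agent.Work.MP_8efaaa_nt
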