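import Mathlib
import Pool.Agent.Work.MP_8efaaa_nt.Basic
import Pool.Agent.Work.MP_8efaaa_nt.Local
import Pool.Agent.Work.MP_8efaaa_nt.Special

/-! Multipliers on primes modulo which a given trinomial `X ^ 4 + p X + r` has a root. -/

set_option autoImplicit false

namespace Pool.Agent.Work.MP_8efaaa_nt

theorem quad_pos (A B C z : ℤ) (hA : 0 < A) (hz : |B| + |C| + 1 ≤ z) :
    0 < A * z ^ 2 + B * z + C := by
  have h1 := neg_abs_le B
  have h2 := neg_abs_le C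
  have h3 := abs_nonneg B
  have h4 := abs_nonneg C
  have h5 : 0 < z := by linarith
  have h6 : z ^ 2 ≤ A * z ^ 2 := by nlinarith [sq_nonneg z]
  nlinarith

theorem runge (P R : ℤ) (hP : 0 < P) (hR : R ≠ 0) :
    ∃ Z : ℤ, ∀ z : ℤ, Z ≤ z → ¬ IsSquare ((1 - 4 * R * z) ^ 4 + 64 * P * R ^ 2 * z ^ 3) := by
  obtain ⟨v, hv⟩ : ∃ v : ℤ, v = 32 * R ^ 2 := ⟨_, rfl⟩
  have hv0 : 0 < v := by rw [hv]; positivity
  obtain ⟨u, hu⟩ : ∃ u : ℤ, u = 32 * P * R - 4 * P ^ 2 := ⟨_, rfl⟩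
  obtain ⟨g, hg⟩ : ∃ g : ℤ, g = u / v := ⟨_, rfl⟩
  obtain ⟨s, hs⟩ : ∃ s : ℤ, s = u % v := ⟨_, rfl⟩
  have hdiv : u = v * g + s := by rw [hg, hs]; exact (Int.mul_ediv_add_emod u v).symm
  have hs0 : 0 ≤ s := by rw [hs]; exact Int.emod_nonneg _ hv0.ne'
  have hsv : s < v := by rw [hs]; exact Int.emod_lt_of_pos _ hv0
  have key : ∀ c z : ℤ, (1 - 4 * R * z) ^ 4 + 64 * P * R ^ 2 * z ^ 3 -
      ((1 - 4 * R * z) ^ 2 + 2 * P * z + c) ^ 2 =
      (u - v * c) * z ^ 2 + (16 * R * c - 4 * P - 4 * P * c) * z + -(c * (c + 2)) := by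
    intro c z; rw [hu, hv]; ring
  have hk : ∀ c z : ℤ, |2 * P - 8 * R| + |c + 1| + 1 ≤ z →
      0 < (1 - 4 * R * z) ^ 2 + 2 * P * z + c := by
    intro c z hz
    have h1 := quad_pos (16 * R ^ 2) (2 * P - 8 * R) (c + 1) z (by positivity) hz
    have h2 : (1 - 4 * R * z) ^ 2 + 2 * P * z + c =
        16 * R ^ 2 * z ^ 2 + (2 * P - 8 * R) * z + (c + 1) := by ring
    rw [h2]; exact h1
  rcases hs0.lt_or_eq with hs1 | hs1
  · refine ⟨(|2 * P - 8 * R| + |g + 1| + 1) +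
      (|16 * R * g - 4 * P - 4 * P * g| + |-(g * (g + 2))| + 1) +
      (|-(16 * R * (g + 1) - 4 * P - 4 * P * (g + 1))| + |(g + 1) * (g + 1 + 2)| + 1), ?_⟩
    intro z hz
    have a1 := abs_nonneg (2 * P - 8 * R)
    have a2 := abs_nonneg (g + 1)
    have a3 := abs_nonneg (16 * R * g - 4 * P - 4 * P * g)
    have a4 := abs_nonneg (-(g * (g + 2)))
    have a5 := abs_nonneg (-(16 * R * (g + 1) - 4 * P - 4 * P * (g + 1)))
    have a6 := abs_nonneg ((g + 1) * (g + 1 + 2))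
    have h1 := hk g z (by linarith)
    have h2 := quad_pos s (16 * R * g - 4 * P - 4 * P * g) (-(g * (g + 2))) z hs1 (by linarith)
    have h3 := quad_pos (v - s) (-(16 * R * (g + 1) - 4 * P - 4 * P * (g + 1)))
      ((g + 1) * (g + 1 + 2)) z (by linarith) (by linarith)
    have h4 := key g z
    have h5 := key (g + 1) z
    have e1 : u - v * g = s := by linarith
    have e2 : u - v * (g + 1) = s - v := by linarith
    rw [e1] at h4
    rw [e2] at h5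
    refine not_square_of_between (k := (1 - 4 * R * z) ^ 2 + 2 * P * z + g) h1.le (by linarith) ?_
    have e3 : (1 - 4 * R * z) ^ 2 + 2 * P * z + g + 1 =
        (1 - 4 * R * z) ^ 2 + 2 * P * z + (g + 1) := by ring
    rw [e3]
    linarith
  · obtain ⟨c1, hc1⟩ : ∃ c1 : ℤ, c1 = 16 * R * g - 4 * P - 4 * P * g := ⟨_, rfl⟩
    obtain ⟨c0, hc0⟩ : ∃ c0 : ℤ, c0 = -(g * (g + 2)) := ⟨_, rfl⟩
    have hne : c1 ≠ 0 ∨ c0 ≠ 0 := by
      by_contra h
      push Not at h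
      obtain ⟨h1, h2⟩ := h
      rw [hc1] at h1
      rw [hc0, neg_eq_zero, mul_eq_zero] at h2
      rcases h2 with h2 | h2
      · rw [h2] at h1; linarith
      · have h3 : g = -2 := by linarith
        rw [h3] at h1 hdiv
        have h4 : P = 8 * R := by linarith
        rw [← hs1, hu, hv, h4] at hdiv
        have h5 : R ^ 2 = 0 := by linarith
        exact hR (pow_eq_zero_iff (by norm_num) |>.mp h5)
    refine ⟨(|2 * P - 8 * R| + |g + 1| + 1) + (|c0| + 1) +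
      (|2 * (2 * P - 8 * R) - c1| + |2 * (g + 1) + 1 - c0| + 1) +
      (|2 * (2 * P - 8 * R) + c1| + |2 * (g + 1) - 1 + c0| + 1), ?_⟩
    intro z hz
    have a1 := abs_nonneg (2 * P - 8 * R)
    have a2 := abs_nonneg (g + 1)
    have a3 := abs_nonneg c0
    have a4 := abs_nonneg (2 * (2 * P - 8 * R) - c1)
    have a5 := abs_nonneg (2 * (g + 1) + 1 - c0)
    have a6 := abs_nonneg (2 * (2 * P - 8 * R) + c1)
    have a7 := abs_nonneg (2 * (g + 1) - 1 + c0)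
    have h1 := hk g z (by linarith)
    have h2 := quad_pos (32 * R ^ 2) (2 * (2 * P - 8 * R) - c1) (2 * (g + 1) + 1 - c0) z
      (by positivity) (by linarith)
    have h3 := quad_pos (32 * R ^ 2) (2 * (2 * P - 8 * R) + c1) (2 * (g + 1) - 1 + c0) z
      (by positivity) (by linarith)
    have h4 := key g z
    have e1 : u - v * g = 0 := by linarith
    rw [e1, ← hc1, ← hc0] at h4
    have h5 : c1 * z + c0 ≠ 0 := by
      intro h
      rcases eq_or_ne c1 0 with hz1 | hz1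
      · rw [hz1] at h
        rcases hne with h6 | h6
        · exact h6 hz1
        · apply h6; linarith
      · have h6 : |c1 * z| = |c0| := by
          have : c1 * z = -c0 := by linarith
          rw [this, abs_neg]
        rw [abs_mul] at h6
        have h7 : 1 ≤ |c1| := Int.one_le_abs hz1
        have h8 : z ≤ |z| := le_abs_self z
        nlinarith
    rcases lt_or_gt_of_ne h5 with h6 | h6
    · refine not_square_of_between (k := (1 - 4 * R * z) ^ 2 + 2 * P * z + g - 1) (by linarith) ?_ ?_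
      · have e2 : ((1 - 4 * R * z) ^ 2 + 2 * P * z + g - 1) ^ 2 =
            ((1 - 4 * R * z) ^ 2 + 2 * P * z + g) ^ 2 -
            (32 * R ^ 2 * z ^ 2 + (2 * (2 * P - 8 * R) + c1) * z + (2 * (g + 1) - 1 + c0)) +
            (c1 * z + c0) := by ring
        rw [e2]; linarith
      · have e2 : (1 - 4 * R * z) ^ 2 + 2 * P * z + g - 1 + 1 =
            (1 - 4 * R * z) ^ 2 + 2 * P * z + g := by ring
        rw [e2]; linarith
    · refine not_square_of_between (k := (1 - 4 * R * z) ^ 2 + 2 * P * z + g) h1.le (by linarith) ?_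
      have e2 : ((1 - 4 * R * z) ^ 2 + 2 * P * z + g + 1) ^ 2 =
            ((1 - 4 * R * z) ^ 2 + 2 * P * z + g) ^ 2 +
            (32 * R ^ 2 * z ^ 2 + (2 * (2 * P - 8 * R) - c1) * z + (2 * (g + 1) + 1 - c0)) +
            (c1 * z + c0) := by ring
      rw [e2]; linarith

/-- The main family: `X ^ 4 + p X + r` with `p, r` nonzero. -/
theorem quartic_main (a : ℕ) (ha : 0 < a) (p r : ℤ) (hp : p ≠ 0) (hr : r ≠ 0) (N : ℕ) :
    ∃ b : ℕ, 1 < b ∧ Squarefree b ∧ (∀ q : ℕ, q.Prime → q ∣ b → N < q ∧ q % 4 = 1 ∧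
      IsSquare ((a : ℕ) : ZMod q) ∧
      ∃ x : ZMod q, x ^ 4 + ((p : ℤ) : ZMod q) * x + ((r : ℤ) : ZMod q) = 0) ∧
      IsCongruent (a * b) := by
  have hR : r ^ 3 ≠ 0 := pow_ne_zero 3 hr
  have hP : 0 < p ^ 4 := by positivity
  obtain ⟨Z, hZ⟩ := runge (p ^ 4) (r ^ 3) hP hR
  obtain ⟨κ', hκ'⟩ : ∃ k : ℕ, k = 2 * a * p.natAbs * N.factorial * (Z.natAbs + 1) := ⟨_, rfl⟩
  have hp1 : 0 < p.natAbs := Int.natAbs_pos.mpr hp
  have hr1 : 0 < r.natAbs := Int.natAbs_pos.mpr hr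
  have hκ0 : 0 < κ' := by rw [hκ']; positivity
  obtain ⟨M, hM⟩ : ∃ M : ℕ, M = r.natAbs * κ' := ⟨_, rfl⟩
  obtain ⟨κ, hκ⟩ : ∃ k : ℤ, k = r * (κ' : ℤ) := ⟨_, rfl⟩
  have hMκ : (M : ℤ) ∣ κ := by
    rw [hM, hκ]; push_cast
    exact mul_dvd_mul (by simp) dvd_rfl
  have hκM : κ.natAbs = M := by rw [hκ, hM, Int.natAbs_mul, Int.natAbs_natCast]
  have hκne : κ ≠ 0 := by rw [hκ]; positivity
  obtain ⟨n, hn⟩ : ∃ n : ℤ, n = 1 - 4 * (a : ℤ) ^ 2 * r * κ ^ 4 := ⟨_, rfl⟩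
  obtain ⟨m, hm⟩ : ∃ m : ℤ, m = 2 * (a : ℤ) * p * κ ^ 3 := ⟨_, rfl⟩
  obtain ⟨h, hh⟩ : ∃ h : ℤ, h = 2 * (a : ℤ) * κ := ⟨_, rfl⟩
  have hnM : (M : ℤ) ∣ n - 1 := by
    have : n - 1 = κ * (-4 * (a : ℤ) ^ 2 * r * κ ^ 3) := by rw [hn]; ring
    rw [this]; exact hMκ.mul_right _
  have hmM : (M : ℤ) ∣ m := by
    have : m = κ * (2 * (a : ℤ) * p * κ ^ 2) := by rw [hm]; ring
    rw [this]; exact hMκ.mul_right _
  have hnodd : Odd n := ⟨-2 * (a : ℤ) ^ 2 * r * κ ^ 4, by rw [hn]; ring⟩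
  have hm0 : m ≠ 0 := by
    rw [hm]
    have : (a : ℤ) ≠ 0 := by exact_mod_cast ha.ne'
    positivity
  have hns : ¬ IsSquare (n ^ 4 + 4 * (a : ℤ) ^ 2 * m ^ 4) := by
    have h1 := hZ ((a : ℤ) ^ 2 * r ^ 2 * (κ' : ℤ) ^ 4) (by
      have h2 : (Z.natAbs + 1 : ℕ) ≤ κ' := by
        rw [hκ']; exact Nat.le_mul_of_pos_left _ (by positivity)
      have h3 : Z ≤ (κ' : ℤ) := by omega
      have h4 : (κ' : ℤ) ≤ (κ' : ℤ) ^ 4 := le_self_pow₀ (by exact_mod_cast hκ0) (by norm_num)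
      have h5 : (1 : ℤ) ≤ (a : ℤ) ^ 2 * r ^ 2 := by
        have : 0 < (a : ℤ) ^ 2 * r ^ 2 := by positivity
        omega
      nlinarith)
    have e1 : n ^ 4 + 4 * (a : ℤ) ^ 2 * m ^ 4 =
        (1 - 4 * r ^ 3 * ((a : ℤ) ^ 2 * r ^ 2 * (κ' : ℤ) ^ 4)) ^ 4 +
        64 * p ^ 4 * (r ^ 3) ^ 2 * ((a : ℤ) ^ 2 * r ^ 2 * (κ' : ℤ) ^ 4) ^ 3 := by
      rw [hn, hm, hκ]; ring
    rw [e1]; exact h1
  obtain ⟨b, e, hb1, hbs, he, hB, hc⟩ := core ha hnodd hm0 hns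
  refine ⟨b, hb1, hbs, ?_, hc⟩
  intro q hq hqb
  have : Fact q.Prime := ⟨hq⟩
  have hqM := not_dvd_M hB hnM hmM hq hqb
  have hqκ' : ¬ q ∣ κ' := fun h => hqM (by rw [hM]; exact h.mul_left _)
  have hqN : N < q := lt_of_not_dvd_factorial hq fun h => hqκ' (by
    rw [hκ']; exact (h.mul_left _).mul_right _)
  have hq2' : ¬ (q : ℤ) ∣ (2 : ℤ) := dvd_int hqκ' (by
    rw [hκ']; push_cast; exact ⟨a * |p| * N.factorial * (|Z| + 1), by ring⟩)
  have hq2 : q ≠ 2 := by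
    rintro rfl
    exact hq2' (by norm_num)
  have hqa : ¬ (q : ℤ) ∣ (a : ℤ) := dvd_int hqκ' (by
    rw [hκ']; push_cast; exact ⟨2 * |p| * N.factorial * (|Z| + 1), by ring⟩)
  have hqp : ¬ (q : ℤ) ∣ p := by
    intro h1
    apply hqκ'
    rw [hκ']
    have h2 : q ∣ p.natAbs := Int.natCast_dvd.mp h1
    exact (((h2.mul_left _).mul_right _).mul_right _)
  have hqκ : ¬ (q : ℤ) ∣ κ := by
    intro h1
    apply hqM
    rw [← hκM]
    exact Int.natCast_dvd.mp h1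
  have h1 := neg_one_sq hbs he hB hqb
  refine ⟨hqN, mod_four hq2 h1, a_sq hbs he hB hqb hqa, ?_⟩
  have hqI : Prime (q : ℤ) := Nat.prime_iff_prime_int.mp hq
  have hqm : ¬ (q : ℤ) ∣ h * m := by
    intro h2
    rw [hh, hm] at h2
    rcases hqI.dvd_or_dvd h2 with h3 | h3
    · rcases hqI.dvd_or_dvd h3 with h4 | h4
      · rcases hqI.dvd_or_dvd h4 with h5 | h5
        · exact hq2' h5
        · exact hqa h5
      · exact hqκ h4
    · rcases hqI.dvd_or_dvd h3 with h4 | h4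
      · rcases hqI.dvd_or_dvd h4 with h5 | h5
        · rcases hqI.dvd_or_dvd h5 with h6 | h6
          · exact hq2' h6
          · exact hqa h6
        · exact hqp h5
      · exact hqκ (hqI.dvd_of_dvd_pow h4)
  have hid : n ^ 4 + 4 * (a : ℤ) ^ 2 * m ^ 4 = n ^ 4 + p * n * (h * m) ^ 3 + r * (h * m) ^ 4 := by
    rw [hh, hn, hm]; ring
  have h0 : ((n ^ 4 + p * n * (h * m) ^ 3 + r * (h * m) ^ 4 : ℤ) : ZMod q) = 0 := by
    rw [← hid, ← hB, ZMod.intCast_zmod_eq_zero_iff_dvd]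
    exact Dvd.dvd.mul_right (by exact_mod_cast hqb) _
  have hw : ((h * m : ℤ) : ZMod q) ≠ 0 := by
    rw [Ne, ZMod.intCast_zmod_eq_zero_iff_dvd]; exact hqm
  generalize h * m = w at h0 hw
  refine ⟨(n : ZMod q) / (w : ZMod q), ?_⟩
  push_cast at h0
  field_simp
  linear_combination h0

theorem not_sq_int (s c k : ℤ) (hk : 0 ≤ k) (h1 : k ^ 2 < c) (h2 : c < (k + 1) ^ 2) :
    s ^ 2 ≠ c := by
  intro h
  exact not_square_of_between hk h1 h2 ⟨s, by rw [← h]; ring⟩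

/-- From a root of the auxiliary trinomial one gets a fourth root of `D`. -/
theorem fourth_root {F : Type*} [Field F] (D x : F)
    (hden : -D ^ 3 - 132 * D ^ 2 + 528 * D + 64 ≠ 0)
    (hx : x ^ 4 + (-8 * D ^ 2 - 32 * D) * x + (-D ^ 3 + 56 * D ^ 2 - 16 * D) = 0) :
    ∃ θ : F, θ ^ 4 = D := by
  obtain ⟨d, hd⟩ : ∃ d : F, d = -D ^ 3 - 132 * D ^ 2 + 528 * D + 64 := ⟨_, rfl⟩
  obtain ⟨g, hg⟩ : ∃ g : F, g = (-6 * D ^ 3 - 144 * D ^ 2 - 480 * D) +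
    (-6 * D ^ 2 + 112 * D + 32) * x + (28 * D - 16) * x ^ 2 + (D + 20) * x ^ 3 := ⟨_, rfl⟩
  obtain ⟨h, hh⟩ : ∃ h : F, h = (-24) * D ^ 3 + (-32) * D ^ 2 * x + (-1) * D ^ 2 * x ^ 2 +
    (384) * D + (128) * D * x + (4) * D * x ^ 3 + (16) * x ^ 2 + (-16) * x ^ 3 := ⟨_, rfl⟩
  have h1 : g ^ 2 = d * h := by
    rw [hg, hh, hd]
    linear_combination ((1) * D ^ 2 * x ^ 2 + (40) * D * x ^ 2 + (400) * x ^ 2 +
      (56) * D ^ 2 * x + (1088) * D * x + (-640) * x + (-12) * D ^ 3 + (768) * D ^ 2 +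
      (3648) * D + (1536)) * hx
  have h2 : h ^ 2 = D * d ^ 2 := by
    rw [hh, hd]
    linear_combination ((16) * D ^ 2 * x ^ 2 + (-128) * D * x ^ 2 + (256) * x ^ 2 +
      (-8) * D ^ 3 * x + (32) * D ^ 2 * x + (128) * D * x + (-512) * x + (-256) * D ^ 3 +
      (2016) * D ^ 2 + (1) * D ^ 4 + (-4096) * D + (256)) * hx
  rw [← hd] at hden
  refine ⟨g / d, ?_⟩
  rw [div_pow, div_eq_iff (pow_ne_zero 4 hden)]
  calc g ^ 4 = (g ^ 2) ^ 2 := by ring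
    _ = (d * h) ^ 2 := by rw [h1]
    _ = d ^ 2 * h ^ 2 := by ring
    _ = d ^ 2 * (D * d ^ 2) := by rw [h2]
    _ = D * d ^ 4 := by ring

/-- For all `p, r` there are multipliers on primes modulo which `X ^ 4 + p X + r` has a root. -/
theorem quartic_all (a : ℕ) (ha : 0 < a) (p r : ℤ) (N : ℕ) :
    ∃ b : ℕ, 1 < b ∧ Squarefree b ∧ (∀ q : ℕ, q.Prime → q ∣ b → N < q ∧ q % 4 = 1 ∧
      IsSquare ((a : ℕ) : ZMod q) ∧
      ∃ x : ZMod q, x ^ 4 + ((p : ℤ) : ZMod q) * x + ((r : ℤ) : ZMod q) = 0) ∧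
      IsCongruent (a * b) := by
  rcases eq_or_ne r 0 with hr | hr
  · obtain ⟨b, h1, h2, h3, h4⟩ := quartic_main a ha 1 1 one_ne_zero one_ne_zero N
    refine ⟨b, h1, h2, fun q hq hqb => ?_, h4⟩
    obtain ⟨c1, c2, c3, _⟩ := h3 q hq hqb
    exact ⟨c1, c2, c3, 0, by rw [hr]; simp⟩
  rcases ne_or_eq p 0 with hp | hp
  · exact quartic_main a ha p r hp hr N
  subst hp
  obtain ⟨D, hD⟩ : ∃ D : ℤ, D = -r := ⟨_, rfl⟩
  have hr' : r = -D := by rw [hD]; ring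
  have hD0 : D ≠ 0 := by rw [hD]; exact neg_ne_zero.mpr hr
  subst hr'
  rcases eq_or_ne D (-4) with hD4 | hD4
  · obtain ⟨b, h1, h2, h3, h4⟩ := quartic_main a ha 1 1 one_ne_zero one_ne_zero N
    refine ⟨b, h1, h2, fun q hq hqb => ?_, h4⟩
    have : Fact q.Prime := ⟨hq⟩
    obtain ⟨c1, c2, c3, _⟩ := h3 q hq hqb
    refine ⟨c1, c2, c3, ?_⟩
    obtain ⟨i, hi⟩ := ZMod.exists_sq_eq_neg_one_iff.mpr (by omega : q % 4 ≠ 3)
    refine ⟨1 + i, ?_⟩
    rw [hD4]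
    push_cast
    linear_combination (-(i * i) - 4 * i - 5) * hi
  rcases eq_or_ne D 4 with hD4' | hD4'
  · obtain ⟨b, h1, h2, h3, h4⟩ := special_square a ha 2 (by norm_num) N
    refine ⟨b, h1, h2, fun q hq hqb => ?_, h4⟩
    obtain ⟨c1, c2, c3, c4⟩ := h3 q hq hqb
    refine ⟨c1, c2, c3, ?_⟩
    obtain ⟨s, hs⟩ := c4
    refine ⟨s, ?_⟩
    rw [hD4']
    push_cast at hs ⊢
    linear_combination (-(s * s) - 2) * hs
  have hp' : -8 * D ^ 2 - 32 * D ≠ 0 := by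
    intro h
    have h1 : D * (D + 4) = 0 := by linarith
    rcases mul_eq_zero.mp h1 with h2 | h2
    · exact hD0 h2
    · exact hD4 (by linarith)
  have hr' : -D ^ 3 + 56 * D ^ 2 - 16 * D ≠ 0 := by
    intro h
    have h1 : D * ((D - 28) ^ 2 - 768) = 0 := by linear_combination (-1 : ℤ) * h
    rcases mul_eq_zero.mp h1 with h2 | h2
    · exact hD0 h2
    · exact not_sq_int (D - 28) 768 27 (by norm_num) (by norm_num) (by norm_num) (by linarith)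
  have hden : -D ^ 3 - 132 * D ^ 2 + 528 * D + 64 ≠ 0 := by
    intro h
    have h1 : (D - 4) * ((D + 68) ^ 2 - 4608) = 0 := by linear_combination (-1 : ℤ) * h
    rcases mul_eq_zero.mp h1 with h2 | h2
    · exact hD4' (by linarith)
    · exact not_sq_int (D + 68) 4608 67 (by norm_num) (by norm_num) (by norm_num) (by linarith)
  obtain ⟨b, h1, h2, h3, h4⟩ := quartic_main a ha (-8 * D ^ 2 - 32 * D)
    (-D ^ 3 + 56 * D ^ 2 - 16 * D) hp' hr'
    (max N (-D ^ 3 - 132 * D ^ 2 + 528 * D + 64).natAbs)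
  refine ⟨b, h1, h2, fun q hq hqb => ?_, h4⟩
  have : Fact q.Prime := ⟨hq⟩
  obtain ⟨c1, c2, c3, x, hx⟩ := h3 q hq hqb
  refine ⟨lt_of_le_of_lt (le_max_left _ _) c1, c2, c3, ?_⟩
  have hq1 : (-D ^ 3 - 132 * D ^ 2 + 528 * D + 64).natAbs < q :=
    lt_of_le_of_lt (le_max_right _ _) c1
  have hd : ((-D ^ 3 - 132 * D ^ 2 + 528 * D + 64 : ℤ) : ZMod q) ≠ 0 := by
    rw [Ne, ZMod.intCast_zmod_eq_zero_iff_dvd]
    intro h5
    have h6 := Nat.le_of_dvd (Int.natAbs_pos.mpr hden) (Int.natCast_dvd.mp h5)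
    omega
  push_cast at hx hd
  obtain ⟨θ, hθ⟩ := fourth_root (D : ZMod q) x hd (by linear_combination hx)
  refine ⟨θ, ?_⟩
  push_cast
  linear_combination hθ

/-- Every natural number `a > 0` has multipliers `b > 1` on special primes with `a * b`
congruent. -/
theorem special_all (a : ℕ) (ha : 0 < a) (N : ℕ) :
    (∀ p r : ℤ, ∃ b : ℕ, 1 < b ∧ Squarefree b ∧
      (∀ q : ℕ, q.Prime → q ∣ b → N < q ∧ q % 4 = 1 ∧ IsSquare ((a : ℕ) : ZMod q) ∧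
        ∃ x : ZMod q, x ^ 4 + ((p : ℤ) : ZMod q) * x + ((r : ℤ) : ZMod q) = 0) ∧
      IsCongruent (a * b)) ∧
    (∀ μ ∈ ({16, 20, 24} : Finset ℕ), ∃ b : ℕ, 1 < b ∧ Squarefree b ∧
      (∀ q : ℕ, q.Prime → q ∣ b → N < q ∧ q % μ = 1 ∧ IsSquare ((a : ℕ) : ZMod q)) ∧
      IsCongruent (a * b)) :=
  ⟨fun p r => quartic_all a ha p r N, (special a ha N).2⟩

end Pool.Agent.Work.MP_8efaaa_nt
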