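import Mathlib
import Pool.Agent.Work.MP_8efaaa_nt.Basic
import Pool.Agent.Work.MP_8efaaa_nt.One
import Pool.Agent.Work.MP_8efaaa_nt.Curve

set_option autoImplicit false

namespace Pool.Agent.Work.MP_8efaaa_nt

/-- Duplication of a primitive solution. -/
def dup (c : ℕ) (p : ℤ × ℤ × ℤ × ℤ) : ℤ × ℤ × ℤ × ℤ :=
  (p.1 ^ 4 + (c : ℤ) ^ 2 * p.2.1 ^ 4, 2 * p.1 * p.2.1 * p.2.2.1 * p.2.2.2,
    |p.1 ^ 4 + 2 * c * p.1 ^ 2 * p.2.1 ^ 2 - (c : ℤ) ^ 2 * p.2.1 ^ 4|,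
    |p.1 ^ 4 - 2 * c * p.1 ^ 2 * p.2.1 ^ 2 - (c : ℤ) ^ 2 * p.2.1 ^ 4|)

namespace Prim

variable {c : ℕ} {x y z t : ℤ}

theorem D_coprime (h : Prim c x y z t) (hc : Squarefree c) :
    IsCoprime (x ^ 4 + (c : ℤ) ^ 2 * y ^ 4) (2 * x * y * z * t) := by
  rw [Int.isCoprime_iff_gcd_eq_one]
  by_contra hg
  obtain ⟨r, hr, hrd⟩ := Nat.exists_prime_and_dvd hg
  have hrI : Prime (r : ℤ) := Nat.prime_iff_prime_int.mp hr
  have h1 : (r : ℤ) ∣ x ^ 4 + (c : ℤ) ^ 2 * y ^ 4 :=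
    (Int.natCast_dvd_natCast.mpr hrd).trans (Int.gcd_dvd_left _ _)
  have h2 : (r : ℤ) ∣ 2 * x * y * z * t :=
    (Int.natCast_dvd_natCast.mpr hrd).trans (Int.gcd_dvd_right _ _)
  set A := x ^ 4 - (c : ℤ) ^ 2 * y ^ 4 with hA
  set B := 2 * (c : ℤ) * x ^ 2 * y ^ 2 with hB
  have hAzt : A = (z * t) ^ 2 := h.A_eq
  have hodd : Odd (x ^ 4 + (c : ℤ) ^ 2 * y ^ 4) :=
    (h.odd_x hc).pow.add_even (((h.even_y hc).pow_of_ne_zero (by norm_num)).mul_left _)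
  have h2AB : (r : ℤ) ∣ 2 * (A * B) := by
    have : 2 * (A * B) = (2 * x * y * z * t) * (c * (2 * x * y * z * t)) := by
      rw [hAzt, hB]; ring
    rw [this]
    exact h2.mul_right _
  have hsq : A ^ 2 + B ^ 2 = (x ^ 4 + (c : ℤ) ^ 2 * y ^ 4) ^ 2 := by rw [hA, hB]; ring
  have hco : IsCoprime A B := h.coprime_AB hc
  rcases hrI.dvd_or_dvd h2AB with h3 | h3
  · have h4 : (2 : ℤ) ∣ x ^ 4 + (c : ℤ) ^ 2 * y ^ 4 := by
      have : r = 2 := by
        have : r ∣ 2 := by exact_mod_cast h3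
        exact (Nat.prime_dvd_prime_iff_eq hr Nat.prime_two).mp this
      rw [this] at h1; exact_mod_cast h1
    exact (Int.not_even_iff_odd.mpr hodd) (even_iff_two_dvd.mpr h4)
  · have hD2 : (r : ℤ) ∣ A ^ 2 + B ^ 2 := by rw [hsq]; exact dvd_pow h1 (by norm_num)
    rcases hrI.dvd_or_dvd h3 with h4 | h4
    · have h5 : (r : ℤ) ∣ B := by
        apply hrI.dvd_of_dvd_pow (n := 2)
        exact (dvd_add_right (dvd_pow h4 (by norm_num))).mp hD2
      exact hrI.not_isUnit (hco.isUnit_of_dvd' h4 h5)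
    · have h5 : (r : ℤ) ∣ A := by
        apply hrI.dvd_of_dvd_pow (n := 2)
        exact (dvd_add_left (dvd_pow h4 (by norm_num))).mp hD2
      exact hrI.not_isUnit (hco.isUnit_of_dvd' h5 h4)

theorem D_coprime_c (h : Prim c x y z t) (hc : Squarefree c) :
    IsCoprime (x ^ 4 + (c : ℤ) ^ 2 * y ^ 4) (c : ℤ) := by
  have hco : IsCoprime (x ^ 4 - (c : ℤ) ^ 2 * y ^ 4) (c : ℤ) := by
    have := h.coprime_AB hc
    exact (this.of_mul_right_left).of_mul_right_left.of_mul_right_right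
  have h2 := hco.add_mul_right_left (2 * c * y ^ 4)
  rwa [show x ^ 4 - (c : ℤ) ^ 2 * y ^ 4 + 2 * c * y ^ 4 * c = x ^ 4 + (c : ℤ) ^ 2 * y ^ 4 by ring]
    at h2

theorem double (h : Prim c x y z t) (hc : Squarefree c) :
    Prim c (x ^ 4 + (c : ℤ) ^ 2 * y ^ 4) (2 * x * y * z * t)
      |x ^ 4 + 2 * c * x ^ 2 * y ^ 2 - (c : ℤ) ^ 2 * y ^ 4|
      |x ^ 4 - 2 * c * x ^ 2 * y ^ 2 - (c : ℤ) ^ 2 * y ^ 4| := by
  have hx := h.hx
  have hy := h.hy
  have hz := h.hz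
  have ht := h.ht
  have hxo := h.odd_x hc
  have hye := h.even_y hc
  have e1 := h.e1
  have e2 := h.e2
  have hA := h.A_eq
  constructor
  · positivity
  · positivity
  · apply abs_pos.mpr
    intro h0
    have : Odd (x ^ 4 + 2 * c * x ^ 2 * y ^ 2 - (c : ℤ) ^ 2 * y ^ 4) := by
      apply Odd.sub_even
      · exact hxo.pow.add_even ((hye.pow_of_ne_zero (by norm_num)).mul_left _)
      · exact (hye.pow_of_ne_zero (by norm_num)).mul_left _
    rw [h0] at this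
    exact absurd this (by decide)
  · apply abs_pos.mpr
    intro h0
    have : Odd (x ^ 4 - 2 * c * x ^ 2 * y ^ 2 - (c : ℤ) ^ 2 * y ^ 4) := by
      apply Odd.sub_even
      · exact hxo.pow.sub_even ((hye.pow_of_ne_zero (by norm_num)).mul_left _)
      · exact (hye.pow_of_ne_zero (by norm_num)).mul_left _
    rw [h0] at this
    exact absurd this (by decide)
  · exact h.D_coprime hc
  · rw [sq_abs]
    linear_combination (-4 * (c : ℤ) * x ^ 2 * y ^ 2) * hA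
  · rw [sq_abs]
    linear_combination (4 * (c : ℤ) * x ^ 2 * y ^ 2) * hA

end Prim

/-- Primitivity for a quadruple. -/
def PrimT (c : ℕ) (p : ℤ × ℤ × ℤ × ℤ) : Prop := Prim c p.1 p.2.1 p.2.2.1 p.2.2.2

theorem PrimT.dup {c : ℕ} {p : ℤ × ℤ × ℤ × ℤ} (h : PrimT c p) (hc : Squarefree c) :
    PrimT c (dup c p) := Prim.double h hc

theorem PrimT.iter {c : ℕ} {p : ℤ × ℤ × ℤ × ℤ} (h : PrimT c p) (hc : Squarefree c) (n : ℕ) :
    PrimT c ((MP_8efaaa_nt.dup c)^[n] p) := by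
  induction n with
  | zero => exact h
  | succ n ih => rw [Function.iterate_succ_apply']; exact ih.dup hc

/-- If a prime `q` divides the `n`-th numerator, then the base point has order `2 ^ (n + 1)`
modulo `q`. -/
theorem order_chain {c q : ℕ} [Fact q.Prime] (hc : Squarefree c) (hcq : (c : ZMod q) ≠ 0)
    (h2 : (2 : ZMod q) ≠ 0) (n : ℕ) :
    ∀ p : ℤ × ℤ × ℤ × ℤ, PrimT c p → (q : ℤ) ∣ ((MP_8efaaa_nt.dup c)^[n] p).1 →
      ((p.2.1 : ℤ) : ZMod q) ≠ 0 ∧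
      ∀ (X Y : ZMod q) (h : (Ec (c : ZMod q)).Nonsingular X Y),
        X = (((p.1 : ℤ) : ZMod q) / ((p.2.1 : ℤ) : ZMod q)) ^ 2 →
        2 ^ n • (WeierstrassCurve.Affine.Point.some X Y h) ≠ 0 ∧
        2 ^ (n + 1) • (WeierstrassCurve.Affine.Point.some X Y h) = 0 := by
  have hqp : q.Prime := Fact.out
  have hqI : Prime (q : ℤ) := Nat.prime_iff_prime_int.mp hqp
  induction n with
  | zero =>
    intro p hp hq
    simp only [Function.iterate_zero, id_eq] at hq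
    have hy0 : ((p.2.1 : ℤ) : ZMod q) ≠ 0 := by
      intro h0
      have h3 : (q : ℤ) ∣ p.2.1 := (ZMod.intCast_zmod_eq_zero_iff_dvd _ _).mp h0
      exact hqI.not_isUnit (hp.cop.isUnit_of_dvd' hq h3)
    refine ⟨hy0, ?_⟩
    intro X Y h hX
    have hx0 : ((p.1 : ℤ) : ZMod q) = 0 := (ZMod.intCast_zmod_eq_zero_iff_dvd _ _).mpr hq
    rw [hx0, zero_div, zero_pow two_ne_zero] at hX
    have hY : Y = 0 := by
      have := (Ec_nonsingular h2 hcq X Y).mp h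
      rw [hX] at this
      have h3 : Y ^ 2 = 0 := by rw [this]; ring
      exact pow_eq_zero_iff two_ne_zero |>.mp h3
    constructor
    · rw [pow_zero, one_smul]
      exact WeierstrassCurve.Affine.Point.some_ne_zero h
    · rw [zero_add, pow_one, two_smul]
      apply WeierstrassCurve.Affine.Point.add_self_of_Y_eq
      simp only [WeierstrassCurve.Affine.negY, Ec]
      rw [hY]; ring
  | succ n ih =>
    intro p hp hq
    rw [Function.iterate_succ_apply] at hq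
    obtain ⟨hy1, hP⟩ := ih _ (hp.dup hc) hq
    have hy1' : (2 : ZMod q) * ((p.1 : ℤ) : ZMod q) * ((p.2.1 : ℤ) : ZMod q) *
        ((p.2.2.1 : ℤ) : ZMod q) * ((p.2.2.2 : ℤ) : ZMod q) ≠ 0 := by
      have : (((dup c p).2.1 : ℤ) : ZMod q) = (2 : ZMod q) * ((p.1 : ℤ) : ZMod q) *
        ((p.2.1 : ℤ) : ZMod q) * ((p.2.2.1 : ℤ) : ZMod q) * ((p.2.2.2 : ℤ) : ZMod q) := by
        simp only [MP_8efaaa_nt.dup]; push_cast; ring
      rwa [this] at hy1
    have ht : ((p.2.2.2 : ℤ) : ZMod q) ≠ 0 := right_ne_zero_of_mul hy1'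
    have hz : ((p.2.2.1 : ℤ) : ZMod q) ≠ 0 := right_ne_zero_of_mul (left_ne_zero_of_mul hy1')
    have hy : ((p.2.1 : ℤ) : ZMod q) ≠ 0 :=
      right_ne_zero_of_mul (left_ne_zero_of_mul (left_ne_zero_of_mul hy1'))
    have hx : ((p.1 : ℤ) : ZMod q) ≠ 0 :=
      right_ne_zero_of_mul (left_ne_zero_of_mul (left_ne_zero_of_mul (left_ne_zero_of_mul hy1')))
    refine ⟨hy, ?_⟩
    intro X Y h hX
    have hEq := (Ec_nonsingular h2 hcq X Y).mp h
    have hA : ((p.1 : ℤ) : ZMod q) ^ 4 - (c : ZMod q) ^ 2 * ((p.2.1 : ℤ) : ZMod q) ^ 4 =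
        (((p.2.2.1 : ℤ) : ZMod q) * ((p.2.2.2 : ℤ) : ZMod q)) ^ 2 := by
      have := hp.A_eq
      have h3 : ((p.1 ^ 4 - (c : ℤ) ^ 2 * p.2.1 ^ 4 : ℤ) : ZMod q) =
        (((p.2.2.1 * p.2.2.2) ^ 2 : ℤ) : ZMod q) := by rw [this]
      push_cast at h3
      exact h3
    have hY2 : Y ^ 2 = (((p.1 : ℤ) : ZMod q) * ((p.2.2.1 : ℤ) : ZMod q) *
        ((p.2.2.2 : ℤ) : ZMod q) / ((p.2.1 : ℤ) : ZMod q) ^ 3) ^ 2 := by
      rw [hEq, hX]
      field_simp
      linear_combination hA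
    have hY0 : Y ≠ 0 := by
      intro h0
      rw [h0, zero_pow two_ne_zero] at hY2
      have h3 := pow_eq_zero_iff two_ne_zero |>.mp hY2.symm
      exact (div_ne_zero (mul_ne_zero (mul_ne_zero hx hz) ht) (pow_ne_zero 3 hy)) h3
    obtain ⟨Y', h', hadd⟩ := Ec_double h2 hcq h hY0
    have hX' : ((X ^ 2 + (c : ZMod q) ^ 2) / (2 * Y)) ^ 2 =
        ((((dup c p).1 : ℤ) : ZMod q) / (((dup c p).2.1 : ℤ) : ZMod q)) ^ 2 := by
      rw [div_pow, mul_pow, hY2, hX]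
      simp only [MP_8efaaa_nt.dup]
      push_cast
      field_simp
    obtain ⟨hne, heq⟩ := hP _ Y' h' hX'
    rw [← hadd, ← two_smul ℕ, smul_smul] at hne heq
    constructor
    · rw [pow_succ]; exact hne
    · rw [pow_succ]; exact heq

/-- The transfer theorem. -/
theorem transfer (c : ℕ) (hc : Squarefree c) (hcong : IsCongruent c) (k : ℕ) :
    ∃ b : ℕ, 1 < b ∧ Squarefree b ∧ Nat.Coprime b (2 * c) ∧
      (∀ q : ℕ, q.Prime → q ∣ b → 2 ^ k ∣ q - 1 ∧ IsSquare ((c : ℕ) : ZMod q)) ∧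
      IsCongruent (2 * c * b) := by
  obtain ⟨x₀, y₀, z₀, t₀, h₀⟩ := exists_prim hcong
  set p₀ : ℤ × ℤ × ℤ × ℤ := (x₀, y₀, z₀, t₀) with hp₀
  have hP₀ : PrimT c p₀ := h₀
  set p := (dup c)^[2 * k] p₀ with hp
  have hP : PrimT c p := hP₀.iter hc _
  have hnext : (dup c)^[2 * k + 1] p₀ = dup c p := by rw [Function.iterate_succ_apply']
  obtain ⟨x, y, z, t⟩ := p
  have h : Prim c x y z t := hP
  have hc0 : 0 < c := Nat.pos_of_ne_zero hc.ne_zero
  have hx := h.hx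
  have hy := h.hy
  have hz := h.hz
  have ht := h.ht
  have e1 := h.e1
  have e2 := h.e2
  set D := x ^ 4 + (c : ℤ) ^ 2 * y ^ 4 with hD
  have hDpos : 0 < D := by positivity
  have hsum : z ^ 4 + t ^ 4 = 2 * D := by
    have h1 : z ^ 4 = (x ^ 2 + (c : ℤ) * y ^ 2) ^ 2 := by rw [e1]; ring
    have h2 : t ^ 4 = (x ^ 2 - (c : ℤ) * y ^ 2) ^ 2 := by rw [e2]; ring
    rw [h1, h2, hD]; ring
  have hDodd : Odd D :=
    (h.odd_x hc).pow.add_even (((h.even_y hc).pow_of_ne_zero (by norm_num)).mul_left _)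
  -- squarefree part
  obtain ⟨n, hn⟩ := Int.eq_ofNat_of_zero_le hDpos.le
  obtain ⟨b, g, hbg, hb⟩ := Nat.sq_mul_squarefree n
  have hDbg : D = (g : ℤ) ^ 2 * b := by rw [hn]; exact_mod_cast hbg.symm
  have hg : g ≠ 0 := by
    rintro rfl
    rw [hDbg] at hDpos
    simp at hDpos
  have hb0 : 0 < b := Nat.pos_of_ne_zero hb.ne_zero
  have hbD : (b : ℤ) ∣ D := ⟨(g : ℤ) ^ 2, by rw [hDbg]; ring⟩
  refine ⟨b, ?_, hb, ?_, ?_, ?_⟩
  · by_contra hb1
    have hb1' : b = 1 := by omega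
    subst hb1'
    rw [Nat.cast_one, mul_one] at hDbg
    have hzt : z ≠ t := by
      rintro rfl
      have : (c : ℤ) * y ^ 2 = 0 := by linarith
      have h3 : 0 < (c : ℤ) * y ^ 2 := by positivity
      linarith
    exact quartic_ne (h.odd_z hc) (h.odd_t hc) hz ht hzt (by rw [hsum, hDbg])
  · -- coprime to 2c
    have h1 : IsCoprime D (2 : ℤ) := Int.isCoprime_two_right.mpr hDodd
    have h2 : IsCoprime D (c : ℤ) := h.D_coprime_c hc
    have h3 : IsCoprime (b : ℤ) (2 * c : ℤ) := (h1.mul_right h2).of_isCoprime_of_dvd_left hbD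
    have h4 : IsCoprime ((b : ℕ) : ℤ) (((2 * c : ℕ) : ℕ) : ℤ) := by push_cast; exact h3
    exact Nat.isCoprime_iff_coprime.mp h4
  · intro q hq hqb
    have : Fact q.Prime := ⟨hq⟩
    have hqI : Prime (q : ℤ) := Nat.prime_iff_prime_int.mp hq
    have hqD : (q : ℤ) ∣ D := (Int.natCast_dvd_natCast.mpr hqb).trans hbD
    have hDq : ((D : ℤ) : ZMod q) = 0 := (ZMod.intCast_zmod_eq_zero_iff_dvd _ _).mpr hqD
    have hq2 : q ≠ 2 := by
      rintro rfl
      exact (Int.not_even_iff_odd.mpr hDodd) (even_iff_two_dvd.mpr (by exact_mod_cast hqD))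
    have h2 : (2 : ZMod q) ≠ 0 := by
      intro h0
      have : ((2 : ℕ) : ZMod q) = 0 := by exact_mod_cast h0
      rw [ZMod.natCast_eq_zero_iff] at this
      exact hq2 ((Nat.prime_dvd_prime_iff_eq hq Nat.prime_two).mp this)
    have hcop := h.D_coprime hc
    have hprod : (2 : ZMod q) * (x : ZMod q) * (y : ZMod q) * (z : ZMod q) * (t : ZMod q) ≠ 0 := by
      intro h0
      have h3 : ((2 * x * y * z * t : ℤ) : ZMod q) = 0 := by push_cast; exact h0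
      exact hqI.not_isUnit (hcop.isUnit_of_dvd' hqD ((ZMod.intCast_zmod_eq_zero_iff_dvd _ _).mp h3))
    have ht0 : (t : ZMod q) ≠ 0 := right_ne_zero_of_mul hprod
    have hz0 : (z : ZMod q) ≠ 0 := right_ne_zero_of_mul (left_ne_zero_of_mul hprod)
    have hy0 : (y : ZMod q) ≠ 0 :=
      right_ne_zero_of_mul (left_ne_zero_of_mul (left_ne_zero_of_mul hprod))
    have hx0 : (x : ZMod q) ≠ 0 :=
      right_ne_zero_of_mul (left_ne_zero_of_mul (left_ne_zero_of_mul (left_ne_zero_of_mul hprod)))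
    have hcq : (c : ZMod q) ≠ 0 := by
      intro h0
      have h3 : (q : ℤ) ∣ (c : ℤ) := by
        apply (ZMod.intCast_zmod_eq_zero_iff_dvd _ _).mp
        exact_mod_cast h0
      exact hqI.not_isUnit ((h.D_coprime_c hc).isUnit_of_dvd' hqD h3)
    have hDq' : (x : ZMod q) ^ 4 + (c : ZMod q) ^ 2 * (y : ZMod q) ^ 4 = 0 := by
      rw [← hDq, hD]; push_cast; ring
    have e1q : (x : ZMod q) ^ 2 + (c : ZMod q) * (y : ZMod q) ^ 2 = (z : ZMod q) ^ 2 := by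
      have : ((x ^ 2 + (c : ℤ) * y ^ 2 : ℤ) : ZMod q) = ((z ^ 2 : ℤ) : ZMod q) := by rw [e1]
      push_cast at this; exact this
    have e2q : (x : ZMod q) ^ 2 - (c : ZMod q) * (y : ZMod q) ^ 2 = (t : ZMod q) ^ 2 := by
      have : ((x ^ 2 - (c : ℤ) * y ^ 2 : ℤ) : ZMod q) = ((t ^ 2 : ℤ) : ZMod q) := by rw [e2]
      push_cast at this; exact this
    have hsumq : (z : ZMod q) ^ 4 + (t : ZMod q) ^ 4 = 0 := by
      linear_combination (-(x : ZMod q) ^ 2 - (c : ZMod q) * (y : ZMod q) ^ 2 - (z : ZMod q) ^ 2)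
        * e1q + (-(x : ZMod q) ^ 2 + (c : ZMod q) * (y : ZMod q) ^ 2 - (t : ZMod q) ^ 2) * e2q
        + 2 * hDq'
    set ζ : ZMod q := (z : ZMod q) / (t : ZMod q) with hζ
    have hζt : ζ * (t : ZMod q) = (z : ZMod q) := by rw [hζ]; field_simp
    have hζ4 : ζ ^ 4 = -1 := by
      rw [hζ, div_pow, div_eq_iff (pow_ne_zero _ ht0)]
      linear_combination hsumq
    have hneg : quadraticChar (ZMod q) (-1) = 1 := by
      rw [quadraticChar_one_iff_isSquare (neg_ne_zero.mpr one_ne_zero)]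
      exact ⟨ζ ^ 2, by rw [← hζ4]; ring⟩
    have hF : ringChar (ZMod q) ≠ 2 := by rw [ZMod.ringChar_zmod_n]; exact hq2
    have hsqc : IsSquare ((c : ℕ) : ZMod q) := by
      refine ⟨ζ * (x : ZMod q) / (y : ZMod q), ?_⟩
      have hkey : (c : ZMod q) * (y : ZMod q) ^ 2 = ζ ^ 2 * (x : ZMod q) ^ 2 := by
        -- x² + c y² = ζ² (x² - c y²)
        have h3 : (x : ZMod q) ^ 2 + (c : ZMod q) * (y : ZMod q) ^ 2 =
            ζ ^ 2 * ((x : ZMod q) ^ 2 - (c : ZMod q) * (y : ZMod q) ^ 2) := by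
          rw [e1q, e2q, ← hζt]; ring
        have h4 : 2 * ((c : ZMod q) * (y : ZMod q) ^ 2) = 2 * (ζ ^ 2 * (x : ZMod q) ^ 2) := by
          linear_combination (1 - ζ ^ 2) * h3 - ((x : ZMod q) ^ 2
            - (c : ZMod q) * (y : ZMod q) ^ 2) * hζ4
        exact mul_left_cancel₀ h2 h4
      field_simp
      linear_combination hkey
    refine ⟨?_, hsqc⟩
    -- the order argument
    have hq1 : (q : ℤ) ∣ ((dup c)^[2 * k + 1] p₀).1 := by
      rw [hnext]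
      exact hqD
    obtain ⟨hy₀, hpt⟩ := order_chain hc hcq h2 (2 * k + 1) p₀ hP₀ hq1
    have hA₀ : ((x₀ : ℤ) : ZMod q) ^ 4 - (c : ZMod q) ^ 2 * ((y₀ : ℤ) : ZMod q) ^ 4 =
        (((z₀ : ℤ) : ZMod q) * ((t₀ : ℤ) : ZMod q)) ^ 2 := by
      have := h₀.A_eq
      have h3 : ((x₀ ^ 4 - (c : ℤ) ^ 2 * y₀ ^ 4 : ℤ) : ZMod q) =
        (((z₀ * t₀) ^ 2 : ℤ) : ZMod q) := by rw [this]
      push_cast at h3
      exact h3
    have hy₀' : ((y₀ : ℤ) : ZMod q) ≠ 0 := hy₀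
    have hns : (Ec (c : ZMod q)).Nonsingular ((((x₀ : ℤ) : ZMod q) / ((y₀ : ℤ) : ZMod q)) ^ 2)
        (((x₀ : ℤ) : ZMod q) * ((z₀ : ℤ) : ZMod q) * ((t₀ : ℤ) : ZMod q) /
          ((y₀ : ℤ) : ZMod q) ^ 3) := by
      rw [Ec_nonsingular h2 hcq]
      field_simp
      linear_combination (-((x₀ : ℤ) : ZMod q) ^ 2) * hA₀
    obtain ⟨hne, heq⟩ := hpt _ _ hns rfl
    have hord : addOrderOf (WeierstrassCurve.Affine.Point.some _ _ hns) = 2 ^ (2 * (k + 1)) := by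
      have := addOrderOf_eq_prime_pow (p := 2) (n := 2 * k + 1) hne heq
      rw [this, show 2 * k + 1 + 1 = 2 * (k + 1) by ring]
    have hdvd := card_congr_of_order hF hneg hcq _ hord (by omega)
    rw [ZMod.card] at hdvd
    have hq1' : 1 ≤ q := hq.one_lt.le
    have h5 : (((2 ^ (k + 1 + 1) : ℕ)) : ℤ) ∣ ((q - 1 : ℕ) : ℤ) := by
      push_cast [hq1']
      exact hdvd
    have h6 : 2 ^ (k + 1 + 1) ∣ q - 1 := by exact_mod_cast h5
    exact (pow_dvd_pow 2 (by omega)).trans h6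
  · -- congruent
    have hg' : (0 : ℤ) < g := by
      have : 0 < g := Nat.pos_of_ne_zero hg
      exact_mod_cast this
    refine isCongruent_of_area (by positivity) (m := z ^ 4) (n := t ^ 4)
      (w := 2 * x * y * g * z ^ 2 * t ^ 2) (by positivity) ?_
    have hdiff : z ^ 4 - t ^ 4 = 4 * c * x ^ 2 * y ^ 2 := by
      have h1 : z ^ 4 = (x ^ 2 + (c : ℤ) * y ^ 2) ^ 2 := by rw [e1]; ring
      have h2 : t ^ 4 = (x ^ 2 - (c : ℤ) * y ^ 2) ^ 2 := by rw [e2]; ring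
      rw [h1, h2]; ring
    have : z ^ 4 * t ^ 4 * ((z ^ 4) ^ 2 - (t ^ 4) ^ 2) =
        z ^ 4 * t ^ 4 * ((z ^ 4 - t ^ 4) * (z ^ 4 + t ^ 4)) := by ring
    rw [this, hdiff, hsum, hDbg]
    push_cast
    ring

end Pool.Agent.Work.MP_8efaaa_nt
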